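import Pool.Agent.Helper5.ZasDefs

/-!
Handoff 29 (MP_f1caa3_al): the trivial bound for automorphism groups of finite abelian groups and
the numerical assembly of the logarithmic bound.
-/

set_option autoImplicit false

namespace Pool.Agent.Helper74.Zas

open Pool.Agent.Helper5.Zas

/-! ### derived series of finite soluble groups -/

lemma derived_card (G : Type) [Group G] [Finite G] [Group.IsSolvable G] (j : ℕ) :
    derivedSeries G j = ⊥ ∨ Nat.card (derivedSeries G j) * 2 ^ j ≤ Nat.card G := by
  induction j with
  | zero =>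
    right
    rw [derivedSeries_zero, pow_zero, mul_one, Subgroup.card_top]
  | succ j ih =>
    rcases ih with h | h
    · left
      rw [eq_bot_iff, ← h]
      exact derivedSeries_antitone G (Nat.le_succ j)
    · by_cases hb : derivedSeries G j = ⊥
      · left
        rw [eq_bot_iff, ← hb]
        exact derivedSeries_antitone G (Nat.le_succ j)
      · right
        have hlt : derivedSeries G (j + 1) < derivedSeries G j := by
          refine lt_of_le_of_ne (derivedSeries_antitone G (Nat.le_succ j)) ?_
          intro he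
          apply hb
          obtain ⟨n, hn⟩ := (Group.isSolvable_def G).1 inferInstance
          have hconst : ∀ k, derivedSeries G (j + k) = derivedSeries G j := by
            intro k
            induction k with
            | zero => rfl
            | succ k ihk =>
              rw [← Nat.add_assoc, derivedSeries_succ, ihk, ← derivedSeries_succ, he]
          rw [← hconst n, eq_bot_iff, ← hn]
          exact derivedSeries_antitone G (Nat.le_add_left n j)
        have hdvd : Nat.card (derivedSeries G (j + 1)) ∣ Nat.card (derivedSeries G j) :=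
          Subgroup.card_dvd_of_le hlt.le
        obtain ⟨c, hc⟩ := hdvd
        have hpos : 0 < Nat.card (derivedSeries G (j + 1)) := Nat.card_pos
        have hc2 : 2 ≤ c := by
          rcases Nat.lt_or_ge c 2 with h1 | h1
          · exfalso
            interval_cases c
            · rw [mul_zero] at hc
              have : 0 < Nat.card (derivedSeries G j) := Nat.card_pos
              omega
            · rw [mul_one] at hc
              exact hlt.ne (Subgroup.eq_of_le_of_card_ge hlt.le hc.le)
          · exact h1
        calc Nat.card (derivedSeries G (j + 1)) * 2 ^ (j + 1)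
            = (Nat.card (derivedSeries G (j + 1)) * 2) * 2 ^ j := by ring
          _ ≤ (Nat.card (derivedSeries G (j + 1)) * c) * 2 ^ j := by gcongr
          _ = Nat.card (derivedSeries G j) * 2 ^ j := by rw [← hc]
          _ ≤ Nat.card G := h

lemma derived_bot_of_card (G : Type) [Group G] [Finite G] [Group.IsSolvable G] (m : ℕ)
    (h : Nat.card G ≤ 2 ^ m) : derivedSeries G m = ⊥ := by
  rcases derived_card G m with h1 | h1
  · exact h1
  · have : Nat.card (derivedSeries G m) ≤ 1 := by
      by_contra hc
      push Not at hc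
      have : 2 * 2 ^ m ≤ Nat.card (derivedSeries G m) * 2 ^ m := Nat.mul_le_mul_right _ hc
      have h2 : 0 < 2 ^ m := by positivity
      omega
    exact (Subgroup.card_le_one_iff_eq_bot _).1 this

/-! ### generating sets -/

lemma exists_gen (E : Type) [Group E] [Finite E] (n : ℕ) :
    ∃ S : Finset E, 2 ^ S.card ≤ Nat.card (Subgroup.closure (S : Set E)) ∧
      (Subgroup.closure (S : Set E) = ⊤ ∨ S.card = n) := by
  classical
  induction n with
  | zero => exact ⟨∅, by simp, Or.inr rfl⟩
  | succ n ih =>
    obtain ⟨S, h1, h2⟩ := ih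
    by_cases ht : Subgroup.closure (S : Set E) = ⊤
    · exact ⟨S, h1, Or.inl ht⟩
    · have hn : S.card = n := by
        rcases h2 with h2 | h2
        · exact absurd h2 ht
        · exact h2
      obtain ⟨x, hx⟩ : ∃ x, x ∉ Subgroup.closure (S : Set E) := by
        by_contra hc
        push Not at hc
        exact ht (eq_top_iff.2 fun x _ => hc x)
      have hxS : x ∉ S := fun h => hx (Subgroup.subset_closure h)
      refine ⟨insert x S, ?_, Or.inr (by rw [Finset.card_insert_of_notMem hxS, hn])⟩
      have hlt : Subgroup.closure (S : Set E) < Subgroup.closure ((insert x S : Finset E) : Set E) := by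
        refine lt_of_le_of_ne (Subgroup.closure_mono (by simp)) ?_
        intro he
        apply hx
        rw [he]
        exact Subgroup.subset_closure (by simp)
      obtain ⟨c, hc⟩ := Subgroup.card_dvd_of_le hlt.le
      have hpos : 0 < Nat.card (Subgroup.closure ((insert x S : Finset E) : Set E)) :=
        Nat.card_pos
      have hc2 : 2 ≤ c := by
        rcases Nat.lt_or_ge c 2 with h1 | h1
        · exfalso
          interval_cases c
          · omega
          · rw [mul_one] at hc
            exact hlt.ne (Subgroup.eq_of_le_of_card_ge hlt.le hc.le)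
        · exact h1
      rw [Finset.card_insert_of_notMem hxS, hc]
      calc 2 ^ (S.card + 1) = 2 ^ S.card * 2 := by ring
        _ ≤ Nat.card (Subgroup.closure (S : Set E)) * c := Nat.mul_le_mul h1 hc2

lemma card_mulAut_le (E : Type) [CommGroup E] [Finite E] :
    Nat.card (MulAut E) ≤ 2 ^ (Nat.log 2 (Nat.card E) * (Nat.log 2 (Nat.card E) + 1)) := by
  classical
  have hpos : 0 < Nat.card E := Nat.card_pos
  obtain ⟨S, h1, h2⟩ := exists_gen E (Nat.card E)
  have hle : Nat.card (Subgroup.closure (S : Set E)) ≤ Nat.card E :=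
    Nat.card_le_card_of_injective _ Subtype.val_injective
  have hS : 2 ^ S.card ≤ Nat.card E := h1.trans hle
  have htop : Subgroup.closure (S : Set E) = ⊤ := by
    rcases h2 with h2 | h2
    · exact h2
    · exfalso
      rw [h2] at hS
      exact absurd hS (not_le.2 Nat.lt_two_pow_self)
  have hcard : S.card ≤ Nat.log 2 (Nat.card E) :=
    (Nat.le_log_iff_pow_le (by norm_num) hpos.ne').2 hS
  have hinj : Function.Injective (fun (f : MulAut E) (s : S) => f (s : E)) := by
    intro f f' h
    have : (f : E →* E) = (f' : E →* E) := by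
      refine MonoidHom.eq_of_eqOn_dense htop ?_
      intro s hs
      exact congrFun h ⟨s, hs⟩
    exact MulEquiv.ext fun x => DFunLike.congr_fun this x
  have h3 := Nat.card_le_card_of_injective _ hinj
  rw [Nat.card_fun, Nat.card_eq_fintype_card (α := S), Fintype.card_coe] at h3
  refine h3.trans ?_
  have h4 : Nat.card E ≤ 2 ^ (Nat.log 2 (Nat.card E) + 1) :=
    (Nat.lt_pow_succ_log_self (by norm_num) _).le
  calc Nat.card E ^ S.card ≤ Nat.card E ^ Nat.log 2 (Nat.card E) :=
        Nat.pow_le_pow_right hpos hcard
    _ ≤ (2 ^ (Nat.log 2 (Nat.card E) + 1)) ^ Nat.log 2 (Nat.card E) :=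
        Nat.pow_le_pow_left h4 _
    _ = 2 ^ (Nat.log 2 (Nat.card E) * (Nat.log 2 (Nat.card E) + 1)) := by
        rw [← pow_mul, mul_comm]

theorem autBound_trivial (u : ℕ) : AutBound u (Nat.log 2 u * (Nat.log 2 u + 1)) := by
  intro E _ _ G _ _ _ φ hE g hg
  have hlog : Nat.log 2 (Nat.card E) ≤ Nat.log 2 u := Nat.log_mono_right hE
  have hsol : Group.IsSolvable φ.range :=
    Group.isSolvable_of_surjective φ.rangeRestrict_surjective
  have hcard : Nat.card φ.range ≤ 2 ^ (Nat.log 2 u * (Nat.log 2 u + 1)) := by
    refine (Nat.card_le_card_of_injective _ Subtype.val_injective).trans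
      ((card_mulAut_le E).trans ?_)
    refine Nat.pow_le_pow_right (by norm_num) ?_
    exact Nat.mul_le_mul hlog (by omega)
  have hbot := derived_bot_of_card φ.range _ hcard
  have hmem : φ.rangeRestrict g ∈ derivedSeries φ.range (Nat.log 2 u * (Nat.log 2 u + 1)) :=
    map_derivedSeries_le_derivedSeries φ.rangeRestrict _ (Subgroup.mem_map_of_mem _ hg)
  rw [hbot, Subgroup.mem_bot] at hmem
  exact congrArg Subtype.val hmem

/-! ### numerical lemmas -/

lemma two_mul_le_two_pow (k : ℕ) : 2 * k ≤ 2 ^ k := by
  induction k with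
  | zero => simp
  | succ k ih =>
    rcases Nat.eq_zero_or_pos k with rfl | hk
    · norm_num
    · have : 2 ≤ 2 ^ k := by
        calc 2 = 2 ^ 1 := by norm_num
          _ ≤ 2 ^ k := Nat.pow_le_pow_right (by norm_num) hk
      rw [pow_succ]; omega

lemma four_mul_le_two_pow (k : ℕ) : 4 * k ≤ 2 ^ k + 4 := by
  induction k with
  | zero => simp
  | succ k ih =>
    rcases Nat.lt_or_ge k 2 with hk | hk
    · interval_cases k <;> norm_num
    · have : 4 ≤ 2 ^ k := by
        calc 4 = 2 ^ 2 := by norm_num
          _ ≤ 2 ^ k := Nat.pow_le_pow_right (by norm_num) hk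
      rw [pow_succ]; omega

lemma two_mul_log_le (x : ℕ) : 2 * Nat.log 2 x ≤ x := by
  rcases Nat.eq_zero_or_pos x with rfl | hx
  · simp
  · exact (two_mul_le_two_pow _).trans (Nat.pow_log_le_self 2 hx.ne')

lemma four_mul_log_le (x : ℕ) : 4 * Nat.log 2 x ≤ x + 4 := by
  rcases Nat.eq_zero_or_pos x with rfl | hx
  · simp
  · have := Nat.pow_log_le_self 2 hx.ne'
    have := four_mul_le_two_pow (Nat.log 2 x)
    omega

lemma log_mul_ge (s t : ℕ) (hs : 1 ≤ s) (ht : 1 ≤ t) :
    Nat.log 2 s + Nat.log 2 t ≤ Nat.log 2 (s * t) := by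
  refine (Nat.le_log_iff_pow_le (by norm_num) (by positivity)).2 ?_
  rw [pow_add]
  exact Nat.mul_le_mul (Nat.pow_log_le_self 2 (by omega)) (Nat.pow_log_le_self 2 (by omega))

lemma log_sq_le (D : ℕ) (hD : 1 ≤ D) : Nat.log 2 (D ^ 2) ≤ 2 * Nat.log 2 D + 1 := by
  have h : D ^ 2 < 2 ^ (2 * Nat.log 2 D + 2) := by
    have h1 : D < 2 ^ (Nat.log 2 D + 1) := Nat.lt_pow_succ_log_self (by norm_num) _
    calc D ^ 2 < (2 ^ (Nat.log 2 D + 1)) ^ 2 := Nat.pow_lt_pow_left h1 (by norm_num)
      _ = 2 ^ (2 * Nat.log 2 D + 2) := by rw [← pow_mul]; congr 1; ring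
  have := (Nat.log_lt_iff_lt_pow (b := 2) (by norm_num) (by positivity)).2 h
  omega

/-- the bound for automorphism groups used below -/
def fb (u : ℕ) : ℕ := if u ≤ 1 then 0 else 15 * Nat.log 2 (Nat.log 2 u) + 2 + (Nat.log 2 u - 1)

/-- the assembly, with the three main lemmas as hypotheses -/
theorem irrBound_log_aux
    (Z1 : ∀ {x k u : ℕ}, 1 ≤ x → u < 2 ^ (x + 1) → IrrBound x k → AutBound u (k + (x - 1)))
    (Z2 : ∀ (f g : ℕ → ℕ), Monotone g →
      (∀ u t : ℕ, 2 ≤ u → 1 ≤ t → g t + 1 + f u ≤ g (t * u)) → ∀ n : ℕ,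
      (∀ u, 1 ≤ u → u ≤ n → AutBound u (f u)) → ∀ t ≤ n, PermBound t (g t))
    (Z3 : ∀ {D k a : ℕ} (h g : ℕ → ℕ), (∀ D' < D, IrrBound D' (h D')) →
      (∀ t ≤ D, PermBound t (g t)) → AutBound (D ^ 2) a → 1 ≤ k → a + 2 ≤ k →
      (∀ s t : ℕ, 1 ≤ s → 2 ≤ t → s * t ≤ D → h s + g t ≤ k) → Monotone h → IrrBound D k)
    (D : ℕ) : IrrBound D (15 * Nat.log 2 D + 2) := by
  induction D using Nat.strong_induction_on with
  | _ D ih =>
    have hmono : Monotone (fun t : ℕ => 15 * Nat.log 2 t) := by
      intro a b hab
      exact Nat.mul_le_mul_left _ (Nat.log_mono_right hab)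
    have hperm : ∀ t ≤ D, PermBound t (15 * Nat.log 2 t) := by
      refine Z2 fb (fun t => 15 * Nat.log 2 t) hmono ?_ D ?_
      · intro u t hu ht
        have h1 := log_mul_ge t u ht (by omega)
        have h2 : 1 ≤ Nat.log 2 u := (Nat.le_log_iff_pow_le (by norm_num) (by omega)).2 (by simpa)
        have h3 := two_mul_log_le (Nat.log 2 u)
        simp only [fb, if_neg (show ¬ u ≤ 1 by omega)]
        omega
      · intro u hu1 huD
        rcases Nat.lt_or_ge 1 u with hu | hu
        · have h2 : 1 ≤ Nat.log 2 u :=
            (Nat.le_log_iff_pow_le (by norm_num) (by omega)).2 (by simpa)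
          have h3 : Nat.log 2 u < D := (Nat.log_lt_self 2 (by omega)).trans_le huD
          have := Z1 (u := u) h2 (Nat.lt_pow_succ_log_self (by norm_num) u) (ih _ h3)
          simpa only [fb, if_neg (show ¬ u ≤ 1 by omega)] using this
        · have h1 : u = 1 := by omega
          subst h1
          have := autBound_trivial 1
          simpa [fb] using this
    obtain ⟨a, ha, hak⟩ : ∃ a, AutBound (D ^ 2) a ∧ a + 2 ≤ 15 * Nat.log 2 D + 2 := by
      rcases Nat.eq_zero_or_pos D with rfl | hD
      · exact ⟨_, autBound_trivial _, by simp⟩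
      · have hx := log_sq_le D hD
        rcases Nat.lt_or_ge (Nat.log 2 D) 3 with hy | hy
        · refine ⟨_, autBound_trivial _, ?_⟩
          have hmul : Nat.log 2 (D ^ 2) * (Nat.log 2 (D ^ 2) + 1) ≤
              (2 * Nat.log 2 D + 1) * (2 * Nat.log 2 D + 1 + 1) :=
            Nat.mul_le_mul hx (by omega)
          rcases Nat.eq_zero_or_pos (Nat.log 2 D) with h0 | h0
          · have hD1 : D = 1 := by
              rw [Nat.log_eq_zero_iff] at h0
              omega
            subst hD1
            simp
          · refine (Nat.add_le_add_right hmul 2).trans ?_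
            interval_cases (Nat.log 2 D) <;> norm_num
        · have hD8 : 2 ^ Nat.log 2 D ≤ D := Nat.pow_log_le_self 2 (by omega)
          have h8 : ∀ y, 3 ≤ y → 2 * y + 1 < 2 ^ y := by
            intro y hy
            induction y, hy using Nat.le_induction with
            | base => norm_num
            | succ y hy ihy => rw [pow_succ]; omega
          have hxD : Nat.log 2 (D ^ 2) < D := by
            have := h8 _ hy
            omega
          have hx1 : 1 ≤ Nat.log 2 (D ^ 2) := by
            refine (Nat.le_log_iff_pow_le (by norm_num) (by positivity)).2 ?_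
            have : 2 ^ 3 ≤ 2 ^ Nat.log 2 D := Nat.pow_le_pow_right (by norm_num) hy
            nlinarith
          refine ⟨_, Z1 (u := D ^ 2) hx1 (Nat.lt_pow_succ_log_self (by norm_num) _) (ih _ hxD), ?_⟩
          rcases Nat.lt_or_ge (Nat.log 2 D) 4 with hy4 | hy4
          · have hy3 : Nat.log 2 D = 3 := by omega
            rw [hy3] at hx ⊢
            have : Nat.log 2 (Nat.log 2 (D ^ 2)) ≤ Nat.log 2 7 := Nat.log_mono_right hx
            have h7 : Nat.log 2 7 = 2 := by norm_num [Nat.log_eq_iff]
            omega
          · have := four_mul_log_le (Nat.log 2 (D ^ 2))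
            omega
    refine Z3 (fun s => 15 * Nat.log 2 s + 2) (fun t => 15 * Nat.log 2 t) ih hperm ha (by omega)
      hak ?_ ?_
    · intro s t hs ht hst
      have h1 := log_mul_ge s t hs (by omega)
      have h2 : Nat.log 2 (s * t) ≤ Nat.log 2 D := Nat.log_mono_right hst
      omega
    · intro a b hab
      have := hmono hab
      simp only at this ⊢
      omega

end Pool.Agent.Helper74.Zas
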