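import Mathlib

set_option autoImplicit false

namespace Pool.Agent.Helper74.PW

open Matrix

open scoped MatrixOrder ComplexOrder in
lemma exists_sqrt {n : Type} [Fintype n] [DecidableEq n] (H : Matrix n n ℂ) (hH : H.PosDef) :
    ∃ S : Matrix n n ℂ, IsUnit S ∧ H = Sᴴ * S := by
  have h0 : 0 ≤ H := Matrix.nonneg_iff_posSemidef.2 hH.posSemidef
  have h1 : CFC.sqrt H * CFC.sqrt H = H := CFC.sqrt_mul_sqrt_self H h0
  have h2 : (CFC.sqrt H)ᴴ = CFC.sqrt H := IsSelfAdjoint.of_nonneg (CFC.sqrt_nonneg H)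
  refine ⟨CFC.sqrt H, ?_, ?_⟩
  · rw [Matrix.isUnit_iff_isUnit_det, isUnit_iff_ne_zero]
    intro hd
    have := congrArg Matrix.det h1
    rw [Matrix.det_mul, hd, mul_zero] at this
    exact hH.det_pos.ne this
  · rw [h2, h1]

open scoped ComplexOrder in
/-- unitarisation -/
lemma exists_unitary {G : Type} [Group G] [Fintype G] {n : Type} [Fintype n] [DecidableEq n]
    (σ : G →* Matrix n n ℂ) :
    ∃ (S T : Matrix n n ℂ) (ρ : G →* Matrix n n ℂ), S * T = 1 ∧ T * S = 1 ∧
      (∀ g, ρ g = S * σ g * T) ∧ ∀ g, (ρ g)ᴴ * ρ g = 1 := by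
  classical
  have hpd : (∑ g : G, (σ g)ᴴ * σ g).PosDef := by
    rw [← Finset.add_sum_erase Finset.univ _ (Finset.mem_univ (1 : G))]
    refine Matrix.PosDef.add_posSemidef ?_ ?_
    · rw [map_one, conjTranspose_one, one_mul]
      exact Matrix.PosDef.one
    · exact Matrix.posSemidef_sum _ (fun g _ => Matrix.posSemidef_conjTranspose_mul_self _)
  obtain ⟨S, hS, hH⟩ := exists_sqrt _ hpd
  obtain ⟨u, hu⟩ := hS
  have hST : S * (↑(u⁻¹) : Matrix n n ℂ) = 1 := by rw [← hu]; exact u.mul_inv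
  have hTS : (↑(u⁻¹) : Matrix n n ℂ) * S = 1 := by rw [← hu]; exact u.inv_mul
  set T : Matrix n n ℂ := ↑(u⁻¹) with hT
  let ρ : G →* Matrix n n ℂ :=
    { toFun := fun g => S * σ g * T
      map_one' := by rw [map_one, mul_one, hST]
      map_mul' := by
        intro g h
        rw [map_mul]
        calc S * (σ g * σ h) * T = S * σ g * 1 * σ h * T := by noncomm_ring
          _ = S * σ g * (T * S) * σ h * T := by rw [hTS]
          _ = S * σ g * T * (S * σ h * T) := by noncomm_ring }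
  refine ⟨S, T, ρ, hST, hTS, fun g => rfl, fun g => ?_⟩
  have hinv : (σ g)ᴴ * (∑ h : G, (σ h)ᴴ * σ h) * σ g = ∑ h : G, (σ h)ᴴ * σ h := by
    rw [Finset.mul_sum, Finset.sum_mul]
    refine Fintype.sum_equiv (Equiv.mulRight g) _ _ (fun h => ?_)
    simp only [Equiv.coe_mulRight, map_mul, conjTranspose_mul]
    noncomm_ring
  rw [hH] at hinv
  have hTS' : Tᴴ * Sᴴ = 1 := by
    rw [← conjTranspose_mul, hST, conjTranspose_one]
  change (S * σ g * T)ᴴ * (S * σ g * T) = 1
  calc (S * σ g * T)ᴴ * (S * σ g * T) = Tᴴ * ((σ g)ᴴ * (Sᴴ * S) * σ g) * T := by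
        rw [conjTranspose_mul, conjTranspose_mul]; noncomm_ring
    _ = Tᴴ * Sᴴ * (S * T) := by rw [hinv]; noncomm_ring
    _ = 1 := by rw [hTS', hST, one_mul]

/-- Schur's lemma in the form needed: averaging gives a scalar matrix -/
lemma average {G : Type} [Group G] [Fintype G] {n : Type} [Fintype n] [DecidableEq n]
    [Nonempty n] (ρ : G →* Matrix n n ℂ) (hu : ∀ g, (ρ g)ᴴ * ρ g = 1)
    (hspan : ∀ M : Matrix n n ℂ, ∃ F : G → ℂ, M = ∑ g, F g • ρ g) (M : Matrix n n ℂ) :
    ∑ g : G, ρ g * M * (ρ g)ᴴ =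
      (((Fintype.card G : ℂ) * Matrix.trace M) / (Fintype.card n : ℂ)) • (1 : Matrix n n ℂ) := by
  have hinv : ∀ g, (ρ g)ᴴ = ρ g⁻¹ := by
    intro g
    have h1 : ρ g * ρ g⁻¹ = 1 := by rw [← map_mul, mul_inv_cancel, map_one]
    calc (ρ g)ᴴ = (ρ g)ᴴ * (ρ g * ρ g⁻¹) := by rw [h1, mul_one]
      _ = ρ g⁻¹ := by rw [← mul_assoc, hu, one_mul]
  set Z := ∑ g : G, ρ g * M * (ρ g)ᴴ with hZ
  have hcomm : ∀ h, ρ h * Z = Z * ρ h := by
    intro h
    rw [hZ, Finset.mul_sum, Finset.sum_mul]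
    refine Fintype.sum_equiv (Equiv.mulLeft h) _ _ (fun g => ?_)
    simp only [Equiv.coe_mulLeft, map_mul, conjTranspose_mul, hinv]
    have h1 : ρ h⁻¹ * ρ h = 1 := by rw [← map_mul, inv_mul_cancel, map_one]
    calc ρ h * (ρ g * M * ρ g⁻¹) = ρ h * ρ g * M * (ρ g⁻¹ * 1) := by noncomm_ring
      _ = ρ h * ρ g * M * (ρ g⁻¹ * (ρ h⁻¹ * ρ h)) := by rw [h1]
      _ = ρ h * ρ g * M * (ρ g⁻¹ * ρ h⁻¹) * ρ h := by noncomm_ring
  have hcomm' : ∀ A : Matrix n n ℂ, A * Z = Z * A := by
    intro A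
    obtain ⟨F, rfl⟩ := hspan A
    rw [Finset.sum_mul, Finset.mul_sum]
    refine Finset.sum_congr rfl (fun g _ => ?_)
    rw [smul_mul_assoc, mul_smul_comm, hcomm]
  obtain ⟨z, hz⟩ := Matrix.mem_range_scalar_iff_commute_single'.2
    (fun i j => (hcomm' (Matrix.single i j 1) : Commute (Matrix.single i j 1) Z))
  have hz' : Z = z • (1 : Matrix n n ℂ) := by
    rw [← hz]
    ext i j
    by_cases h : i = j
    · subst h; simp
    · simp [h]
  have htr : Matrix.trace Z = (Fintype.card G : ℂ) * Matrix.trace M := by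
    rw [hZ, Matrix.trace_sum]
    have : ∀ g ∈ Finset.univ, Matrix.trace (ρ g * M * (ρ g)ᴴ) = Matrix.trace M := by
      intro g _
      rw [Matrix.trace_mul_comm, ← mul_assoc, hu, one_mul]
    rw [Finset.sum_congr rfl this, Finset.sum_const, Finset.card_univ, nsmul_eq_mul]
  have hn : (Fintype.card n : ℂ) ≠ 0 := by
    exact_mod_cast Fintype.card_ne_zero
  rw [hz'] at htr
  rw [Matrix.trace_smul, Matrix.trace_one, smul_eq_mul] at htr
  rw [hz', ← htr, mul_div_assoc, div_self hn, mul_one]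

/-- the trace of `M ↦ A M B` on a product of matrix algebras -/
lemma trace_pi {c : ℕ} {D : Fin c → ℕ} (A B : ∀ i, Matrix (Fin (D i)) (Fin (D i)) ℂ)
    (L : (∀ i, Matrix (Fin (D i)) (Fin (D i)) ℂ) →ₗ[ℂ] (∀ i, Matrix (Fin (D i)) (Fin (D i)) ℂ))
    (hL : ∀ M i, L M i = A i * M i * B i) :
    LinearMap.trace ℂ _ L = ∑ i, Matrix.trace (A i) * Matrix.trace (B i) := by
  classical
  let b := Pi.basis (fun i => Matrix.stdBasis ℂ (Fin (D i)) (Fin (D i)))
  rw [LinearMap.trace_eq_matrix_trace ℂ b L, Matrix.trace, Fintype.sum_sigma]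
  refine Finset.sum_congr rfl (fun i _ => ?_)
  rw [Fintype.sum_prod_type, Matrix.trace, Matrix.trace, Finset.sum_mul_sum]
  refine Finset.sum_congr rfl (fun a _ => Finset.sum_congr rfl (fun a' _ => ?_))
  simp only [Matrix.diag_apply, LinearMap.toMatrix_apply, b, Pi.basis_repr, Pi.basis_apply, hL]
  rw [Pi.single_eq_same, Matrix.stdBasis_eq_single]
  have : ∀ M : Matrix (Fin (D i)) (Fin (D i)) ℂ,
      (Matrix.stdBasis ℂ (Fin (D i)) (Fin (D i))).repr M (a, a') = M a a' := by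
    intro M
    conv_lhs => rw [Matrix.matrix_eq_sum_single M]
    simp only [map_sum, Finsupp.coe_finsetSum, Finset.sum_apply]
    have h1 : ∀ i' j', Matrix.single i' j' (M i' j') = M i' j' •
        (Matrix.stdBasis ℂ (Fin (D i)) (Fin (D i))) (i', j') := by
      intro i' j'
      rw [Matrix.stdBasis_eq_single, Matrix.smul_single, smul_eq_mul, mul_one]
    simp only [h1, map_smul, Module.Basis.repr_self, Finsupp.coe_smul, Pi.smul_apply,
      Finsupp.single_apply, Prod.mk.injEq, smul_eq_mul, mul_ite, mul_one, mul_zero]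
    rw [Finset.sum_eq_single a, Finset.sum_eq_single a']
    · simp
    · intro x _ hx; simp [hx]
    · simp
    · intro x _ hx; simp [hx]
    · simp
  rw [this, Matrix.mul_apply, Finset.sum_eq_single a']
  · rw [Matrix.mul_single_apply_same, mul_one]
  · intro x _ hx
    rw [Matrix.mul_single_apply_of_ne, zero_mul]
    exact hx
  · simp

theorem peter_weyl (G : Type) [Group G] [Fintype G] [DecidableEq G] :
    ∃ (c : ℕ) (D : Fin c → ℕ) (ρ : ∀ i, G →* Matrix (Fin (D i)) (Fin (D i)) ℂ),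
      (∀ i, 0 < D i) ∧
      (∀ i g, (ρ i g)ᴴ * ρ i g = 1) ∧
      (∀ i (M : Matrix (Fin (D i)) (Fin (D i)) ℂ),
        ∑ g : G, ρ i g * M * (ρ i g)ᴴ =
          (((Fintype.card G : ℂ) * Matrix.trace M) / (D i : ℂ)) • (1 : Matrix (Fin (D i)) (Fin (D i)) ℂ)) ∧
      (∀ g h : G, ∑ i, Matrix.trace (ρ i g) * Matrix.trace (ρ i h) =
        ((Finset.univ.filter (fun x : G => g * x * h = x)).card : ℂ)) ∧
      (∀ F : G → ℂ, F ≠ 0 → ∃ i, ∑ g : G, F g • ρ i g ≠ 0) := by
  classical
  have hne : NeZero (Nat.card G : ℂ) := ⟨by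
    rw [Nat.card_eq_fintype_card]
    exact_mod_cast Fintype.card_ne_zero⟩
  obtain ⟨c, D, hD, ⟨e⟩⟩ :=
    IsSemisimpleRing.exists_algEquiv_pi_matrix_of_isAlgClosed ℂ (MonoidAlgebra ℂ G)
  let σ : ∀ i, G →* Matrix (Fin (D i)) (Fin (D i)) ℂ := fun i =>
    (Pi.evalMonoidHom (fun i => Matrix (Fin (D i)) (Fin (D i)) ℂ) i).comp
      ((e : MonoidAlgebra ℂ G →* (∀ i, Matrix (Fin (D i)) (Fin (D i)) ℂ)).comp
        (MonoidAlgebra.of ℂ G))
  have hσ : ∀ i g, σ i g = e (MonoidAlgebra.single g 1) i := fun i g => rfl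
  have hsum : ∀ a : MonoidAlgebra ℂ G, a = ∑ g, a.coeff g • MonoidAlgebra.single g (1 : ℂ) := by
    intro a
    have := (MonoidAlgebra.basis G ℂ).sum_repr a
    conv_lhs => rw [← this]
    rfl
  have hea : ∀ (a : MonoidAlgebra ℂ G) i, e a i = ∑ g, a.coeff g • σ i g := by
    intro a i
    conv_lhs => rw [hsum a]
    rw [map_sum, Finset.sum_apply]
    refine Finset.sum_congr rfl (fun g _ => ?_)
    rw [map_smul, Pi.smul_apply, hσ]
  have hspan : ∀ i (M : Matrix (Fin (D i)) (Fin (D i)) ℂ), ∃ F : G → ℂ,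
      M = ∑ g, F g • σ i g := by
    intro i M
    refine ⟨fun g => (e.symm (Pi.single i M)).coeff g, ?_⟩
    rw [← hea, AlgEquiv.apply_symm_apply, Pi.single_eq_same]
  have hU := fun i => exists_unitary (σ i)
  choose S T ρ hST hTS hρ hu using hU
  have hρsum : ∀ i (F : G → ℂ), ∑ g, F g • ρ i g = S i * (∑ g, F g • σ i g) * T i := by
    intro i F
    rw [Finset.mul_sum, Finset.sum_mul]
    refine Finset.sum_congr rfl (fun g _ => ?_)
    rw [hρ, mul_smul_comm, smul_mul_assoc]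
  have htr : ∀ i g, Matrix.trace (ρ i g) = Matrix.trace (σ i g) := by
    intro i g
    rw [hρ, Matrix.trace_mul_comm, ← mul_assoc, hTS, one_mul]
  refine ⟨c, D, ρ, fun i => Nat.pos_of_ne_zero (hD i).out, hu, ?_, ?_, ?_⟩
  · intro i M
    have := hD i
    have h := average (ρ i) (hu i) (by
      intro M
      obtain ⟨F, hF⟩ := hspan i (T i * M * S i)
      refine ⟨F, ?_⟩
      rw [hρsum, ← hF]
      calc M = (S i * T i) * M * (S i * T i) := by rw [hST, one_mul, mul_one]
        _ = S i * (T i * M * S i) * T i := by noncomm_ring) M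
    rw [h, Fintype.card_fin]
  · intro g h
    simp only [htr]
    let L : (∀ i, Matrix (Fin (D i)) (Fin (D i)) ℂ) →ₗ[ℂ] (∀ i, Matrix (Fin (D i)) (Fin (D i)) ℂ) :=
      (LinearMap.mulRight ℂ (e (MonoidAlgebra.single h 1))).comp
        (LinearMap.mulLeft ℂ (e (MonoidAlgebra.single g 1)))
    rw [← trace_pi (fun i => σ i g) (fun i => σ i h) L (fun M i => by simp [L, hσ])]
    let L' : MonoidAlgebra ℂ G →ₗ[ℂ] MonoidAlgebra ℂ G :=
      (LinearMap.mulRight ℂ (MonoidAlgebra.single h 1)).comp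
        (LinearMap.mulLeft ℂ (MonoidAlgebra.single g 1))
    have hLL : L = e.toLinearEquiv.conj L' := by
      refine LinearMap.ext (fun M => ?_)
      simp [L, L', LinearEquiv.conj_apply]
    rw [hLL, LinearMap.trace_conj', LinearMap.trace_eq_matrix_trace ℂ (MonoidAlgebra.basis G ℂ),
      Matrix.trace]
    rw [Finset.card_filter, Nat.cast_sum]
    refine Finset.sum_congr rfl (fun x _ => ?_)
    rw [Matrix.diag_apply, LinearMap.toMatrix_apply]
    simp only [L', MonoidAlgebra.basis_apply, LinearMap.comp_apply, LinearMap.mulLeft_apply,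
      LinearMap.mulRight_apply, MonoidAlgebra.single_mul_single, mul_one]
    rw [← MonoidAlgebra.basis_apply, Module.Basis.repr_self, Finsupp.single_apply]
    split_ifs <;> simp
  · intro F hF
    by_contra hc
    push Not at hc
    apply hF
    let a : MonoidAlgebra ℂ G := ∑ g, F g • MonoidAlgebra.single g (1 : ℂ)
    have ha : ∀ g, a.coeff g = F g := by
      intro g
      simp only [a, MonoidAlgebra.coeff_sum, Finsupp.coe_finsetSum, Finset.sum_apply,
        MonoidAlgebra.smul_single, smul_eq_mul, mul_one]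
      rw [Finset.sum_eq_single g]
      · simp
      · intro h _ hh
        simp [hh]
      · simp
    have h0 : e a = 0 := by
      funext i
      rw [hea]
      simp only [ha]
      have h1 := hρsum i F
      rw [hc i] at h1
      calc ∑ g, F g • σ i g = (T i * S i) * (∑ g, F g • σ i g) * (T i * S i) := by
            rw [hTS, one_mul, mul_one]
        _ = T i * (S i * (∑ g, F g • σ i g) * T i) * S i := by noncomm_ring
        _ = 0 := by rw [← h1]; simp
    have h1 : a = 0 := by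
      have := congrArg e.symm h0
      simpa using this
    funext g
    rw [← ha g, h1]
    rfl

end Pool.Agent.Helper74.PW
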