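import Mathlib

set_option autoImplicit false
set_option linter.unusedSectionVars false

namespace Pool.Agent.Helper74

/-- regular programs over a set of actions -/
inductive Prg (α : Type) : Type
  | nil : Prg α
  | act (a : α) : Prg α
  | alt (P Q : Prg α) : Prg α
  | seq (P Q : Prg α) : Prg α
  | loop (P : Prg α) : Prg α

namespace Prg

variable {α : Type}

/-- the language of a program -/
def lang : Prg α → Language α
  | nil => 1
  | act a => {[a]}
  | alt P Q => P.lang + Q.lang
  | seq P Q => P.lang * Q.lang
  | loop P => KStar.kstar P.lang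

/-- relational semantics -/
def sem {σ : Type} (step : α → σ → σ → Prop) : Prg α → σ → σ → Prop
  | nil => fun s t => s = t
  | act a => step a
  | alt P Q => fun s t => P.sem step s t ∨ Q.sem step s t
  | seq P Q => fun s t => ∃ u, P.sem step s u ∧ Q.sem step u t
  | loop P => Relation.ReflTransGen (P.sem step)

/-- runs along words -/
def wrun {σ : Type} (step : α → σ → σ → Prop) : List α → σ → σ → Prop
  | [] => fun s t => s = t
  | a :: w => fun s t => ∃ u, step a s u ∧ wrun step w u t

lemma wrun_append {σ : Type} (step : α → σ → σ → Prop) (v w : List α) (s t : σ) :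
    wrun step (v ++ w) s t ↔ ∃ u, wrun step v s u ∧ wrun step w u t := by
  induction v generalizing s with
  | nil => simp [wrun]
  | cons a v ih =>
    simp only [List.cons_append, wrun, ih]
    constructor
    · rintro ⟨u, h1, u', h2, h3⟩
      exact ⟨u', ⟨u, h1, h2⟩, h3⟩
    · rintro ⟨u', ⟨u, h1, h2⟩, h3⟩
      exact ⟨u, h1, u', h2, h3⟩

lemma sem_iff {σ : Type} (step : α → σ → σ → Prop) (P : Prg α) (s t : σ) :
    P.sem step s t ↔ ∃ w ∈ P.lang, wrun step w s t := by
  induction P generalizing s t with
  | nil =>
    simp only [sem, lang, Language.mem_one]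
    constructor
    · rintro rfl; exact ⟨[], rfl, rfl⟩
    · rintro ⟨w, rfl, h⟩; exact h
  | act a =>
    simp only [sem, lang]
    constructor
    · intro h; exact ⟨[a], rfl, t, h, rfl⟩
    · rintro ⟨w, hw, h⟩
      have : w = [a] := hw
      subst this
      obtain ⟨u, h1, h2⟩ := h
      have : u = t := h2
      subst this
      exact h1
  | alt P Q ihP ihQ =>
    simp only [sem, lang, ihP, ihQ, Language.mem_add]
    constructor
    · rintro (⟨w, h1, h2⟩ | ⟨w, h1, h2⟩)
      · exact ⟨w, Or.inl h1, h2⟩
      · exact ⟨w, Or.inr h1, h2⟩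
    · rintro ⟨w, h1 | h1, h2⟩
      · exact Or.inl ⟨w, h1, h2⟩
      · exact Or.inr ⟨w, h1, h2⟩
  | seq P Q ihP ihQ =>
    simp only [sem, lang, ihP, ihQ, Language.mem_mul]
    constructor
    · rintro ⟨u, ⟨v, h1, h2⟩, ⟨w, h3, h4⟩⟩
      exact ⟨v ++ w, ⟨v, h1, w, h3, rfl⟩, (wrun_append _ _ _ _ _).2 ⟨u, h2, h4⟩⟩
    · rintro ⟨_, ⟨v, h1, w, h3, rfl⟩, h⟩
      obtain ⟨u, h2, h4⟩ := (wrun_append _ _ _ _ _).1 h
      exact ⟨u, ⟨v, h1, h2⟩, ⟨w, h3, h4⟩⟩
  | loop P ih =>
    simp only [sem, lang]
    constructor
    · intro h
      induction h using Relation.ReflTransGen.head_induction_on with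
      | refl => exact ⟨[], Language.nil_mem_kstar _, rfl⟩
      | head h1 _ ih2 =>
        obtain ⟨v, hv1, hv2⟩ := (ih _ _).1 h1
        obtain ⟨w, hw1, hw2⟩ := ih2
        refine ⟨v ++ w, ?_, (wrun_append _ _ _ _ _).2 ⟨_, hv2, hw2⟩⟩
        rw [Language.mem_kstar] at hw1 ⊢
        obtain ⟨L, rfl, hL⟩ := hw1
        refine ⟨v :: L, by simp, ?_⟩
        intro y hy
        rcases List.mem_cons.1 hy with rfl | hy
        · exact hv1
        · exact hL y hy
    · rintro ⟨w, hw, h⟩
      rw [Language.mem_kstar] at hw
      obtain ⟨L, rfl, hL⟩ := hw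
      induction L generalizing s with
      | nil =>
        have : s = t := h
        subst this
        exact Relation.ReflTransGen.refl
      | cons v L ihL =>
        rw [List.flatten_cons] at h
        obtain ⟨u, h1, h2⟩ := (wrun_append _ _ _ _ _).1 h
        exact Relation.ReflTransGen.head ((ih _ _).2 ⟨v, hL v (by simp), h1⟩)
          (ihL u (fun y hy => hL y (by simp [hy])) h2)

/-- union of a set of languages -/
def bigU (S : Set (Language α)) : Language α := {y : List α | ∃ B ∈ S, y ∈ B}

lemma mem_bigU {S : Set (Language α)} {y : List α} : y ∈ bigU S ↔ ∃ B ∈ S, y ∈ B := Iff.rfl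

/-- a language under a condition -/
def guard (b : Prop) (L : Language α) : Language α := {y : List α | b ∧ y ∈ L}

lemma mem_guard {b : Prop} {L : Language α} {y : List α} : y ∈ guard b L ↔ b ∧ y ∈ L := Iff.rfl

lemma mul_quot_finite {L M : Language α} (hL : (Set.range L.leftQuotient).Finite)
    (hM : (Set.range M.leftQuotient).Finite) : (Set.range (L * M).leftQuotient).Finite := by
  have hfin := Set.Finite.image2
    (fun (A : Language α) (𝓑 : Set (Language α)) => A * M + bigU 𝓑)
    hL hM.finite_subsets
  refine hfin.subset ?_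
  rintro _ ⟨w, rfl⟩
  refine ⟨L.leftQuotient w, ⟨w, rfl⟩,
    {B | ∃ u v, w = u ++ v ∧ u ∈ L ∧ B = M.leftQuotient v}, ?_, ?_⟩
  · rintro _ ⟨u, v, -, -, rfl⟩
    exact ⟨v, rfl⟩
  · ext y
    simp only [Language.mem_add, Language.mem_leftQuotient, mem_bigU]
    constructor
    · rintro (h | ⟨_, ⟨u, v, rfl, hu, rfl⟩, hB⟩)
      · rw [Language.mem_mul] at h ⊢
        obtain ⟨a, ha, b, hb, rfl⟩ := h
        exact ⟨w ++ a, ha, b, hb, by simp⟩
      · rw [Language.mem_mul]
        exact ⟨u, hu, v ++ y, hB, by simp⟩
    · intro h
      rw [Language.mem_mul] at h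
      obtain ⟨a, ha, b, hb, hab⟩ := h
      rcases List.append_eq_append_iff.1 hab with ⟨c, h1, h2⟩ | ⟨c, h1, h2⟩
      · right
        subst h1 h2
        exact ⟨_, ⟨a, c, rfl, ha, rfl⟩, hb⟩
      · left
        subst h1 h2
        rw [Language.mem_mul]
        exact ⟨c, ha, b, hb, rfl⟩

open Computability in
lemma star_quot_finite {L : Language α} (hL : (Set.range L.leftQuotient).Finite) :
    (Set.range (L∗).leftQuotient).Finite := by
  have hfin := Set.Finite.image2
    (fun (𝓑 : Set (Language α)) (b : Prop) => bigU 𝓑 * L∗ + guard b (L∗))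
    hL.finite_subsets (Set.finite_univ (α := Prop))
  refine hfin.subset ?_
  rintro _ ⟨w, rfl⟩
  refine ⟨{B | ∃ u v, w = u ++ v ∧ u ∈ L∗ ∧ B = L.leftQuotient v}, ?_, w ∈ L∗,
    Set.mem_univ _, ?_⟩
  · rintro _ ⟨u, v, -, -, rfl⟩
    exact ⟨v, rfl⟩
  · ext y
    simp only [Language.mem_add, Language.mem_leftQuotient, mem_guard]
    constructor
    · rintro (h | ⟨hw, hy⟩)
      · rw [Language.mem_mul] at h
        obtain ⟨a, ⟨_, ⟨u, v, rfl, hu, rfl⟩, ha⟩, b, hb, rfl⟩ := h
        rw [Language.mem_kstar] at hu hb ⊢
        obtain ⟨L1, rfl, hL1⟩ := hu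
        obtain ⟨L2, rfl, hL2⟩ := hb
        refine ⟨L1 ++ (v ++ a) :: L2, by simp, ?_⟩
        intro x hx
        rcases List.mem_append.1 hx with hx | hx
        · exact hL1 x hx
        · rcases List.mem_cons.1 hx with rfl | hx
          · exact ha
          · exact hL2 x hx
      · rw [Language.mem_kstar] at hw hy ⊢
        obtain ⟨L1, rfl, hL1⟩ := hw
        obtain ⟨L2, rfl, hL2⟩ := hy
        refine ⟨L1 ++ L2, by simp, ?_⟩
        intro x hx
        rcases List.mem_append.1 hx with hx | hx
        · exact hL1 x hx
        · exact hL2 x hx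
    · intro h
      rw [Language.mem_kstar] at h
      obtain ⟨Ls, he, hLs⟩ := h
      have key : ∀ (Ls : List (List α)) (w y : List α), (∀ x ∈ Ls, x ∈ L) → w ++ y = Ls.flatten →
          (w ∈ L∗ ∧ y ∈ L∗) ∨ ∃ u v a b, w = u ++ v ∧ u ∈ L∗ ∧ v ++ a ∈ L ∧ b ∈ L∗ ∧
            y = a ++ b := by
        intro Ls
        induction Ls with
        | nil =>
          intro w y _ he
          simp only [List.flatten_nil, List.append_eq_nil_iff] at he
          rw [he.1, he.2]
          exact Or.inl ⟨Language.nil_mem_kstar _, Language.nil_mem_kstar _⟩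
        | cons x Ls ih =>
          intro w y hx he
          rw [List.flatten_cons] at he
          rcases List.append_eq_append_iff.1 he with ⟨c, h1, h2⟩ | ⟨c, h1, h2⟩
          · right
            refine ⟨[], w, c, Ls.flatten, by simp, Language.nil_mem_kstar _, ?_, ?_, h2⟩
            · rw [← h1]; exact hx x (by simp)
            · rw [Language.mem_kstar]
              exact ⟨Ls, rfl, fun z hz => hx z (by simp [hz])⟩
          · rcases ih c y (fun z hz => hx z (by simp [hz])) h2.symm with
              ⟨h3, h4⟩ | ⟨u, v, a, b, rfl, h3, h4, h5, h6⟩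
            · left
              refine ⟨?_, h4⟩
              rw [Language.mem_kstar] at h3 ⊢
              obtain ⟨L1, rfl, hL1⟩ := h3
              refine ⟨x :: L1, by simp [h1], ?_⟩
              intro z hz
              rcases List.mem_cons.1 hz with rfl | hz
              · exact hx _ (by simp)
              · exact hL1 z hz
            · right
              refine ⟨x ++ u, v, a, b, by simp [h1], ?_, h4, h5, h6⟩
              rw [Language.mem_kstar] at h3 ⊢
              obtain ⟨L1, rfl, hL1⟩ := h3
              refine ⟨x :: L1, by simp, ?_⟩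
              intro z hz
              rcases List.mem_cons.1 hz with rfl | hz
              · exact hx _ (by simp)
              · exact hL1 z hz
      rcases key Ls w y hLs he with ⟨h1, h2⟩ | ⟨u, v, a, b, rfl, h1, h2, h3, rfl⟩
      · exact Or.inr ⟨h1, h2⟩
      · left
        rw [Language.mem_mul]
        exact ⟨a, ⟨_, ⟨u, v, rfl, h1, rfl⟩, h2⟩, b, h3, rfl⟩

lemma one_quot_finite : (Set.range (1 : Language α).leftQuotient).Finite := by
  refine ((Set.finite_singleton (1 : Language α)).union (Set.finite_singleton 0)).subset ?_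
  rintro _ ⟨w, rfl⟩
  cases w with
  | nil => left; rfl
  | cons a w =>
    right
    ext y
    simp [Language.mem_one]

lemma single_quot_finite (a : α) : (Set.range ({[a]} : Language α).leftQuotient).Finite := by
  refine ((Set.finite_singleton ({[a]} : Language α)).union
    ((Set.finite_singleton (1 : Language α)).union (Set.finite_singleton 0))).subset ?_
  rintro _ ⟨w, rfl⟩
  cases w with
  | nil => left; rfl
  | cons b w =>
    right
    by_cases hb : b = a ∧ w = []
    · obtain ⟨rfl, rfl⟩ := hb
      left
      ext y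
      rw [Language.mem_leftQuotient, Language.mem_one]
      constructor
      · intro h
        have : [b] ++ y = [b] := h
        simpa using this
      · rintro rfl
        rfl
    · right
      ext y
      rw [Language.mem_leftQuotient]
      constructor
      · intro h
        have : (b :: w) ++ y = [a] := h
        simp only [List.cons_append, List.cons.injEq, List.append_eq_nil_iff] at this
        exact absurd ⟨this.1, this.2.1⟩ hb
      · intro h
        exact absurd h (Language.notMem_zero y)

lemma lang_quot_finite (P : Prg α) : (Set.range P.lang.leftQuotient).Finite := by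
  induction P with
  | nil => exact one_quot_finite
  | act a => exact single_quot_finite a
  | alt P Q ihP ihQ =>
    exact ((Language.IsRegular.of_finite_range_leftQuotient ihP).add
      (Language.IsRegular.of_finite_range_leftQuotient ihQ)).finite_range_leftQuotient
  | seq P Q ihP ihQ => exact mul_quot_finite ihP ihQ
  | loop P ih => exact star_quot_finite ih

lemma lang_regular (P : Prg α) : P.lang.IsRegular :=
  Language.IsRegular.of_finite_range_leftQuotient P.lang_quot_finite

/-- all letters satisfy a predicate -/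
def all (p : α → Prop) : Prg α → Prop
  | nil => True
  | act a => p a
  | alt P Q => P.all p ∧ Q.all p
  | seq P Q => P.all p ∧ Q.all p
  | loop P => P.all p

lemma all_mono {p q : α → Prop} (h : ∀ a, p a → q a) (P : Prg α) (hP : P.all p) : P.all q := by
  induction P with
  | nil => trivial
  | act a => exact h a hP
  | alt P Q ihP ihQ => exact ⟨ihP hP.1, ihQ hP.2⟩
  | seq P Q ihP ihQ => exact ⟨ihP hP.1, ihQ hP.2⟩
  | loop P ih => exact ih hP

lemma sem_preserves {σ β : Type} (step : α → σ → σ → Prop) (f : σ → β) (p : α → Prop)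
    (h : ∀ a, p a → ∀ s t, step a s t → f t = f s) (P : Prg α) (hP : P.all p) :
    ∀ s t, P.sem step s t → f t = f s := by
  induction P with
  | nil => intro s t hst; have : s = t := hst; rw [this]
  | act a => intro s t hst; exact h a hP s t hst
  | alt P Q ihP ihQ =>
    rintro s t (hst | hst)
    · exact ihP hP.1 s t hst
    · exact ihQ hP.2 s t hst
  | seq P Q ihP ihQ =>
    rintro s t ⟨u, h1, h2⟩
    rw [ihQ hP.2 u t h2, ihP hP.1 s u h1]
  | loop P ih =>
    intro s t hst
    change Relation.ReflTransGen (P.sem step) s t at hst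
    induction hst with
    | refl => rfl
    | tail _ h2 ih2 => rw [ih hP _ _ h2, ih2]

/-- alternation over a list (with the empty program as base) -/
def alts : List (Prg α) → Prg α
  | [] => nil
  | P :: l => alt P (alts l)

lemma sem_alts {σ : Type} (step : α → σ → σ → Prop) (l : List (Prg α)) (s t : σ) :
    (alts l).sem step s t ↔ s = t ∨ ∃ P ∈ l, P.sem step s t := by
  induction l with
  | nil => simp [alts, sem]
  | cons P l ih =>
    simp only [alts, sem, ih, List.mem_cons, exists_eq_or_imp]
    tauto

end Prg

end Pool.Agent.Helper74
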