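import Mathlib
import Pool.Agent.Helper74.Prg

set_option autoImplicit false
set_option linter.unusedSectionVars false
set_option linter.unusedSimpArgs false

namespace Pool.Agent.Helper74

open Function

/-- counter actions -/
inductive Act : Type
  | inc (r : ℕ) : Act
  | dec (r : ℕ) : Act
  | zero (r : ℕ) : Act

/-- semantics of counter actions -/
def astep : Act → (ℕ → ℕ) → (ℕ → ℕ) → Prop
  | Act.inc r => fun s t => t = update s r (s r + 1)
  | Act.dec r => fun s t => 0 < s r ∧ t = update s r (s r - 1)
  | Act.zero r => fun s t => s r = 0 ∧ t = s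

/-- program semantics -/
abbrev Sem (P : Prg Act) (s t : ℕ → ℕ) : Prop := P.sem astep s t

lemma sem_inc (r : ℕ) (s t : ℕ → ℕ) : Sem (Prg.act (Act.inc r)) s t ↔
    t = update s r (s r + 1) := Iff.rfl

lemma sem_dec (r : ℕ) (s t : ℕ → ℕ) : Sem (Prg.act (Act.dec r)) s t ↔
    0 < s r ∧ t = update s r (s r - 1) := Iff.rfl

lemma sem_zero (r : ℕ) (s t : ℕ → ℕ) : Sem (Prg.act (Act.zero r)) s t ↔
    s r = 0 ∧ t = s := Iff.rfl

lemma sem_seq (P Q : Prg Act) (s t : ℕ → ℕ) : Sem (Prg.seq P Q) s t ↔
    ∃ u, Sem P s u ∧ Sem Q u t := Iff.rfl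

/-- `Det P s t`: from `s` the program `P` has exactly the outcome `t`. -/
def Det (P : Prg Act) (s t : ℕ → ℕ) : Prop := ∀ u, Sem P s u ↔ u = t

lemma det_seq {P Q : Prg Act} {s t u : ℕ → ℕ} (h1 : Det P s t) (h2 : Det Q t u) :
    Det (Prg.seq P Q) s u := by
  intro v
  rw [sem_seq]
  constructor
  · rintro ⟨w, h3, h4⟩
    rw [h1] at h3
    subst h3
    exact (h2 v).1 h4
  · rintro rfl
    exact ⟨t, (h1 t).2 rfl, (h2 _).2 rfl⟩

lemma det_inc (r : ℕ) (s : ℕ → ℕ) : Det (Prg.act (Act.inc r)) s (update s r (s r + 1)) :=
  fun _ => sem_inc _ _ _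

lemma det_dec (r : ℕ) (s : ℕ → ℕ) (h : 0 < s r) :
    Det (Prg.act (Act.dec r)) s (update s r (s r - 1)) := by
  intro u
  rw [sem_dec]
  simp [h]

lemma det_zero (r : ℕ) (s : ℕ → ℕ) (h : s r = 0) :
    Det (Prg.act (Act.zero r)) s s := by
  intro u
  rw [sem_zero]
  simp [h]

/-- a while loop: run the body while the register is positive -/
def whl (r : ℕ) (body : Prg Act) : Prg Act :=
  Prg.seq (Prg.loop (Prg.seq (Prg.act (Act.dec r)) body)) (Prg.act (Act.zero r))

lemma det_whl (r : ℕ) (body : Prg Act) (st : ℕ → (ℕ → ℕ)) (N : ℕ)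
    (h0 : ∀ k < N, st k r ≠ 0)
    (h1 : ∀ k < N, Det body (update (st k) r (st k r - 1)) (st (k + 1)))
    (h2 : st N r = 0) : Det (whl r body) (st 0) (st N) := by
  intro t
  have hb : ∀ k < N, Det (Prg.seq (Prg.act (Act.dec r)) body) (st k) (st (k + 1)) :=
    fun k hk => det_seq (det_dec r _ (Nat.pos_of_ne_zero (h0 k hk))) (h1 k hk)
  have hreach : ∀ u, Relation.ReflTransGen
      (Sem (Prg.seq (Prg.act (Act.dec r)) body)) (st 0) u → ∃ k ≤ N, u = st k := by
    intro u hu
    induction hu with
    | refl => exact ⟨0, Nat.zero_le _, rfl⟩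
    | tail _ h ih =>
      obtain ⟨k, hk, rfl⟩ := ih
      rcases Nat.lt_or_ge k N with hlt | hge
      · exact ⟨k + 1, hlt, (hb k hlt _).1 h⟩
      · have : k = N := by omega
        subst this
        obtain ⟨v, hv, -⟩ := h
        obtain ⟨hpos, -⟩ := hv
        omega
  constructor
  · rintro ⟨u, hu, hz, htu⟩
    obtain ⟨k, hk, rfl⟩ := hreach u hu
    rw [htu]
    rcases Nat.lt_or_ge k N with hlt | hge
    · exact absurd hz (h0 k hlt)
    · have : k = N := by omega
      rw [this]
  · rintro rfl
    refine ⟨st N, ?_, h2, rfl⟩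
    have : ∀ k ≤ N, Relation.ReflTransGen
        (Sem (Prg.seq (Prg.act (Act.dec r)) body)) (st 0) (st k) := by
      intro k
      induction k with
      | zero => intro _; exact Relation.ReflTransGen.refl
      | succ k ih =>
        intro hk
        exact (ih (by omega)).tail ((hb k (by omega) _).2 rfl)
    exact this N le_rfl

/-- clear a register -/
def clr (r : ℕ) : Prg Act := whl r Prg.nil

lemma det_nil (s : ℕ → ℕ) : Det Prg.nil s s := by
  intro u
  exact eq_comm

lemma det_clr (r : ℕ) (s : ℕ → ℕ) : Det (clr r) s (update s r 0) := by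
  have := det_whl r Prg.nil (fun k => update s r (s r - k)) (s r)
    (by intro k hk; simp; omega)
    (by
      intro k hk
      simp only [update_self, update_idem]
      have : s r - k - 1 = s r - (k + 1) := by omega
      rw [this]
      exact det_nil _)
    (by simp)
  unfold clr
  simpa using this

lemma Det.congr {P : Prg Act} {s t t' : ℕ → ℕ} (h : Det P s t) (e : t = t') : Det P s t' := e ▸ h

lemma Det.congr_left {P : Prg Act} {s s' t : ℕ → ℕ} (h : Det P s t) (e : s = s') :
    Det P s' t := e ▸ h

/-- move the contents of `r` to `q` -/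
def mov (r q : ℕ) : Prg Act := whl r (Prg.act (Act.inc q))

lemma det_mov (r q : ℕ) (hrq : r ≠ q) (s : ℕ → ℕ) :
    Det (mov r q) s (update (update s q (s q + s r)) r 0) := by
  have := det_whl r (Prg.act (Act.inc q))
    (fun k => update (update s q (s q + k)) r (s r - k)) (s r)
    (by intro k hk; simp; omega)
    (by
      intro k hk
      refine (det_inc q _).congr ?_
      funext j
      by_cases h1 : j = q
      · subst h1
        simp [Ne.symm hrq]
        omega
      · by_cases h2 : j = r
        · subst h2
          simp [h1]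
          omega
        · simp [h1, h2])
    (by simp)
  unfold mov
  simpa using this

/-- add the contents of `r` to `q`, using the scratch register `u` -/
def cpy (r q u : ℕ) : Prg Act :=
  Prg.seq (whl r (Prg.seq (Prg.act (Act.inc q)) (Prg.act (Act.inc u)))) (mov u r)

lemma det_cpy (r q u : ℕ) (hrq : r ≠ q) (hru : r ≠ u) (hqu : q ≠ u) (s : ℕ → ℕ)
    (hu : s u = 0) : Det (cpy r q u) s (update s q (s q + s r)) := by
  have h1 := det_whl r (Prg.seq (Prg.act (Act.inc q)) (Prg.act (Act.inc u)))
    (fun k => update (update (update s q (s q + k)) u k) r (s r - k)) (s r)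
    (by intro k hk; simp; omega)
    (by
      intro k hk
      refine (det_seq (det_inc q _) (det_inc u _)).congr ?_
      funext j
      by_cases h1 : j = q
      · subst h1
        simp [Ne.symm hrq, hqu]
        omega
      · by_cases h2 : j = r
        · subst h2
          simp [h1, hru]
          omega
        · by_cases h3 : j = u
          · subst h3
            simp [Ne.symm hqu, h2]
          · simp [h1, h2, h3])
    (by simp)
  have h1' := h1.congr_left (s' := s) (by
    funext j
    by_cases h1 : j = q
    · subst h1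
      simp [Ne.symm hrq, hqu]
    · by_cases h2 : j = r
      · subst h2
        simp
      · by_cases h3 : j = u
        · subst h3
          simp [h2, hu]
        · simp [h2, h3])
  refine (det_seq h1' (det_mov u r (Ne.symm hru) _)).congr ?_
  funext j
  by_cases h1 : j = q
  · subst h1
    simp [Ne.symm hrq, hqu]
  · by_cases h2 : j = r
    · subst h2
      simp [hrq, hru, Ne.symm hru]
    · by_cases h3 : j = u
      · subst h3
        simp [Ne.symm hqu, hu]
      · simp [h1, h2, h3]

/-- `f` is computed by counter programs, for every choice of input and output registers. -/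
def CompF {n : ℕ} (f : List.Vector ℕ n →. ℕ) : Prop :=
  ∀ (ins : Fin n → ℕ) (out b : ℕ), (∀ i, ins i < b) → out < b → (∀ i, ins i ≠ out) →
    ∃ P : Prg Act, ∀ s : ℕ → ℕ, (∀ j, b ≤ j → s j = 0) → ∀ t,
      (Sem P s t ↔ ∃ y ∈ f (List.Vector.ofFn (fun i => s (ins i))), t = update s out (s out + y))

lemma compF_total {n : ℕ} {f : List.Vector ℕ n → ℕ} :
    CompF (fun v => Part.some (f v)) ↔
    ∀ (ins : Fin n → ℕ) (out b : ℕ), (∀ i, ins i < b) → out < b → (∀ i, ins i ≠ out) →
    ∃ P : Prg Act, ∀ s : ℕ → ℕ, (∀ j, b ≤ j → s j = 0) →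
      Det P s (update s out (s out + f (List.Vector.ofFn (fun i => s (ins i))))) := by
  unfold CompF Det
  simp [Part.mem_some_iff]

lemma CompF.of_eq {n : ℕ} {f g : List.Vector ℕ n →. ℕ} (hf : CompF f) (h : ∀ v, f v = g v) :
    CompF g := by
  have : f = g := funext h
  exact this ▸ hf

lemma compF_zero : CompF (fun _ : List.Vector ℕ 0 => Part.some 0) := by
  rw [compF_total]
  intro ins out b _ _ _
  refine ⟨Prg.nil, fun s _ => (det_nil s).congr ?_⟩
  simp

lemma compF_succ : CompF (fun v : List.Vector ℕ 1 => Part.some (Nat.succ v.head)) := by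
  rw [compF_total]
  intro ins out b hins hout hne
  refine ⟨Prg.seq (cpy (ins 0) out b) (Prg.act (Act.inc out)), fun s hs => ?_⟩
  have h0 := hins 0
  refine (det_seq (det_cpy (ins 0) out b (hne 0) (by omega) (by omega) s (hs b le_rfl))
    (det_inc out _)).congr ?_
  funext j
  by_cases h : j = out
  · subst h
    simp [List.Vector.ofFn, List.Vector.head]
    omega
  · simp [h]

lemma compF_get {n : ℕ} (i : Fin n) : CompF (fun v : List.Vector ℕ n => Part.some (v.get i)) := by
  rw [compF_total]
  intro ins out b hins hout hne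
  refine ⟨cpy (ins i) out b, fun s hs => ?_⟩
  have h0 := hins i
  refine (det_cpy (ins i) out b (hne i) (by omega) (by omega) s (hs b le_rfl)).congr ?_
  simp

lemma mem_mOfFn {n : ℕ} (g : Fin n → Part ℕ) (w : List.Vector ℕ n) :
    w ∈ (List.Vector.mOfFn g : Part (List.Vector ℕ n)) ↔ ∀ i, w.get i ∈ g i := by
  induction n with
  | zero =>
    constructor
    · intro _ i
      exact i.elim0
    · intro _
      show w ∈ Part.some _
      rw [Part.mem_some_iff]
      exact Subsingleton.elim _ _
  | succ n ih =>
    unfold List.Vector.mOfFn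
    simp only [Part.bind_eq_bind, Part.mem_bind_iff, Part.pure_eq_some, Part.mem_some_iff]
    constructor
    · rintro ⟨a, ha, w', hw', rfl⟩ i
      rw [ih] at hw'
      refine Fin.cases ?_ ?_ i
      · simpa using ha
      · intro j
        simpa using hw' j
    · intro h
      refine ⟨w.head, by simpa using h 0, w.tail, ?_, by simp⟩
      rw [ih]
      intro j
      simpa using h j.succ

/-- clear `n` consecutive registers -/
lemma clr_range (b n : ℕ) : ∃ P : Prg Act, ∀ s : ℕ → ℕ,
    Det P s (fun j => if b ≤ j ∧ j < b + n then 0 else s j) := by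
  induction n with
  | zero =>
    refine ⟨Prg.nil, fun s => (det_nil s).congr ?_⟩
    funext j
    rw [if_neg (by omega)]
  | succ n ih =>
    obtain ⟨P, hP⟩ := ih
    refine ⟨Prg.seq P (clr (b + n)), fun s => (det_seq (hP s) (det_clr (b + n) _)).congr ?_⟩
    funext j
    by_cases h1 : j = b + n
    · subst h1
      simp
    · rw [update_of_ne h1]
      by_cases h2 : b ≤ j ∧ j < b + n
      · rw [if_pos h2, if_pos (by omega)]
      · rw [if_neg h2, if_neg (by omega)]

/-- evaluate `n` functions into consecutive registers -/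
lemma eval_range {m n : ℕ} (g : Fin n → (List.Vector ℕ m →. ℕ)) (hg : ∀ i, CompF (g i))
    (ins : Fin m → ℕ) (b : ℕ) (hins : ∀ i, ins i < b) (k : ℕ) (hk : k ≤ n) :
    ∃ P : Prg Act, ∀ s : ℕ → ℕ, (∀ j, b ≤ j → s j = 0) → ∀ t,
      (Sem P s t ↔ ∃ ys : ℕ → ℕ, (∀ i (hi : i < n), i < k →
          ys i ∈ g ⟨i, hi⟩ (List.Vector.ofFn (fun i => s (ins i)))) ∧
        t = fun j => if b ≤ j ∧ j < b + k then ys (j - b) else s j) := by
  induction k with
  | zero =>
    refine ⟨Prg.nil, fun s _ t => ?_⟩
    constructor
    · intro h
      refine ⟨fun _ => 0, fun i _ h => by omega, ?_⟩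
      have : s = t := h
      rw [← this]
      funext j
      rw [if_neg (by omega)]
    · rintro ⟨ys, -, rfl⟩
      show s = _
      funext j
      rw [if_neg (by omega)]
  | succ k ih =>
    obtain ⟨P, hP⟩ := ih (by omega)
    obtain ⟨Q, hQ⟩ := hg ⟨k, by omega⟩ ins (b + k) (b + n) (fun i => by have := hins i; omega)
      (by omega) (fun i => by have := hins i; omega)
    refine ⟨Prg.seq P Q, fun s hs t => ?_⟩
    rw [sem_seq]
    have hv : ∀ ys : ℕ → ℕ, List.Vector.ofFn (fun i =>
        (fun j => if b ≤ j ∧ j < b + k then ys (j - b) else s j) (ins i)) =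
        List.Vector.ofFn (fun i => s (ins i)) := by
      intro ys
      congr 1
      funext i
      have := hins i
      simp only
      rw [if_neg (by omega)]
    have hz : ∀ ys : ℕ → ℕ, ∀ j, b + n ≤ j →
        (fun j => if b ≤ j ∧ j < b + k then ys (j - b) else s j) j = 0 := by
      intro ys j hj
      simp only
      rw [if_neg (by omega)]
      exact hs j (by omega)
    constructor
    · rintro ⟨u, hu, ht⟩
      rw [hP s hs] at hu
      obtain ⟨ys, hys, rfl⟩ := hu
      rw [hQ _ (hz ys), hv ys] at ht
      obtain ⟨y, hy, rfl⟩ := ht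
      refine ⟨update ys k y, ?_, ?_⟩
      · intro i hi hik
        by_cases h : i = k
        · subst h
          simpa using hy
        · rw [update_of_ne h]
          exact hys i hi (by omega)
      · funext j
        by_cases h1 : j = b + k
        · subst h1
          rw [update_self, if_neg (by omega), if_pos (by omega), hs _ (by omega)]
          simp
        · rw [update_of_ne h1]
          by_cases h2 : b ≤ j ∧ j < b + k
          · rw [if_pos h2, if_pos (by omega), update_of_ne (by omega)]
          · rw [if_neg h2, if_neg (by omega)]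
    · rintro ⟨ys, hys, rfl⟩
      refine ⟨_, (hP s hs _).2 ⟨ys, fun i hi hik => hys i hi (by omega), rfl⟩, ?_⟩
      rw [hQ _ (hz ys), hv ys]
      refine ⟨ys k, hys k (by omega) (by omega), ?_⟩
      funext j
      by_cases h1 : j = b + k
      · subst h1
        rw [update_self, if_pos (by omega), if_neg (by omega), hs _ (by omega)]
        simp
      · rw [update_of_ne h1]
        by_cases h2 : b ≤ j ∧ j < b + k
        · rw [if_pos (by omega), if_pos h2]
        · rw [if_neg (by omega), if_neg h2]

lemma compF_comp {m n : ℕ} {f : List.Vector ℕ n →. ℕ} (hf : CompF f)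
    (g : Fin n → (List.Vector ℕ m →. ℕ)) (hg : ∀ i, CompF (g i)) :
    CompF (fun v => (List.Vector.mOfFn fun i => g i v) >>= f) := by
  intro ins out b hins hout hne
  obtain ⟨P, hP⟩ := eval_range g hg ins b hins n le_rfl
  obtain ⟨Q, hQ⟩ := hf (fun i => b + i.val) out (b + n) (fun i => by omega) (by omega)
    (fun i => by omega)
  obtain ⟨C, hC⟩ := clr_range b n
  refine ⟨Prg.seq P (Prg.seq Q C), fun s hs t => ?_⟩
  rw [sem_seq]
  have hz : ∀ ys : ℕ → ℕ, ∀ j, b + n ≤ j →
      (fun j => if b ≤ j ∧ j < b + n then ys (j - b) else s j) j = 0 := by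
    intro ys j hj
    simp only
    rw [if_neg (by omega)]
    exact hs j (by omega)
  have hv : ∀ ys : ℕ → ℕ, List.Vector.ofFn (fun i : Fin n =>
      (fun j => if b ≤ j ∧ j < b + n then ys (j - b) else s j) (b + i.val)) =
      List.Vector.ofFn (fun i : Fin n => ys i.val) := by
    intro ys
    congr 1
    funext i
    have := i.isLt
    simp only
    rw [if_pos (by omega)]
    congr 1
    omega
  have hfinal : ∀ (ys : ℕ → ℕ) (y : ℕ),
      (fun j => if b ≤ j ∧ j < b + n then 0 else
        update (fun j => if b ≤ j ∧ j < b + n then ys (j - b) else s j) out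
          ((fun j => if b ≤ j ∧ j < b + n then ys (j - b) else s j) out + y) j) =
      update s out (s out + y) := by
    intro ys y
    funext j
    by_cases h1 : j = out
    · subst h1
      rw [if_neg (by omega), update_self, update_self]
      beta_reduce
      rw [if_neg (by omega)]
    · by_cases h2 : b ≤ j ∧ j < b + n
      · rw [if_pos h2, update_of_ne h1, hs j h2.1]
      · rw [if_neg h2, update_of_ne h1, update_of_ne h1, if_neg h2]
  constructor
  · rintro ⟨u, hu, w, hw, ht⟩
    rw [hP s hs] at hu
    obtain ⟨ys, hys, rfl⟩ := hu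
    change Sem Q _ _ at hw
    rw [hQ _ (hz ys), hv ys] at hw
    obtain ⟨y, hy, rfl⟩ := hw
    change Sem C _ _ at ht
    rw [hC, hfinal ys y] at ht
    refine ⟨y, ?_, ht⟩
    refine Part.mem_bind_iff.2 ⟨List.Vector.ofFn (fun i : Fin n => ys i.val), ?_, hy⟩
    rw [mem_mOfFn]
    intro i
    simpa using hys i.val i.isLt i.isLt
  · rintro ⟨y, hy, rfl⟩
    obtain ⟨w, hw, hy⟩ := Part.mem_bind_iff.1 hy
    rw [mem_mOfFn] at hw
    let ys : ℕ → ℕ := fun i => if h : i < n then w.get ⟨i, h⟩ else 0
    have hw' : List.Vector.ofFn (fun i : Fin n => ys i.val) = w := by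
      apply List.Vector.ext
      intro i
      simp [ys]
    refine ⟨_, (hP s hs _).2 ⟨ys, ?_, rfl⟩, _, (hQ _ (hz ys) _).2 ⟨y, ?_, rfl⟩, ?_⟩
    · intro i hi _
      have : ys i = w.get ⟨i, hi⟩ := by simp [ys, hi]
      rw [this]
      exact hw ⟨i, hi⟩
    · rw [hv ys, hw']
      exact hy
    · change Sem C _ _
      rw [hC, hfinal ys y]

lemma compF_prec {n : ℕ} {f : List.Vector ℕ n → ℕ} {g : List.Vector ℕ (n + 2) → ℕ}
    (hf : CompF (fun v => Part.some (f v))) (hg : CompF (fun v => Part.some (g v))) :
    CompF (fun v : List.Vector ℕ (n + 1) => Part.some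
      (v.head.rec (f v.tail) fun y IH => g (y ::ᵥ IH ::ᵥ v.tail) : ℕ)) := by
  rw [compF_total] at hf hg ⊢
  intro ins out b hins hout hne
  -- b : counter, b+1 : accumulator, b+2 : temporary, b+3 : remaining
  obtain ⟨P, hP⟩ := hf (fun i => ins i.succ) (b + 1) (b + 4)
    (fun i => by have := hins i.succ; omega) (by omega) (fun i => by have := hins i.succ; omega)
  obtain ⟨Q, hQ⟩ := hg (fun i => if i.val = 0 then b else if i.val = 1 then b + 1 else
      ins (Fin.ofNat (n + 1) (i.val - 1))) (b + 2) (b + 4)
    (fun i => by
      have := hins (Fin.ofNat (n + 1) (i.val - 1))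
      split_ifs <;> omega) (by omega)
    (fun i => by
      have := hins (Fin.ofNat (n + 1) (i.val - 1))
      split_ifs <;> omega)
  refine ⟨Prg.seq (cpy (ins 0) (b + 3) (b + 4)) (Prg.seq P (Prg.seq
    (whl (b + 3) (Prg.seq Q (Prg.seq (clr (b + 1)) (Prg.seq (mov (b + 2) (b + 1))
      (Prg.act (Act.inc b)))))) (Prg.seq (mov (b + 1) out) (clr b)))), fun s hs => ?_⟩
  have h0 := hins 0
  set N := s (ins 0) with hN
  set tl := List.Vector.ofFn (fun i => s (ins (Fin.succ i))) with htl
  let F : ℕ → ℕ := fun k => Nat.rec (f tl) (fun y IH => g (y ::ᵥ IH ::ᵥ tl)) k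
  let st : ℕ → (ℕ → ℕ) := fun k j => if j = b then k else if j = b + 1 then F k else
    if j = b + 3 then N - k else s j
  have hF0 : F 0 = f tl := rfl
  have hFs : ∀ k, F (k + 1) = g (k ::ᵥ F k ::ᵥ tl) := fun k => rfl
  have h1 : Det (cpy (ins 0) (b + 3) (b + 4)) s (update s (b + 3) N) := by
    refine (det_cpy (ins 0) (b + 3) (b + 4) (by omega) (by omega) (by omega) s
      (hs _ (by omega))).congr ?_
    rw [hs (b + 3) (by omega), zero_add]
  have h2 : Det P (update s (b + 3) N) (st 0) := by
    refine (hP (update s (b + 3) N) ?_).congr ?_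
    · intro j hj
      rw [update_of_ne (by omega)]
      exact hs j (by omega)
    · have e : List.Vector.ofFn (fun i => update s (b + 3) N (ins (Fin.succ i))) = tl := by
        rw [htl]
        congr 1
        funext i
        have := hins i.succ
        rw [update_of_ne (by omega)]
      rw [e]
      funext j
      simp only [st]
      by_cases hj1 : j = b + 1
      · subst hj1
        rw [update_self, update_of_ne (by omega), hs (b + 1) (by omega), if_neg (by omega),
          if_pos rfl, hF0, zero_add]
      · rw [update_of_ne hj1]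
        by_cases hj2 : j = b + 3
        · subst hj2
          rw [update_self, if_neg (by omega), if_neg (by omega), if_pos rfl, Nat.sub_zero]
        · rw [update_of_ne hj2]
          by_cases hj3 : j = b
          · subst hj3
            rw [if_pos rfl, hs _ le_rfl]
          · rw [if_neg hj3, if_neg hj1, if_neg hj2]
  have hzero : ∀ k j, b + 4 ≤ j → st k j = 0 := by
    intro k j hj
    simp only [st]
    rw [if_neg (by omega), if_neg (by omega), if_neg (by omega)]
    exact hs j (by omega)
  have h3 : Det (whl (b + 3) (Prg.seq Q (Prg.seq (clr (b + 1)) (Prg.seq (mov (b + 2) (b + 1))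
      (Prg.act (Act.inc b)))))) (st 0) (st N) := by
    refine det_whl _ _ st N ?_ ?_ ?_
    · intro k hk
      simp only [st]
      rw [if_neg (by omega), if_neg (by omega), if_pos (by trivial)]
      omega
    · intro k hk
      have e1 : st k (b + 3) = N - k := by
        simp only [st]
        rw [if_neg (by omega), if_neg (by omega), if_pos (by trivial)]
      set u := update (st k) (b + 3) (st k (b + 3) - 1) with hu
      have hu1 : ∀ j, j ≠ b + 3 → u j = st k j := fun j hj => by
        rw [hu, update_of_ne hj]
      have hu2 : u (b + 3) = N - (k + 1) := by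
        rw [hu, update_self, e1]
        omega
      have d1 := hQ u (fun j hj => by rw [hu1 j (by omega)]; exact hzero k j hj)
      have e2 : List.Vector.ofFn (fun i : Fin (n + 2) =>
          u (if i.val = 0 then b else if i.val = 1 then b + 1 else
            ins (Fin.ofNat (n + 1) (i.val - 1)))) = k ::ᵥ F k ::ᵥ tl := by
        apply List.Vector.ext
        intro i
        rw [List.Vector.get_ofFn]
        refine Fin.cases ?_ (fun i => ?_) i
        · simp only [Fin.val_zero, if_true, List.Vector.get_zero, List.Vector.head_cons]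
          rw [hu1 b (by omega)]
          simp [st]
        · refine Fin.cases ?_ (fun i => ?_) i
          · simp only [Fin.succ_zero_eq_one, Fin.val_one, one_ne_zero, if_false, if_true]
            rw [hu1 (b + 1) (by omega)]
            have : (k ::ᵥ F k ::ᵥ tl).get 1 = F k := rfl
            rw [this]
            simp [st]
          · have hi1 : (i.succ.succ : Fin (n + 2)).val = i.val + 2 := rfl
            rw [if_neg (by omega), if_neg (by omega)]
            have e3 : Fin.ofNat (n + 1) ((i.succ.succ : Fin (n + 2)).val - 1) = i.succ := by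
              apply Fin.ext
              have := i.isLt
              simp only [Fin.ofNat, hi1, Fin.val_succ]
              rw [Nat.mod_eq_of_lt (by omega)]
              omega
            have hlt := hins i.succ
            rw [e3, hu1 _ (by omega), List.Vector.get_cons_succ, List.Vector.get_cons_succ, htl,
              List.Vector.get_ofFn]
            simp only [st]
            rw [if_neg (by omega), if_neg (by omega), if_neg (by omega)]
      have e4 : u (b + 2) = 0 := by
        rw [hu1 _ (by omega)]
        simp only [st]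
        rw [if_neg (by omega), if_neg (by omega), if_neg (by omega)]
        exact hs _ (by omega)
      have d1' : Det Q u (update u (b + 2) (F (k + 1))) := by
        refine d1.congr ?_
        rw [e2, e4, zero_add, hFs]
      refine (det_seq d1' (det_seq (det_clr (b + 1) _) (det_seq
        (det_mov (b + 2) (b + 1) (by omega) _) (det_inc b _)))).congr ?_
      funext j
      by_cases hj1 : j = b
      · subst hj1
        simp only [update_apply, st]
        simp only [hu1 j (by omega), st]
        simp
      · by_cases hj2 : j = b + 1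
        · subst hj2
          simp [update_apply, st]
        · by_cases hj3 : j = b + 2
          · subst hj3
            simp [update_apply, st]
            exact (hs _ (by omega)).symm
          · by_cases hj4 : j = b + 3
            · subst hj4
              simp [update_apply, st]
              exact hu2
            · simp [update_apply, hj1, hj2, hj3, st, hj4]
              rw [hu1 j hj4]
              simp [st, hj1, hj2, hj4]
    · simp only [st]
      rw [if_neg (by omega), if_neg (by omega), if_pos (by trivial), Nat.sub_self]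
  refine (det_seq h1 (det_seq h2 (det_seq h3 (det_seq (det_mov (b + 1) out (by omega) _)
    (det_clr b _))))).congr ?_
  have e5 : (Nat.rec (f (List.Vector.ofFn fun i => s (ins i)).tail)
      (fun y IH => g (y ::ᵥ IH ::ᵥ (List.Vector.ofFn fun i => s (ins i)).tail))
      (List.Vector.ofFn fun i => s (ins i)).head : ℕ) = F N := by
    have t1 : (List.Vector.ofFn fun i => s (ins i)).tail = tl := by
      rw [htl]
      apply List.Vector.ext
      intro i
      simp
    have t2 : (List.Vector.ofFn fun i => s (ins i)).head = N := by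
      rw [hN, ← List.Vector.get_zero, List.Vector.get_ofFn]
    rw [t1, t2]
  rw [e5]
  funext j
  by_cases hj1 : j = out
  · subst hj1
    have a1 : j ≠ b := by omega
    have a2 : j ≠ b + 1 := by omega
    have a3 : j ≠ b + 3 := by omega
    simp [update_apply, st, a1, a2, a3]
  · by_cases hj2 : j = b
    · subst hj2
      simp [update_apply, hj1]
      exact (hs _ le_rfl).symm
    · by_cases hj3 : j = b + 1
      · subst hj3
        simp [update_apply, hj1]
        exact (hs _ (by omega)).symm
      · by_cases hj4 : j = b + 3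
        · subst hj4
          simp [update_apply, hj1, st]
          exact (hs _ (by omega)).symm
        · simp [update_apply, hj1, hj2, hj3, hj4, st]

lemma compF_rfind {n : ℕ} {f : List.Vector ℕ (n + 1) → ℕ}
    (hf : CompF (fun v => Part.some (f v))) :
    CompF (fun v : List.Vector ℕ n =>
      Nat.rfind fun k => Part.some (decide (f (k ::ᵥ v) = 0))) := by
  rw [compF_total] at hf
  intro ins out b hins hout hne
  obtain ⟨P, hP⟩ := hf (Fin.cons b ins) (b + 1) (b + 2)
    (fun i => by
      refine Fin.cases ?_ (fun i => ?_) i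
      · simp
      · have := hins i
        simp; omega)
    (by omega)
    (fun i => by
      refine Fin.cases ?_ (fun i => ?_) i
      · simp
      · have := hins i
        simp; omega)
  let body : Prg Act := Prg.seq P (Prg.seq (Prg.act (Act.dec (b + 1)))
    (Prg.seq (clr (b + 1)) (Prg.act (Act.inc b))))
  refine ⟨Prg.seq (Prg.loop body) (Prg.seq P (Prg.seq (Prg.act (Act.zero (b + 1)))
    (mov b out))), fun s hs t => ?_⟩
  set v := List.Vector.ofFn (fun i => s (ins i)) with hv
  let st : ℕ → (ℕ → ℕ) := fun k => update s b k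
  have hP' : ∀ k, Det P (st k) (update (st k) (b + 1) (f (k ::ᵥ v))) := by
    intro k
    refine (hP (st k) ?_).congr ?_
    · intro j hj
      simp only [st]
      rw [update_of_ne (by omega)]
      exact hs j (by omega)
    · have e1 : st k (b + 1) = 0 := by
        simp only [st]
        rw [update_of_ne (by omega)]
        exact hs _ (by omega)
      have e2 : List.Vector.ofFn (fun i => st k ((Fin.cons b ins : Fin (n + 1) → ℕ) i)) =
          k ::ᵥ v := by
        apply List.Vector.ext
        intro i
        rw [List.Vector.get_ofFn]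
        refine Fin.cases ?_ (fun i => ?_) i
        · simp [st]
        · rw [List.Vector.get_cons_succ, hv, List.Vector.get_ofFn, Fin.cons_succ]
          have := hins i
          simp only [st]
          rw [update_of_ne (by omega)]
      rw [e1, e2, zero_add]
  have hbody : ∀ k u, Sem body (st k) u ↔ f (k ::ᵥ v) ≠ 0 ∧ u = st (k + 1) := by
    intro k u
    have hfin : ∀ x, 0 < f (k ::ᵥ v) → (Sem (Prg.seq (Prg.act (Act.dec (b + 1)))
        (Prg.seq (clr (b + 1)) (Prg.act (Act.inc b))))
        (update (st k) (b + 1) (f (k ::ᵥ v))) x ↔ x = st (k + 1)) := by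
      intro x hx
      have := (det_seq (det_dec (b + 1) (update (st k) (b + 1) (f (k ::ᵥ v))) (by simpa using hx))
        (det_seq (det_clr (b + 1) _) (det_inc b _))) x
      rw [this]
      have e : update (update (update (update (st k) (b + 1) (f (k ::ᵥ v))) (b + 1)
          (update (st k) (b + 1) (f (k ::ᵥ v)) (b + 1) - 1)) (b + 1) 0) b
          (update (update (update (st k) (b + 1) (f (k ::ᵥ v))) (b + 1)
          (update (st k) (b + 1) (f (k ::ᵥ v)) (b + 1) - 1)) (b + 1) 0 b + 1) = st (k + 1) := by
        funext j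
        by_cases h1 : j = b
        · subst h1
          simp [st]
        · by_cases h2 : j = b + 1
          · subst h2
            simp [st]
            exact (hs _ (by omega)).symm
          · simp [h1, h2, st]
      rw [e]
    constructor
    · rintro ⟨x, hx, y, ⟨hpos, rfl⟩, hrest⟩
      have hx' := (hP' k x).1 hx
      subst hx'
      rw [update_self] at hpos
      refine ⟨by omega, (hfin u hpos).1 ⟨_, ⟨by simpa using hpos, rfl⟩, hrest⟩⟩
    · rintro ⟨hpos, rfl⟩
      exact ⟨_, (hP' k _).2 rfl, (hfin _ (Nat.pos_of_ne_zero hpos)).2 rfl⟩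
  have hreach : ∀ u, Sem (Prg.loop body) (st 0) u ↔
      ∃ k, (∀ j < k, f (j ::ᵥ v) ≠ 0) ∧ u = st k := by
    intro u
    constructor
    · intro h
      change Relation.ReflTransGen (Sem body) (st 0) u at h
      induction h with
      | refl => exact ⟨0, by simp, rfl⟩
      | tail _ h ih =>
        obtain ⟨k, hk, rfl⟩ := ih
        obtain ⟨h1, h2⟩ := (hbody k _).1 h
        refine ⟨k + 1, fun j hj => ?_, h2⟩
        rcases Nat.lt_succ_iff_lt_or_eq.1 hj with h | rfl
        · exact hk j h
        · exact h1
    · rintro ⟨k, hk, rfl⟩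
      change Relation.ReflTransGen (Sem body) (st 0) (st k)
      induction k with
      | zero => exact Relation.ReflTransGen.refl
      | succ k ih =>
        exact (ih (fun j hj => hk j (by omega))).tail ((hbody k _).2 ⟨hk k (by omega), rfl⟩)
  have hst0 : s = st 0 := by
    simp only [st]
    funext j
    by_cases h : j = b
    · subst h; rw [update_self, hs _ le_rfl]
    · rw [update_of_ne h]
  have hend : ∀ k x, f (k ::ᵥ v) = 0 → (Sem (mov b out) (update (st k) (b + 1) (f (k ::ᵥ v))) x ↔
      x = update s out (s out + k)) := by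
    intro k x hk
    rw [det_mov b out (by omega) _ x]
    have e : update (update (update (st k) (b + 1) (f (k ::ᵥ v))) out
        (update (st k) (b + 1) (f (k ::ᵥ v)) out + update (st k) (b + 1) (f (k ::ᵥ v)) b)) b 0 =
        update s out (s out + k) := by
      funext j
      by_cases h1 : j = out
      · subst h1
        have a1 : j ≠ b := by omega
        have a2 : j ≠ b + 1 := by omega
        simp [a1, a2, st]
      · by_cases h2 : j = b
        · subst h2
          simp [h1]
          exact (hs _ le_rfl).symm
        · by_cases h3 : j = b + 1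
          · subst h3
            simp [h1, hk]
            exact (hs _ (by omega)).symm
          · simp [h1, h2, h3, st]
    rw [e]
  constructor
  · rintro ⟨u, hu, w, hw, x, ⟨hz, hxw⟩, hm⟩
    rw [hst0] at hu
    obtain ⟨k, hk, rfl⟩ := (hreach u).1 hu
    have hw' := (hP' k w).1 hw
    rw [hxw, hw'] at hm
    rw [hw', update_self] at hz
    refine ⟨k, Nat.mem_rfind.2 ⟨by simp [hz], fun {m} hm => ?_⟩, (hend k t hz).1 hm⟩
    have := hk m hm
    simp [this]
  · rintro ⟨k, hk, rfl⟩
    obtain ⟨h1, h2⟩ := Nat.mem_rfind.1 hk
    have hz : f (k ::ᵥ v) = 0 := by simpa using h1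
    refine ⟨st k, ?_, _, (hP' k _).2 rfl, _, ⟨by simpa using hz, rfl⟩, (hend k _ hz).2 rfl⟩
    rw [hst0]
    refine (hreach _).2 ⟨k, fun j hj => ?_, rfl⟩
    have := h2 hj
    simpa using this

lemma compF_primrec {n : ℕ} {f : List.Vector ℕ n → ℕ} (hf : Nat.Primrec' f) :
    CompF (fun v => Part.some (f v)) := by
  induction hf with
  | zero => exact compF_zero
  | succ => exact compF_succ
  | get i => exact compF_get i
  | comp g _ _ ihf ihg =>
    refine (compF_comp ihf (fun i v => Part.some (g i v)) ihg).of_eq ?_
    intro v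
    simp [Vector.mOfFn_part_some]
  | prec _ _ ihf ihg => exact compF_prec ihf ihg

lemma compF_partrec {n : ℕ} {f : List.Vector ℕ n →. ℕ} (hf : Nat.Partrec' f) : CompF f := by
  induction hf with
  | prim h => exact compF_primrec h
  | comp g _ _ ihf ihg => exact compF_comp ihf g ihg
  | rfind _ ih => exact compF_rfind ih

/-- Every r.e. set is accepted by a counter program. -/
theorem exists_prg (S : Set ℕ) (hS : Partrec (fun n : ℕ => Part.assert (n ∈ S)
    (fun _ => Part.some ()))) :
    ∃ P : Prg Act, ∀ n, n ∈ S ↔ ∃ t, Sem P (update 0 0 n) t := by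
  have h1 : Partrec (fun n : ℕ => (Part.assert (n ∈ S) (fun _ => Part.some ())).map
      (fun _ => 0)) :=
    hS.map ((Computable.const 0).to₂)
  have h2 := Nat.Partrec'.part_iff₁.2 h1
  obtain ⟨P, hP⟩ := compF_partrec h2 (fun _ => 0) 1 2 (by simp) (by simp) (by simp)
  refine ⟨P, fun n => ?_⟩
  have hz : ∀ j, 2 ≤ j → update (0 : ℕ → ℕ) 0 n j = 0 := by
    intro j hj
    rw [update_of_ne (by omega)]
    rfl
  have hh : (List.Vector.ofFn (fun _ : Fin 1 => update (0 : ℕ → ℕ) 0 n 0)).head = n := by
    rw [← List.Vector.get_zero, List.Vector.get_ofFn, update_self]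
  constructor
  · intro hn
    refine ⟨_, (hP _ hz _).2 ⟨0, ?_, rfl⟩⟩
    change 0 ∈ Part.map (fun _ => 0) (Part.assert ((List.Vector.ofFn
      (fun _ : Fin 1 => update (0 : ℕ → ℕ) 0 n 0)).head ∈ S) fun _ => Part.some ())
    rw [hh]
    simp [hn]
  · rintro ⟨t, ht⟩
    obtain ⟨y, hy, -⟩ := (hP _ hz t).1 ht
    change y ∈ Part.map (fun _ => 0) (Part.assert ((List.Vector.ofFn
      (fun _ : Fin 1 => update (0 : ℕ → ℕ) 0 n 0)).head ∈ S) fun _ => Part.some ()) at hy
    rw [hh] at hy
    rw [Part.mem_map_iff] at hy
    obtain ⟨a, ha, -⟩ := hy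
    rw [Part.mem_assert_iff] at ha
    exact ha.1

end Pool.Agent.Helper74
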