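import Mathlib

set_option autoImplicit false
set_option linter.unusedSectionVars false

namespace Pool.Agent.Helper74

open Multiset

/-- A rule of a one-region system: optional catalyst, left object, right-hand side with targets. -/
abbrev RuleT (A : Type) := Option A × A × Multiset (A × Fin 3)

section general

variable {A : Type} [DecidableEq A]

/-- Applicability of a multiset of rules. -/
def App (R : Set (RuleT A)) (X : Multiset A) (U : Multiset (RuleT A)) : Prop :=
  (∀ ρ ∈ U, ρ ∈ R ∧ ∀ x ∈ ρ.2.2, x.2 ≠ 2) ∧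
    U.map (fun ρ => ρ.2.1) + U.filterMap (fun ρ => ρ.1) ≤ X

/-- the part staying here -/
def here (V : Multiset (A × Fin 3)) : Multiset A := (V.filter (fun x => x.2 = 0)).map Prod.fst

/-- the part sent out -/
def outs (V : Multiset (A × Fin 3)) : Multiset A := (V.filter (fun x => x.2 = 1)).map Prod.fst

@[simp] lemma here_zero : here (0 : Multiset (A × Fin 3)) = 0 := rfl
@[simp] lemma outs_zero : outs (0 : Multiset (A × Fin 3)) = 0 := rfl
@[simp] lemma here_add (V W : Multiset (A × Fin 3)) : here (V + W) = here V + here W := by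
  simp [here]
@[simp] lemma outs_add (V W : Multiset (A × Fin 3)) : outs (V + W) = outs V + outs W := by
  simp [outs]
@[simp] lemma here_cons_zero (a : A) (V : Multiset (A × Fin 3)) :
    here ((a, 0) ::ₘ V) = a ::ₘ here V := by
  simp [here]
@[simp] lemma here_cons_one (a : A) (V : Multiset (A × Fin 3)) :
    here ((a, 1) ::ₘ V) = here V := by
  simp [here]
@[simp] lemma outs_cons_zero (a : A) (V : Multiset (A × Fin 3)) :
    outs ((a, 0) ::ₘ V) = outs V := by
  simp [outs]
@[simp] lemma outs_cons_one (a : A) (V : Multiset (A × Fin 3)) :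
    outs ((a, 1) ::ₘ V) = a ::ₘ outs V := by
  simp [outs]
@[simp] lemma here_single_zero (a : A) : here ({(a, 0)} : Multiset (A × Fin 3)) = {a} :=
  here_cons_zero a 0
@[simp] lemma here_single_one (a : A) : here ({(a, 1)} : Multiset (A × Fin 3)) = 0 :=
  here_cons_one a 0
@[simp] lemma outs_single_zero (a : A) : outs ({(a, 0)} : Multiset (A × Fin 3)) = 0 :=
  outs_cons_zero a 0
@[simp] lemma outs_single_one (a : A) : outs ({(a, 1)} : Multiset (A × Fin 3)) = {a} :=
  outs_cons_one a 0

lemma here_bind {ι : Type} (M : Multiset ι) (f : ι → Multiset (A × Fin 3)) :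
    here (M.bind f) = M.bind (fun i => here (f i)) := by
  induction M using Multiset.induction_on with
  | empty => simp
  | cons a s ih => simp [ih]

lemma outs_bind {ι : Type} (M : Multiset ι) (f : ι → Multiset (A × Fin 3)) :
    outs (M.bind f) = M.bind (fun i => outs (f i)) := by
  induction M using Multiset.induction_on with
  | empty => simp
  | cons a s ih => simp [ih]

lemma here_map_zero {ι : Type} (M : Multiset ι) (f : ι → A) :
    here (M.map (fun i => (f i, (0 : Fin 3)))) = M.map f := by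
  induction M using Multiset.induction_on with
  | empty => simp
  | cons a s ih => simp [ih]

lemma outs_map_zero {ι : Type} (M : Multiset ι) (f : ι → A) :
    outs (M.map (fun i => (f i, (0 : Fin 3)))) = 0 := by
  induction M using Multiset.induction_on with
  | empty => simp
  | cons a s ih => simp [ih]

/-- A maximally parallel step. -/
def Step (R : Set (RuleT A)) (X X' : Multiset A) (o : ℕ) : Prop :=
  ∃ U : Multiset (RuleT A), App R X U ∧ (∀ ρ, ¬ App R X (ρ ::ₘ U)) ∧
    X' = X - U.map (fun ρ => ρ.2.1) + U.bind (fun ρ => here ρ.2.2) ∧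
    o = (U.bind (fun ρ => outs ρ.2.2)).card

/-- Halting configurations. -/
def Halt (R : Set (RuleT A)) (X : Multiset A) : Prop := ∀ ρ, ¬ App R X (ρ ::ₘ 0)

/-- `HC R T X n`: there is a halting computation of length `T` from `X` sending out `n` objects. -/
def HC (R : Set (RuleT A)) : ℕ → Multiset A → ℕ → Prop
  | 0, X, n => Halt R X ∧ n = 0
  | T + 1, X, n => ∃ X' o n', Step R X X' o ∧ HC R T X' n' ∧ n = o + n'

/-- what a single object may become without the catalyst -/
def Good (R : Set (RuleT A)) (x : A) (v : Multiset (A × Fin 3)) : Prop :=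
  (none, x, v) ∈ R ∨ ((∀ v', (none, x, v') ∉ R) ∧ v = {(x, 0)})

/-- independent evolution of all objects -/
def Evo (R : Set (RuleT A)) (X : Multiset A) (V : Multiset (A × Fin 3)) : Prop :=
  ∃ P : Multiset (A × Multiset (A × Fin 3)), P.map Prod.fst = X ∧ (∀ p ∈ P, Good R p.1 p.2) ∧
    V = P.bind Prod.snd

lemma evo_zero {R : Set (RuleT A)} {V : Multiset (A × Fin 3)} : Evo R 0 V ↔ V = 0 := by
  constructor
  · rintro ⟨P, h1, -, h3⟩
    rw [Multiset.map_eq_zero] at h1
    subst h1; simpa using h3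
  · rintro rfl
    exact ⟨0, by simp⟩

lemma evo_cons {R : Set (RuleT A)} {a : A} {X : Multiset A} {V : Multiset (A × Fin 3)} :
    Evo R (a ::ₘ X) V ↔ ∃ v V', Good R a v ∧ Evo R X V' ∧ V = v + V' := by
  constructor
  · rintro ⟨P, h1, h2, h3⟩
    have ha : a ∈ P.map Prod.fst := by rw [h1]; simp
    obtain ⟨p, hp, rfl⟩ := Multiset.mem_map.1 ha
    obtain ⟨P', rfl⟩ := Multiset.exists_cons_of_mem hp
    refine ⟨p.2, P'.bind Prod.snd, h2 p (by simp), ⟨P', ?_, fun q hq => h2 q (by simp [hq]), rfl⟩, ?_⟩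
    · simpa using h1
    · simpa using h3
  · rintro ⟨v, V', h1, ⟨P, hP1, hP2, rfl⟩, rfl⟩
    refine ⟨(a, v) ::ₘ P, by simp [hP1], ?_, by simp⟩
    intro p hp
    rcases Multiset.mem_cons.1 hp with rfl | hp
    · exact h1
    · exact hP2 p hp

lemma evo_add {R : Set (RuleT A)} {X Y : Multiset A} {V : Multiset (A × Fin 3)} :
    Evo R (X + Y) V ↔ ∃ V1 V2, Evo R X V1 ∧ Evo R Y V2 ∧ V = V1 + V2 := by
  induction X using Multiset.induction_on generalizing V with
  | empty =>
    rw [zero_add]
    constructor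
    · intro h
      exact ⟨0, V, evo_zero.2 rfl, h, by simp⟩
    · rintro ⟨V1, V2, h1, h2, rfl⟩
      rw [evo_zero] at h1
      simpa [h1] using h2
  | cons a s ih =>
    rw [Multiset.cons_add, evo_cons]
    constructor
    · rintro ⟨v, V', h1, h2, rfl⟩
      rw [ih] at h2
      obtain ⟨V1, V2, h3, h4, rfl⟩ := h2
      exact ⟨v + V1, V2, evo_cons.2 ⟨v, V1, h1, h3, rfl⟩, h4, by rw [add_assoc]⟩
    · rintro ⟨V1, V2, h1, h2, rfl⟩
      rw [evo_cons] at h1
      obtain ⟨v, V', h3, h4, rfl⟩ := h1
      exact ⟨v, V' + V2, h3, ih.2 ⟨V', V2, h4, h2, rfl⟩, by rw [add_assoc]⟩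

lemma evo_map {R : Set (RuleT A)} {ι : Type} (f : ι → A) (g : ι → Multiset (A × Fin 3))
    (M : Multiset ι) (h : ∀ i ∈ M, ∀ v, Good R (f i) v ↔ v = g i) (V : Multiset (A × Fin 3)) :
    Evo R (M.map f) V ↔ V = M.bind g := by
  induction M using Multiset.induction_on generalizing V with
  | empty => simp [evo_zero]
  | cons a s ih =>
    rw [Multiset.map_cons, evo_cons, Multiset.cons_bind]
    constructor
    · rintro ⟨v, V', h1, h2, rfl⟩
      rw [h a (by simp)] at h1
      rw [ih (fun i hi => h i (by simp [hi]))] at h2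
      rw [h1, h2]
    · rintro rfl
      exact ⟨g a, s.bind g, (h a (by simp) _).2 rfl,
        (ih (fun i hi => h i (by simp [hi])) _).2 rfl, rfl⟩

/-- hypotheses on a one-catalyst rule set -/
structure OneCat (R : Set (RuleT A)) (c : A) : Prop where
  lhs : ∀ ρ ∈ R, ρ.2.1 ≠ c
  cat : ∀ ρ ∈ R, ρ.1 = none ∨ ρ.1 = some c
  tgt : ∀ ρ ∈ R, ∀ x ∈ ρ.2.2, x.2 ≠ 2
  noc : ∀ ρ ∈ R, ∀ x ∈ ρ.2.2, x.1 ≠ c

/-- the possible results of a step, in terms of the user of the catalyst -/
def Dec (R : Set (RuleT A)) (c : A) (X0 X' : Multiset A) (o : ℕ) : Prop :=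
  (∃ a X1 v V, X0 = a ::ₘ X1 ∧ (some c, a, v) ∈ R ∧ Evo R X1 V ∧
      X' = c ::ₘ here (v + V) ∧ o = (outs (v + V)).card) ∨
  (∃ V, Evo R X0 V ∧ (∀ a ∈ X0, (∃ v, (some c, a, v) ∈ R) → ∃ v, (none, a, v) ∈ R) ∧
      X' = c ::ₘ here V ∧ o = (outs V).card)

lemma filterMap_eq_replicate {c : A} {R : Set (RuleT A)} (hR : OneCat R c)
    (U : Multiset (RuleT A)) (hU : ∀ ρ ∈ U, ρ ∈ R) :
    U.filterMap (fun ρ => ρ.1) = replicate (U.filter (fun ρ => ρ.1 ≠ none)).card c := by
  induction U using Multiset.induction_on with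
  | empty => simp
  | cons a s ih =>
    have ih' := ih (fun ρ h => hU ρ (by simp [h]))
    rcases hR.cat a (hU a (by simp)) with h | h
    · rw [Multiset.filterMap_cons_none _ _ h, Multiset.filter_cons_of_neg _ (by simp [h]), ih']
    · rw [Multiset.filterMap_cons_some _ _ _ h, Multiset.filter_cons_of_pos _ (by simp [h]), ih']
      simp

lemma app_iff {R : Set (RuleT A)} {c : A} (hR : OneCat R c) {X0 : Multiset A} (hc : c ∉ X0)
    (U : Multiset (RuleT A)) :
    App R (c ::ₘ X0) U ↔ (∀ ρ ∈ U, ρ ∈ R) ∧ U.map (fun ρ => ρ.2.1) ≤ X0 ∧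
      (U.filter (fun ρ => ρ.1 ≠ none)).card ≤ 1 := by
  constructor
  · rintro ⟨h1, h2⟩
    have hU : ∀ ρ ∈ U, ρ ∈ R := fun ρ h => (h1 ρ h).1
    have hcn : c ∉ U.map (fun ρ => ρ.2.1) := by
      intro h
      obtain ⟨ρ, hρ, he⟩ := Multiset.mem_map.1 h
      exact hR.lhs ρ (hU ρ hρ) he
    refine ⟨hU, ?_, ?_⟩
    · have h3 : U.map (fun ρ => ρ.2.1) ≤ c ::ₘ X0 := le_trans (Multiset.le_add_right _ _) h2
      exact (Multiset.le_cons_of_notMem hcn).1 h3
    · rw [filterMap_eq_replicate hR U hU] at h2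
      have h4 := Multiset.count_le_of_le c h2
      rw [Multiset.count_add, Multiset.count_eq_zero_of_notMem hcn, Multiset.count_replicate_self,
        Multiset.count_cons_self, Multiset.count_eq_zero_of_notMem hc] at h4
      simpa using h4
  · rintro ⟨hU, h2, h3⟩
    refine ⟨fun ρ h => ⟨hU ρ h, hR.tgt ρ (hU ρ h)⟩, ?_⟩
    rw [filterMap_eq_replicate hR U hU]
    have h5 : replicate (U.filter (fun ρ => ρ.1 ≠ none)).card c ≤ {c} := by
      rw [← Multiset.replicate_one]
      exact (Multiset.replicate_le_replicate c).2 h3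
    calc U.map (fun ρ => ρ.2.1) + replicate (U.filter (fun ρ => ρ.1 ≠ none)).card c
        ≤ X0 + {c} := add_le_add h2 h5
      _ = c ::ₘ X0 := by rw [add_comm, Multiset.singleton_add]

/-- Decomposition of a step. -/
lemma step_iff {R : Set (RuleT A)} {c : A} (hR : OneCat R c) {X0 : Multiset A} (hc : c ∉ X0)
    (X' : Multiset A) (o : ℕ) : Step R (c ::ₘ X0) X' o ↔ Dec R c X0 X' o := by
  constructor
  · rintro ⟨U, hU, hmax, rfl, rfl⟩
    rw [app_iff hR hc] at hU
    obtain ⟨hUR, hle, hcard⟩ := hU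
    obtain ⟨Z, hZ⟩ := Multiset.le_iff_exists_add.1 hle
    -- maximality for noncooperative rules
    have hZ1 : ∀ z ∈ Z, ∀ v, (none, z, v) ∉ R := by
      intro z hz v hv
      apply hmax (none, z, v)
      rw [app_iff hR hc]
      refine ⟨?_, ?_, ?_⟩
      · intro ρ hρ
        rcases Multiset.mem_cons.1 hρ with rfl | hρ
        · exact hv
        · exact hUR ρ hρ
      · obtain ⟨Z', rfl⟩ := Multiset.exists_cons_of_mem hz
        rw [hZ, Multiset.map_cons, Multiset.add_cons]
        exact (Multiset.cons_le_cons_iff _).2 (Multiset.le_add_right _ _)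
      · rw [Multiset.filter_cons_of_neg _ (by simp)]
        exact hcard
    have hX' : c ::ₘ X0 - U.map (fun ρ => ρ.2.1) + U.bind (fun ρ => here ρ.2.2) =
        c ::ₘ (Z + U.bind (fun ρ => here ρ.2.2)) := by
      rw [hZ]
      have : c ::ₘ (U.map (fun ρ => ρ.2.1) + Z) = U.map (fun ρ => ρ.2.1) + (c ::ₘ Z) := by
        rw [Multiset.add_cons]
      rw [this, add_tsub_cancel_left, Multiset.cons_add]
    -- a general evolution statement for noncooperative parts
    have key : ∀ W : Multiset (RuleT A), (∀ ρ ∈ W, ρ ∈ R ∧ ρ.1 = none) →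
        Evo R (W.map (fun ρ => ρ.2.1) + Z)
          (W.bind (fun ρ => ρ.2.2) + Z.map (fun z => (z, (0 : Fin 3)))) := by
      intro W hW
      refine ⟨W.map (fun ρ => (ρ.2.1, ρ.2.2)) + Z.map (fun z => (z, {(z, 0)})), ?_, ?_, ?_⟩
      · simp
      · intro p hp
        rcases Multiset.mem_add.1 hp with hp | hp
        · obtain ⟨ρ, hρ, rfl⟩ := Multiset.mem_map.1 hp
          left
          have := hW ρ hρ
          obtain ⟨h1, h2⟩ := this
          rcases ρ with ⟨a, b, v⟩
          simp only at h2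
          subst h2
          exact h1
        · obtain ⟨z, hz, rfl⟩ := Multiset.mem_map.1 hp
          right
          exact ⟨fun v' => hZ1 z hz v', rfl⟩
      · rw [Multiset.add_bind]
        congr 1
        · rw [Multiset.bind_map]
        · rw [Multiset.bind_map]
          simp
    rcases Nat.lt_or_ge 0 (U.filter (fun ρ => ρ.1 ≠ none)).card with hpos | hzero
    · -- catalyst used
      obtain ⟨ρ0, hρ0⟩ := Multiset.card_pos_iff_exists_mem.1 hpos
      rw [Multiset.mem_filter] at hρ0
      obtain ⟨W, rfl⟩ := Multiset.exists_cons_of_mem hρ0.1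
      have hcat : ρ0.1 = some c := (hR.cat ρ0 (hUR ρ0 hρ0.1)).resolve_left hρ0.2
      rw [Multiset.filter_cons_of_pos (p := fun ρ : RuleT A => ρ.1 ≠ none) _ hρ0.2,
        Multiset.card_cons] at hcard
      have hW0 : (W.filter (fun ρ => ρ.1 ≠ none)).card = 0 := by omega
      have hWn : ∀ ρ ∈ W, ρ ∈ R ∧ ρ.1 = none := by
        intro ρ hρ
        refine ⟨hUR ρ (by simp [hρ]), ?_⟩
        by_contra hne
        rw [Multiset.card_eq_zero, Multiset.filter_eq_nil] at hW0
        exact hW0 ρ hρ hne
      left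
      refine ⟨ρ0.2.1, W.map (fun ρ => ρ.2.1) + Z, ρ0.2.2,
        W.bind (fun ρ => ρ.2.2) + Z.map (fun z => (z, (0 : Fin 3))), ?_, ?_, key W hWn, ?_, ?_⟩
      · rw [hZ, Multiset.map_cons, Multiset.cons_add]
      · have := hUR ρ0 (by simp)
        rcases ρ0 with ⟨a, b, v⟩
        simp only at hcat
        subst hcat
        exact this
      · rw [hX']
        simp only [Multiset.cons_bind, here_add, here_bind, here_map_zero, Multiset.map_id']
        congr 1
        abel
      · simp only [Multiset.cons_bind, outs_add, outs_bind, outs_map_zero]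
        simp
    · -- catalyst idle
      have hW0 : (U.filter (fun ρ => ρ.1 ≠ none)).card = 0 := by omega
      have hWn : ∀ ρ ∈ U, ρ ∈ R ∧ ρ.1 = none := by
        intro ρ hρ
        refine ⟨hUR ρ hρ, ?_⟩
        by_contra hne
        rw [Multiset.card_eq_zero, Multiset.filter_eq_nil] at hW0
        exact hW0 ρ hρ hne
      right
      refine ⟨U.bind (fun ρ => ρ.2.2) + Z.map (fun z => (z, (0 : Fin 3))), ?_, ?_, ?_, ?_⟩
      · have := key U hWn
        rwa [← hZ] at this
      · rintro a ha ⟨v, hv⟩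
        rw [hZ] at ha
        rcases Multiset.mem_add.1 ha with ha | ha
        · obtain ⟨ρ, hρ, rfl⟩ := Multiset.mem_map.1 ha
          obtain ⟨h1, h2⟩ := hWn ρ hρ
          rcases ρ with ⟨a, b, v'⟩
          simp only at h2
          subst h2
          exact ⟨v', h1⟩
        · exfalso
          apply hmax (some c, a, v)
          rw [app_iff hR hc]
          refine ⟨?_, ?_, ?_⟩
          · intro ρ hρ
            rcases Multiset.mem_cons.1 hρ with rfl | hρ
            · exact hv
            · exact hUR ρ hρ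
          · obtain ⟨Z', rfl⟩ := Multiset.exists_cons_of_mem ha
            rw [hZ, Multiset.map_cons, Multiset.add_cons]
            exact (Multiset.cons_le_cons_iff _).2 (Multiset.le_add_right _ _)
          · rw [Multiset.filter_cons_of_pos _ (by simp), Multiset.card_cons, hW0]
      · rw [hX']
        simp only [here_add, here_bind, here_map_zero, Multiset.map_id']
        congr 1
        abel
      · simp only [outs_add, outs_bind, outs_map_zero]
        simp
  · -- converse
    have build : ∀ X1 V, Evo R X1 V → ∃ (W : Multiset (RuleT A)) (Z : Multiset A),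
        (∀ ρ ∈ W, ρ ∈ R ∧ ρ.1 = none) ∧ X1 = W.map (fun ρ => ρ.2.1) + Z ∧
        (∀ z ∈ Z, ∀ v, (none, z, v) ∉ R) ∧
        V = W.bind (fun ρ => ρ.2.2) + Z.map (fun z => (z, (0 : Fin 3))) := by
      intro X1
      induction X1 using Multiset.induction_on with
      | empty =>
        intro V hV
        rw [evo_zero] at hV
        exact ⟨0, 0, by simp [hV]⟩
      | cons a s ih =>
        intro V hV
        rw [evo_cons] at hV
        obtain ⟨v, V', hg, hV', rfl⟩ := hV
        obtain ⟨W, Z, hW, rfl, hZ, rfl⟩ := ih V' hV'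
        rcases hg with hg | ⟨hg, rfl⟩
        · refine ⟨(none, a, v) ::ₘ W, Z, ?_, ?_, hZ, ?_⟩
          · intro ρ hρ
            rcases Multiset.mem_cons.1 hρ with rfl | hρ
            · exact ⟨hg, rfl⟩
            · exact hW ρ hρ
          · simp
          · simp [add_assoc]
        · refine ⟨W, a ::ₘ Z, hW, by simp, ?_, ?_⟩
          · intro z hz
            rcases Multiset.mem_cons.1 hz with rfl | hz
            · exact hg
            · exact hZ z hz
          · rw [Multiset.map_cons, Multiset.add_cons, Multiset.singleton_add]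
    have fcard : ∀ W : Multiset (RuleT A), (∀ ρ ∈ W, ρ ∈ R ∧ ρ.1 = none) →
        (W.filter (fun ρ => ρ.1 ≠ none)) = 0 := by
      intro W hW
      rw [Multiset.filter_eq_nil]
      intro ρ hρ h
      exact h (hW ρ hρ).2
    rintro (⟨a, X1, v, V, rfl, hav, hE, rfl, rfl⟩ | ⟨V, hE, hidle, rfl, rfl⟩)
    · obtain ⟨W, Z, hW, rfl, hZ, rfl⟩ := build X1 V hE
      refine ⟨(some c, a, v) ::ₘ W, ?_, ?_, ?_, ?_⟩
      · rw [app_iff hR hc]
        refine ⟨?_, ?_, ?_⟩
        · intro ρ hρ
          rcases Multiset.mem_cons.1 hρ with rfl | hρ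
          · exact hav
          · exact (hW ρ hρ).1
        · rw [Multiset.map_cons]
          exact (Multiset.cons_le_cons_iff _).2 (Multiset.le_add_right _ _)
        · rw [Multiset.filter_cons_of_pos _ (by simp), fcard W hW]
          simp
      · intro ρ hρ
        rw [app_iff hR hc] at hρ
        obtain ⟨h1, h2, h3⟩ := hρ
        rw [Multiset.map_cons, Multiset.map_cons, Multiset.cons_swap,
          Multiset.cons_le_cons_iff, ← Multiset.singleton_add, add_comm,
          Multiset.add_le_add_iff_left, Multiset.singleton_le] at h2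
        rcases hR.cat ρ (h1 ρ (by simp)) with h4 | h4
        · apply hZ _ h2 ρ.2.2
          have := h1 ρ (by simp)
          rcases ρ with ⟨x, y, z⟩
          simp only at h4
          subst h4
          exact this
        · rw [Multiset.filter_cons_of_pos _ (by simp [h4]),
            Multiset.filter_cons_of_pos _ (by simp)] at h3
          simp at h3
      · have : c ::ₘ a ::ₘ (W.map (fun ρ => ρ.2.1) + Z) =
            ((some c, a, v) ::ₘ W).map (fun ρ => ρ.2.1) + (c ::ₘ Z) := by
          rw [Multiset.map_cons, Multiset.add_cons, Multiset.cons_add]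
        rw [this, add_tsub_cancel_left]
        simp only [Multiset.cons_bind, here_add, here_bind, here_map_zero, Multiset.map_id',
          Multiset.cons_add]
        congr 1
        abel
      · simp only [Multiset.cons_bind, outs_add, outs_bind, outs_map_zero]
        simp
    · obtain ⟨W, Z, hW, rfl, hZ, rfl⟩ := build X0 V hE
      refine ⟨W, ?_, ?_, ?_, ?_⟩
      · rw [app_iff hR hc]
        refine ⟨fun ρ hρ => (hW ρ hρ).1, Multiset.le_add_right _ _, ?_⟩
        rw [fcard W hW]
        simp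
      · intro ρ hρ
        rw [app_iff hR hc] at hρ
        obtain ⟨h1, h2, h3⟩ := hρ
        rw [Multiset.map_cons, ← Multiset.singleton_add, add_comm,
          Multiset.add_le_add_iff_left, Multiset.singleton_le] at h2
        rcases hR.cat ρ (h1 ρ (by simp)) with h4 | h4
        · apply hZ _ h2 ρ.2.2
          have := h1 ρ (by simp)
          rcases ρ with ⟨x, y, z⟩
          simp only at h4
          subst h4
          exact this
        · obtain ⟨v, hv⟩ := hidle ρ.2.1 (Multiset.mem_add.2 (Or.inr h2)) ⟨ρ.2.2, by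
            have := h1 ρ (by simp)
            rcases ρ with ⟨x, y, z⟩
            simp only at h4
            subst h4
            exact this⟩
          exact hZ _ h2 v hv
      · have : c ::ₘ (W.map (fun ρ => ρ.2.1) + Z) =
            W.map (fun ρ => ρ.2.1) + (c ::ₘ Z) := by
          rw [Multiset.add_cons]
        rw [this, add_tsub_cancel_left]
        simp only [here_add, here_bind, here_map_zero, Multiset.map_id',
          Multiset.cons_add]
        congr 1
        abel
      · simp only [outs_add, outs_bind, outs_map_zero]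
        simp

/-- Halting, in terms of objects. -/
lemma halt_iff {R : Set (RuleT A)} {c : A} (hR : OneCat R c) {X0 : Multiset A} (hc : c ∉ X0) :
    Halt R (c ::ₘ X0) ↔ ∀ a ∈ X0, ∀ κ v, (κ, a, v) ∉ R := by
  constructor
  · intro h a ha κ v hv
    apply h (κ, a, v)
    rw [app_iff hR hc]
    refine ⟨by simpa using hv, by simpa using ha, ?_⟩
    exact le_trans (Multiset.card_le_card (Multiset.filter_le _ _)) (by simp)
  · rintro h ρ hρ
    rw [app_iff hR hc] at hρ
    obtain ⟨h1, h2, -⟩ := hρ
    exact h ρ.2.1 (by simpa using h2) ρ.1 ρ.2.2 (h1 ρ (by simp))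

lemma mem_here {a : A} {V : Multiset (A × Fin 3)} : a ∈ here V ↔ (a, (0 : Fin 3)) ∈ V := by
  unfold here
  rw [Multiset.mem_map]
  constructor
  · rintro ⟨x, hx, rfl⟩
    rw [Multiset.mem_filter] at hx
    rcases x with ⟨a, b⟩
    simp only at hx
    rw [← hx.2]
    exact hx.1
  · intro h
    exact ⟨(a, 0), by simp [h], rfl⟩

lemma evo_mem {R : Set (RuleT A)} {X : Multiset A} {V : Multiset (A × Fin 3)} (h : Evo R X V)
    {x : A × Fin 3} (hx : x ∈ V) : ∃ a ∈ X, ∃ v, Good R a v ∧ x ∈ v := by
  obtain ⟨P, rfl, h2, rfl⟩ := h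
  obtain ⟨p, hp, hxp⟩ := Multiset.mem_bind.1 hx
  exact ⟨p.1, Multiset.mem_map.2 ⟨p, hp, rfl⟩, p.2, h2 p hp, hxp⟩

lemma evo_of_mem {R : Set (RuleT A)} {X : Multiset A} {V : Multiset (A × Fin 3)} (h : Evo R X V)
    {a : A} (ha : a ∈ X) : ∃ v, Good R a v ∧ v ≤ V := by
  obtain ⟨X', rfl⟩ := Multiset.exists_cons_of_mem ha
  rw [evo_cons] at h
  obtain ⟨v, V', h1, -, rfl⟩ := h
  exact ⟨v, h1, Multiset.le_add_right _ _⟩

lemma here_mono {V W : Multiset (A × Fin 3)} (h : V ≤ W) : here V ≤ here W :=
  Multiset.map_le_map (Multiset.filter_le_filter _ h)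

lemma evo_noc {R : Set (RuleT A)} {c : A} (hR : OneCat R c) {X : Multiset A} (hc : c ∉ X)
    {V : Multiset (A × Fin 3)} (h : Evo R X V) : c ∉ here V := by
  intro hcV
  rw [mem_here] at hcV
  obtain ⟨a, ha, v, hg, hv⟩ := evo_mem h hcV
  rcases hg with hg | ⟨-, rfl⟩
  · exact hR.noc _ hg _ hv rfl
  · simp only [Multiset.mem_singleton, Prod.mk.injEq, and_true] at hv
    exact hc (hv ▸ ha)

lemma dec_form {R : Set (RuleT A)} {c : A} (hR : OneCat R c) {X0 : Multiset A} (hc : c ∉ X0)
    {X' : Multiset A} {o : ℕ} (h : Dec R c X0 X' o) : ∃ Y, X' = c ::ₘ Y ∧ c ∉ Y := by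
  rcases h with ⟨a, X1, v, V, rfl, hav, hE, rfl, rfl⟩ | ⟨V, hE, -, rfl, rfl⟩
  · refine ⟨_, rfl, ?_⟩
    rw [here_add, Multiset.mem_add, not_or]
    constructor
    · rw [mem_here]
      intro h
      exact hR.noc _ hav _ h rfl
    · exact evo_noc hR (fun h => hc (by simp [h])) hE
  · exact ⟨_, rfl, evo_noc hR hc hE⟩

/-- an object evolves on its own or uses the catalyst -/
lemma dec_mem {R : Set (RuleT A)} {c : A} {X0 : Multiset A}
    {X' : Multiset A} {o : ℕ} (h : Dec R c X0 X' o) {a b : A} (ha : a ∈ X0) (hb : b ∈ X0)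
    (hab : a ≠ b) :
    ((∃ v, Good R a v ∧ here v ≤ X') ∧ (∃ v, Good R b v ∧ here v ≤ X')) ∨
    ((∃ v, (some c, a, v) ∈ R ∧ here v ≤ X') ∧ (∃ v, Good R b v ∧ here v ≤ X')) ∨
    ((∃ v, Good R a v ∧ here v ≤ X') ∧ (∃ v, (some c, b, v) ∈ R ∧ here v ≤ X')) := by
  rcases h with ⟨u, X1, v, V, rfl, hav, hE, rfl, rfl⟩ | ⟨V, hE, -, rfl, rfl⟩
  · have h1 : here v ≤ c ::ₘ here (v + V) :=
      le_trans (here_mono (Multiset.le_add_right _ _)) (Multiset.le_cons_self _ _)
    have h2 : ∀ d ∈ X1, ∃ v', Good R d v' ∧ here v' ≤ c ::ₘ here (v + V) := by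
      intro d hd
      obtain ⟨v', hv', hle⟩ := evo_of_mem hE hd
      exact ⟨v', hv', le_trans (here_mono (le_trans hle (Multiset.le_add_left _ _)))
        (Multiset.le_cons_self _ _)⟩
    rcases Multiset.mem_cons.1 ha with rfl | ha'
    · rcases Multiset.mem_cons.1 hb with rfl | hb'
      · exact absurd rfl hab
      · exact Or.inr (Or.inl ⟨⟨v, hav, h1⟩, h2 b hb'⟩)
    · rcases Multiset.mem_cons.1 hb with rfl | hb'
      · exact Or.inr (Or.inr ⟨h2 a ha', ⟨v, hav, h1⟩⟩)
      · exact Or.inl ⟨h2 a ha', h2 b hb'⟩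
  · have h2 : ∀ d ∈ X0, ∃ v', Good R d v' ∧ here v' ≤ c ::ₘ here V := by
      intro d hd
      obtain ⟨v', hv', hle⟩ := evo_of_mem hE hd
      exact ⟨v', hv', le_trans (here_mono hle) (Multiset.le_cons_self _ _)⟩
    exact Or.inl ⟨h2 a ha, h2 b hb⟩

/-- a trap object never disappears and prevents halting -/
lemma trap_lemma {R : Set (RuleT A)} {c t : A} (hR : OneCat R c)
    (h1 : (none, t, ({(t, 0)} : Multiset (A × Fin 3))) ∈ R)
    (h2 : ∀ κ v, (κ, t, v) ∈ R → κ = none ∧ v = {(t, 0)}) (T : ℕ) :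
    ∀ (X0 : Multiset A) (n : ℕ), c ∉ X0 → t ∈ X0 → ¬ HC R T (c ::ₘ X0) n := by
  induction T with
  | zero =>
    rintro X0 n hc ht ⟨hh, -⟩
    rw [halt_iff hR hc] at hh
    exact hh t ht _ _ h1
  | succ T ih =>
    rintro X0 n hc ht ⟨X', o, n', hs, hh, -⟩
    rw [step_iff hR hc] at hs
    obtain ⟨Y, rfl, hY⟩ := dec_form hR hc hs
    refine ih Y n' hY ?_ hh
    have hgt : ∀ v, Good R t v → v = {(t, 0)} := by
      rintro v (hv | ⟨-, hv⟩)
      · exact (h2 _ _ hv).2
      · exact hv
    have htc : t ≠ c := fun h => hc (h ▸ ht)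
    rcases hs with ⟨a, X1, v, V, rfl, hav, hE, he, -⟩ | ⟨V, hE, -, he, -⟩
    · have hat : a ≠ t := by
        rintro rfl
        have := (h2 _ _ hav).1
        simp at this
      have ht' : t ∈ X1 := by
        rcases Multiset.mem_cons.1 ht with h | h
        · exact absurd h.symm hat
        · exact h
      obtain ⟨v', hv', hle⟩ := evo_of_mem hE ht'
      rw [hgt v' hv'] at hle
      rw [Multiset.cons_inj_right] at he
      rw [he, here_add, Multiset.mem_add]
      right
      rw [mem_here]
      exact Multiset.singleton_le.1 hle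
    · obtain ⟨v', hv', hle⟩ := evo_of_mem hE ht
      rw [hgt v' hv'] at hle
      rw [Multiset.cons_inj_right] at he
      rw [he, mem_here]
      exact Multiset.singleton_le.1 hle

/-- a demanding object must be the user of the catalyst, or a trap appears -/
lemma demand_lemma {R : Set (RuleT A)} {c t a : A} {X1 : Multiset A} {X' : Multiset A} {o : ℕ}
    (ha : ∀ v, Good R a v → v = {(t, 0)}) (h : Dec R c (a ::ₘ X1) X' o) :
    t ∈ X' ∨ ∃ v V, (some c, a, v) ∈ R ∧ Evo R X1 V ∧ X' = c ::ₘ here (v + V) ∧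
      o = (outs (v + V)).card := by
  rcases h with ⟨u, X2, v, V, hX, huv, hE, rfl, rfl⟩ | ⟨V, hE, -, rfl, rfl⟩
  · by_cases hau : a = u
    · subst hau
      rw [Multiset.cons_inj_right] at hX
      subst hX
      exact Or.inr ⟨v, V, huv, hE, rfl, rfl⟩
    · left
      have ha2 : a ∈ X2 := by
        have : a ∈ u ::ₘ X2 := by rw [← hX]; simp
        rcases Multiset.mem_cons.1 this with h | h
        · exact absurd h hau
        · exact h
      obtain ⟨v', hv', hle⟩ := evo_of_mem hE ha2
      rw [ha v' hv'] at hle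
      rw [Multiset.mem_cons, here_add, Multiset.mem_add]
      right; right
      rw [mem_here]
      exact Multiset.singleton_le.1 hle
  · left
    obtain ⟨v', hv', hle⟩ := evo_of_mem hE (Multiset.mem_cons_self a X1)
    rw [ha v' hv'] at hle
    rw [Multiset.mem_cons]
    right
    rw [mem_here]
    exact Multiset.singleton_le.1 hle

end general

end Pool.Agent.Helper74
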