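import Mathlib
import Pool.Agent.Helper74.PStep

set_option autoImplicit false
set_option linter.unusedSectionVars false

namespace Pool.Agent.Helper74

open Multiset

/-- the symbols of the simulating one-catalyst system -/
inductive Sym (S Θ R : Type) (K : ℕ) : Type
  | c : Sym S Θ R K
  | trap : Sym S Θ R K
  | o : Sym S Θ R K
  | st (s : S) : Sym S Θ R K
  | th (θ : Θ) (j : Fin K) : Sym S Θ R K
  | h (j : Fin K) : Sym S Θ R K
  | w (r : R) : Sym S Θ R K
  | y (j : Fin (K + 1)) : Sym S Θ R K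
  deriving DecidableEq, Fintype

/-- a blind control graph -/
structure Ctl (S Θ R : Type) where
  src : Θ → S
  tgt : Θ → Option R
  nxt : Θ → Option S
  add : Θ → Multiset R
  out : Θ → ℕ
  z : R
  y : R

variable {S Θ R : Type} [DecidableEq S] [DecidableEq Θ] [DecidableEq R] {K : ℕ}

/-- the object representing register `r` at slot `j` -/
def sy (G : Ctl S Θ R) (K : ℕ) (j : Fin (K + 1)) (r : R) : Sym S Θ R K :=
  if r = G.y then Sym.y j else Sym.w r

/-- the next state object, if any -/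
def nxs (Θ R : Type) (K : ℕ) : Option S → Multiset (Sym S Θ R K)
  | none => 0
  | some s => {Sym.st s}

/-- final products of a transition -/
def fin (G : Ctl S Θ R) (K : ℕ) (θ : Θ) : Multiset (Sym S Θ R K × Fin 3) :=
  (nxs Θ R K (G.nxt θ)).map (fun a => (a, (0 : Fin 3))) +
  (G.add θ).map (fun r => (sy G K 0 r, (0 : Fin 3))) +
  replicate (G.out θ) ((Sym.o, 1) : Sym S Θ R K × Fin 3)

/-- products of slot `j` of a transition -/
def nx (G : Ctl S Θ R) (θ : Θ) (j : Fin K) : Multiset (Sym S Θ R K × Fin 3) :=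
  if h : j.val + 1 < K then {(Sym.th θ ⟨j.val + 1, h⟩, 0)} else fin G K θ

/-- the rules -/
inductive PRule (G : Ctl S Θ R) (ι : R ≃ Fin K) : RuleT (Sym S Θ R K) → Prop
  | trap : PRule G ι (none, Sym.trap, {(Sym.trap, 0)})
  | start (θ : Θ) (j : Fin K) (hj : j.val = 0) :
      PRule G ι (none, Sym.st (G.src θ), {(Sym.th θ j, 0)})
  | fallback (s : S) : PRule G ι (none, Sym.st s, {(Sym.trap, 0)})
  | thn (θ : Θ) (j : Fin K) (r : R) (h1 : G.tgt θ = some r) (h2 : ι r = j) :
      PRule G ι (none, Sym.th θ j, nx G θ j)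
  | thc (θ : Θ) (j : Fin K) (h1 : ∀ r, G.tgt θ = some r → ι r ≠ j) :
      PRule G ι (some Sym.c, Sym.th θ j, nx G θ j)
  | tht (θ : Θ) (j : Fin K) (h1 : ∀ r, G.tgt θ = some r → ι r ≠ j) :
      PRule G ι (none, Sym.th θ j, {(Sym.trap, 0)})
  | h0c (j : Fin K) (hj : j.val = 0) : PRule G ι (some Sym.c, Sym.h j, 0)
  | h0t (j : Fin K) (hj : j.val = 0) : PRule G ι (none, Sym.h j, {(Sym.trap, 0)})
  | hs (i j : Fin K) (h : j.val + 1 = i.val) : PRule G ι (none, Sym.h i, {(Sym.h j, 0)})
  | w (r : R) (hr : r ≠ G.y) : PRule G ι (some Sym.c, Sym.w r, {(Sym.h (ι r), 0)})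
  | yc (j : Fin (K + 1)) (hj : j.val = 0) :
      PRule G ι (some Sym.c, Sym.y j, {(Sym.h (ι G.y), 0)})
  | ys (i j : Fin (K + 1)) (h : i.val + 1 = j.val) :
      PRule G ι (none, Sym.y i, {(Sym.y j, 0)})
  | yK (i j : Fin (K + 1)) (hi : i.val = K) (hj : j.val = 0) :
      PRule G ι (none, Sym.y i, {(Sym.y j, 0), (Sym.w G.z, 0), (Sym.w G.z, 0)})

/-- the rule set -/
def PR (G : Ctl S Θ R) (ι : R ≃ Fin K) : Set (RuleT (Sym S Θ R K)) := {ρ | PRule G ι ρ}

lemma PR_finite [Finite S] [Finite Θ] [Finite R] (G : Ctl S Θ R) (ι : R ≃ Fin K) :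
    (PR G ι).Finite := by
  have := Fintype.ofFinite S
  have := Fintype.ofFinite Θ
  have := Fintype.ofFinite R
  let F : Set (Multiset (Sym S Θ R K × Fin 3)) :=
    {0} ∪ Set.range (fun a : Sym S Θ R K => {(a, 0)}) ∪
    Set.range (fun p : Θ × Fin K => nx G p.1 p.2) ∪
    Set.range (fun j : Fin (K + 1) => {(Sym.y j, 0), (Sym.w G.z, 0), (Sym.w G.z, 0)})
  have hF : F.Finite := by
    refine Set.Finite.union (Set.Finite.union (Set.Finite.union ?_ ?_) ?_) ?_
    · exact Set.finite_singleton _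
    · exact Set.finite_range _
    · exact Set.finite_range _
    · exact Set.finite_range _
  refine Set.Finite.subset ((Set.finite_univ (α := Option (Sym S Θ R K))).prod
    ((Set.finite_univ (α := Sym S Θ R K)).prod hF)) ?_
  intro ρ hρ
  refine ⟨Set.mem_univ _, Set.mem_univ _, ?_⟩
  cases (hρ : PRule G ι ρ) <;> simp [F]

lemma fin_mem {G : Ctl S Θ R} {θ : Θ} {x : Sym S Θ R K × Fin 3} (hx : x ∈ fin G K θ) :
    x.1 ≠ Sym.c ∧ x.2 ≠ 2 := by
  unfold fin at hx
  rw [Multiset.mem_add, Multiset.mem_add] at hx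
  rcases hx with (hx | hx) | hx
  · cases h : G.nxt θ with
    | none => rw [h] at hx; simp [nxs] at hx
    | some s => rw [h] at hx; simp [nxs] at hx; subst hx; simp
  · obtain ⟨r, -, rfl⟩ := Multiset.mem_map.1 hx
    unfold sy
    split_ifs <;> simp
  · have := Multiset.eq_of_mem_replicate hx
    subst this; simp

lemma nx_mem {G : Ctl S Θ R} {θ : Θ} {j : Fin K} {x : Sym S Θ R K × Fin 3}
    (hx : x ∈ nx G θ j) : x.1 ≠ Sym.c ∧ x.2 ≠ 2 := by
  unfold nx at hx
  split_ifs at hx with h
  · simp at hx; subst hx; simp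
  · exact fin_mem hx

lemma PR_oneCat (G : Ctl S Θ R) (ι : R ≃ Fin K) : OneCat (PR G ι) Sym.c := by
  constructor
  · intro ρ hρ
    cases (hρ : PRule G ι ρ) <;> simp
  · intro ρ hρ
    cases (hρ : PRule G ι ρ) <;> simp
  · intro ρ hρ x hx
    cases (hρ : PRule G ι ρ) with
    | thn θ j r h1 h2 => exact (nx_mem hx).2
    | thc θ j h1 => exact (nx_mem hx).2
    | h0c j hj => simp at hx
    | yK i j hi hj =>
      simp at hx
      rcases hx with rfl | rfl <;> simp
    | _ => simp at hx; subst hx; simp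
  · intro ρ hρ x hx
    cases (hρ : PRule G ι ρ) with
    | thn θ j r h1 h2 => exact (nx_mem hx).1
    | thc θ j h1 => exact (nx_mem hx).1
    | h0c j hj => simp at hx
    | yK i j hi hj =>
      simp at hx
      rcases hx with rfl | rfl <;> simp
    | _ => simp at hx; subst hx; simp

section analysis

variable (G : Ctl S Θ R) (ι : R ≃ Fin K)

lemma good_th_t (θ : Θ) (j : Fin K) (r : R) (h1 : G.tgt θ = some r) (h2 : ι r = j)
    (v : Multiset (Sym S Θ R K × Fin 3)) : Good (PR G ι) (Sym.th θ j) v ↔ v = nx G θ j := by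
  constructor
  · rintro (h | ⟨h, -⟩)
    · cases (h : PRule G ι _) with
      | thn => rfl
      | tht _ _ h3 => exact absurd h2 (h3 r h1)
    · exact absurd (PRule.thn θ j r h1 h2 : PRule G ι _) (h _)
  · rintro rfl
    exact Or.inl (PRule.thn θ j r h1 h2)

lemma good_th_d (θ : Θ) (j : Fin K) (h1 : ∀ r, G.tgt θ = some r → ι r ≠ j)
    (v : Multiset (Sym S Θ R K × Fin 3)) :
    Good (PR G ι) (Sym.th θ j) v ↔ v = {(Sym.trap, 0)} := by
  constructor
  · rintro (h | ⟨h, -⟩)
    · cases (h : PRule G ι _) with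
      | thn _ _ r h3 h4 => exact absurd h4 (h1 r h3)
      | tht _ _ h3 => rfl
    · exact absurd (PRule.tht θ j h1 : PRule G ι _) (h _)
  · rintro rfl
    exact Or.inl (PRule.tht θ j h1)

lemma cat_th (θ : Θ) (j : Fin K) (v : Multiset (Sym S Θ R K × Fin 3)) :
    (some Sym.c, Sym.th θ j, v) ∈ PR G ι ↔
      (∀ r, G.tgt θ = some r → ι r ≠ j) ∧ v = nx G θ j := by
  constructor
  · intro h
    cases (h : PRule G ι _) with
    | thc _ _ h1 => exact ⟨h1, rfl⟩
  · rintro ⟨h1, rfl⟩
    exact PRule.thc θ j h1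

lemma good_h0 (j : Fin K) (hj : j.val = 0) (v : Multiset (Sym S Θ R K × Fin 3)) :
    Good (PR G ι) (Sym.h j) v ↔ v = {(Sym.trap, 0)} := by
  constructor
  · rintro (h | ⟨h, -⟩)
    · cases (h : PRule G ι _) with
      | h0t => rfl
      | hs _ _ h => omega
    · exact absurd (PRule.h0t j hj : PRule G ι _) (h _)
  · rintro rfl
    exact Or.inl (PRule.h0t j hj)

lemma good_hs (i j : Fin K) (hj : j.val + 1 = i.val) (v : Multiset (Sym S Θ R K × Fin 3)) :
    Good (PR G ι) (Sym.h i) v ↔ v = {(Sym.h j, 0)} := by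
  constructor
  · rintro (h | ⟨h, -⟩)
    · cases (h : PRule G ι _) with
      | h0t => omega
      | hs _ j' h =>
        have : j' = j := Fin.ext (by omega)
        rw [this]
    · exact absurd (PRule.hs i j hj : PRule G ι _) (h _)
  · rintro rfl
    exact Or.inl (PRule.hs i j hj)

lemma cat_h (j : Fin K) (v : Multiset (Sym S Θ R K × Fin 3)) :
    (some Sym.c, Sym.h j, v) ∈ PR G ι ↔ j.val = 0 ∧ v = 0 := by
  constructor
  · intro h
    cases (h : PRule G ι _) with
    | h0c _ h1 => exact ⟨h1, rfl⟩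
  · rintro ⟨h1, rfl⟩
    exact PRule.h0c j h1

lemma good_w (r : R) (v : Multiset (Sym S Θ R K × Fin 3)) :
    Good (PR G ι) (Sym.w r) v ↔ v = {(Sym.w r, 0)} := by
  constructor
  · rintro (h | ⟨h, h'⟩)
    · cases (h : PRule G ι _)
    · exact h'
  · rintro rfl
    refine Or.inr ⟨fun v' h => ?_, rfl⟩
    cases (h : PRule G ι _)

lemma good_ys (i j : Fin (K + 1)) (hj : i.val + 1 = j.val)
    (v : Multiset (Sym S Θ R K × Fin 3)) :
    Good (PR G ι) (Sym.y i) v ↔ v = {(Sym.y j, 0)} := by
  constructor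
  · rintro (h | ⟨h, -⟩)
    · cases (h : PRule G ι _) with
      | ys _ j' h =>
        have : j' = j := Fin.ext (by omega)
        rw [this]
      | yK _ j' hi hj' => omega
    · exact absurd (PRule.ys i j hj : PRule G ι _) (h _)
  · rintro rfl
    exact Or.inl (PRule.ys i j hj)

lemma good_yK (i j : Fin (K + 1)) (hi : i.val = K) (hj : j.val = 0)
    (v : Multiset (Sym S Θ R K × Fin 3)) :
    Good (PR G ι) (Sym.y i) v ↔ v = {(Sym.y j, 0), (Sym.w G.z, 0), (Sym.w G.z, 0)} := by
  constructor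
  · rintro (h | ⟨h, -⟩)
    · cases (h : PRule G ι _) with
      | ys _ j' h => omega
      | yK _ j' hi hj' =>
        have : j' = j := Fin.ext (by omega)
        rw [this]
    · exact absurd (PRule.yK i j hi hj : PRule G ι _) (h _)
  · rintro rfl
    exact Or.inl (PRule.yK i j hi hj)

lemma cat_y (j : Fin (K + 1)) (v : Multiset (Sym S Θ R K × Fin 3)) :
    (some Sym.c, Sym.y j, v) ∈ PR G ι ↔ j.val = 0 ∧ v = {(Sym.h (ι G.y), 0)} := by
  constructor
  · intro h
    cases (h : PRule G ι _) with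
    | yc _ h1 => exact ⟨h1, rfl⟩
  · rintro ⟨h1, rfl⟩
    exact PRule.yc j h1

lemma cat_w (r : R) (v : Multiset (Sym S Θ R K × Fin 3)) :
    (some Sym.c, Sym.w r, v) ∈ PR G ι ↔ r ≠ G.y ∧ v = {(Sym.h (ι r), 0)} := by
  constructor
  · intro h
    cases (h : PRule G ι _) with
    | w _ h1 => exact ⟨h1, rfl⟩
  · rintro ⟨h1, rfl⟩
    exact PRule.w r h1

lemma good_st (s : S) (j0 : Fin K) (hj0 : j0.val = 0) (v : Multiset (Sym S Θ R K × Fin 3)) :
    Good (PR G ι) (Sym.st s) v ↔
      v = {(Sym.trap, 0)} ∨ ∃ θ, G.src θ = s ∧ v = {(Sym.th θ j0, 0)} := by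
  constructor
  · rintro (h | ⟨h, -⟩)
    · cases (h : PRule G ι _) with
      | start θ j hj =>
        have : j = j0 := Fin.ext (by omega)
        subst this
        exact Or.inr ⟨θ, rfl, rfl⟩
      | fallback => exact Or.inl rfl
    · exact absurd (PRule.fallback s : PRule G ι _) (h _)
  · rintro (rfl | ⟨θ, rfl, rfl⟩)
    · exact Or.inl (PRule.fallback s)
    · exact Or.inl (PRule.start θ j0 hj0)

lemma cat_st (s : S) (v : Multiset (Sym S Θ R K × Fin 3)) :
    (some Sym.c, Sym.st s, v) ∉ PR G ι := by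
  intro h
  cases (h : PRule G ι _)

lemma mem_PR_trap : (none, Sym.trap, ({(Sym.trap, 0)} : Multiset (Sym S Θ R K × Fin 3))) ∈
    PR G ι := PRule.trap

lemma trap_only (κ : Option (Sym S Θ R K)) (v : Multiset (Sym S Θ R K × Fin 3))
    (h : (κ, Sym.trap, v) ∈ PR G ι) : κ = none ∧ v = {(Sym.trap, 0)} := by
  cases (h : PRule G ι _)
  exact ⟨rfl, rfl⟩

lemma no_trap (T : ℕ) (X0 : Multiset (Sym S Θ R K)) (n : ℕ) (hc : Sym.c ∉ X0)
    (ht : Sym.trap ∈ X0) : ¬ HC (PR G ι) T (Sym.c ::ₘ X0) n :=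
  trap_lemma (PR_oneCat G ι) (mem_PR_trap G ι) (trap_only G ι) T X0 n hc ht

/-- deterministic evolution of register objects -/
def gy (j : Fin (K + 1)) (r : R) : Multiset (Sym S Θ R K × Fin 3) :=
  if h : j.val < K then {(sy G K ⟨j.val + 1, by omega⟩ r, 0)}
  else (sy G K 0 r, 0) ::ₘ (if r = G.y then {(Sym.w G.z, 0), (Sym.w G.z, 0)} else 0)

lemma good_sy (j : Fin (K + 1)) (r : R) (v : Multiset (Sym S Θ R K × Fin 3)) :
    Good (PR G ι) (sy G K j r) v ↔ v = gy G j r := by
  unfold sy gy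
  by_cases hr : r = G.y
  · rw [if_pos hr]
    by_cases hj : j.val < K
    · rw [dif_pos hj, good_ys G ι j ⟨j.val + 1, by omega⟩ rfl]
      simp [sy, hr]
    · rw [dif_neg hj, good_yK G ι j 0 (by omega) rfl]
      simp [sy, hr]
  · rw [if_neg hr, good_w]
    by_cases hj : j.val < K
    · simp [sy, hr, hj]
    · simp [sy, hr, hj]

/-- growth of the register multiset in one round -/
def post (M : Multiset R) : Multiset R := M + replicate (2 * M.count G.y) G.z

lemma here_bind_gy_lt (j : Fin (K + 1)) (hj : j.val < K) (M : Multiset R) :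
    here (M.bind (gy G j)) = M.map (sy G K ⟨j.val + 1, by omega⟩) := by
  induction M using Multiset.induction_on with
  | empty => simp
  | cons a s ih =>
    simp only [Multiset.cons_bind, here_add, ih, Multiset.map_cons]
    unfold gy
    rw [dif_pos hj]
    simp

lemma outs_bind_gy (j : Fin (K + 1)) (M : Multiset R) :
    outs (M.bind (gy (S := S) (Θ := Θ) G j)) = 0 := by
  induction M using Multiset.induction_on with
  | empty => simp
  | cons a s ih =>
    simp only [Multiset.cons_bind, outs_add, ih]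
    unfold gy
    split_ifs
    · simp
    · simp
    · simp

lemma here_bind_gy_K (hz : G.z ≠ G.y) (j : Fin (K + 1)) (hj : j.val = K) (M : Multiset R) :
    here (M.bind (gy G j)) = (post G M).map (sy G K 0) := by
  unfold post
  induction M using Multiset.induction_on with
  | empty => simp
  | cons a s ih =>
    simp only [Multiset.cons_bind, here_add, ih]
    unfold gy
    rw [dif_neg (by omega)]
    by_cases ha : a = G.y
    · rw [if_pos ha]
      subst ha
      have : 2 * Multiset.count G.y (G.y ::ₘ s) = 2 * Multiset.count G.y s + 1 + 1 := by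
        rw [Multiset.count_cons_self]; ring
      rw [this, Multiset.replicate_succ, Multiset.replicate_succ]
      simp only [Multiset.map_add, Multiset.map_cons, Multiset.add_cons, Multiset.cons_add]
      have hsz : sy G K (0 : Fin (K + 1)) G.z = Sym.w G.z := by simp [sy, hz]
      rw [hsz, here_cons_zero]
      have : here ({(Sym.w G.z, 0), (Sym.w G.z, 0)} : Multiset (Sym S Θ R K × Fin 3)) =
          {Sym.w G.z, Sym.w G.z} := by
        show here ((Sym.w G.z, 0) ::ₘ {(Sym.w G.z, 0)}) = _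
        rw [here_cons_zero, here_single_zero]
        rfl
      rw [this]
      simp only [Multiset.cons_add, Multiset.insert_eq_cons, Multiset.singleton_add]
      rw [Multiset.cons_swap]
      congr 1
      rw [Multiset.cons_swap]
    · rw [if_neg ha, Multiset.count_cons_of_ne (Ne.symm ha)]
      simp

/-- the pending helper object -/
def pend (ι : R ≃ Fin K) (p : Option R) (j : ℕ) : Multiset (Sym S Θ R K) :=
  match p with
  | none => 0
  | some r => if j ≤ (ι r).val then {Sym.h ⟨(ι r).val - j, by omega⟩} else 0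

/-- a configuration in the middle of a round -/
def mid (ι : R ≃ Fin K) (θ : Θ) (p : Option R) (M : Multiset R) (j : Fin K) :
    Multiset (Sym S Θ R K) :=
  Sym.th θ j ::ₘ (pend ι p j.val + M.map (sy G K j.succ))

lemma c_not_mem_map (j : Fin (K + 1)) (M : Multiset R) :
    (Sym.c : Sym S Θ R K) ∉ M.map (sy G K j) := by
  intro h
  obtain ⟨r, -, hr⟩ := Multiset.mem_map.1 h
  unfold sy at hr
  split_ifs at hr

lemma c_not_mem_pend (p : Option R) (j : ℕ) : (Sym.c : Sym S Θ R K) ∉ pend ι p j := by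
  unfold pend
  cases p with
  | none => simp
  | some r =>
    simp only
    split_ifs <;> simp

lemma c_not_mem_mid (θ : Θ) (p : Option R) (M : Multiset R) (j : Fin K) :
    Sym.c ∉ mid G ι θ p M j := by
  unfold mid
  simp only [Multiset.mem_cons, Multiset.mem_add, not_or]
  exact ⟨by simp, c_not_mem_pend ι p _, c_not_mem_map G _ M⟩

lemma hc_demand {a : Sym S Θ R K} {X1 : Multiset (Sym S Θ R K)}
    {v V : Multiset (Sym S Θ R K × Fin 3)} (hc : Sym.c ∉ a ::ₘ X1)
    (h1 : ∀ v', Good (PR G ι) a v' → v' = {(Sym.trap, 0)})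
    (h2 : ∀ v', (some Sym.c, a, v') ∈ PR G ι ↔ v' = v)
    (h3 : ∀ V', Evo (PR G ι) X1 V' ↔ V' = V) (T n : ℕ) :
    HC (PR G ι) (T + 1) (Sym.c ::ₘ a ::ₘ X1) n ↔
      ∃ n', HC (PR G ι) T (Sym.c ::ₘ here (v + V)) n' ∧ n = (outs (v + V)).card + n' := by
  constructor
  · rintro ⟨X', o, n', hs, hh, rfl⟩
    rw [step_iff (PR_oneCat G ι) hc] at hs
    obtain ⟨Y, rfl, hY⟩ := dec_form (PR_oneCat G ι) hc hs
    rcases demand_lemma h1 hs with ht | ⟨v', V', hv', hE, he, rfl⟩
    · exfalso
      have : Sym.trap ∈ Y := by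
        rcases Multiset.mem_cons.1 ht with h | h
        · simp at h
        · exact h
      exact no_trap G ι T Y n' hY this hh
    · rw [h2] at hv'
      rw [h3] at hE
      subst hv' hE
      rw [he] at hh
      exact ⟨n', hh, rfl⟩
  · rintro ⟨n', hh, rfl⟩
    refine ⟨_, _, n', ?_, hh, rfl⟩
    rw [step_iff (PR_oneCat G ι) hc]
    exact Or.inl ⟨a, X1, v, V, rfl, (h2 v).2 rfl, (h3 V).2 rfl, rfl, rfl⟩

lemma hc_zero_demand {a : Sym S Θ R K} {X1 : Multiset (Sym S Θ R K)}
    {v : Multiset (Sym S Θ R K × Fin 3)} (hc : Sym.c ∉ a ::ₘ X1)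
    (h2 : (some Sym.c, a, v) ∈ PR G ι) (n : ℕ) :
    ¬ HC (PR G ι) 0 (Sym.c ::ₘ a ::ₘ X1) n := by
  rintro ⟨h, -⟩
  rw [halt_iff (PR_oneCat G ι) hc] at h
  exact h a (by simp) _ _ h2

lemma evo_regs (j : Fin (K + 1)) (M : Multiset R) (V : Multiset (Sym S Θ R K × Fin 3)) :
    Evo (PR G ι) (M.map (sy G K j)) V ↔ V = M.bind (gy G j) :=
  evo_map _ _ M (fun r _ v => good_sy G ι j r v) V

/-- one slot of a round -/
lemma slot (θ : Θ) (p : Option R) (hp : G.tgt θ = p) (M : Multiset R) (j : Fin K) (T n : ℕ) :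
    HC (PR G ι) T (Sym.c ::ₘ mid G ι θ p M j) n ↔
      ∃ T' n', T = T' + 1 ∧ HC (PR G ι) T' (Sym.c ::ₘ
        (here (nx G θ j) + pend ι p (j.val + 1) + here (M.bind (gy G j.succ)))) n' ∧
        n = (outs (nx G θ j)).card + n' := by
  have hcm := c_not_mem_mid (S := S) G ι θ p M j
  by_cases hj : ∃ r, G.tgt θ = some r ∧ ι r = j
  · -- the pending helper demands
    obtain ⟨r, hr1, hr2⟩ := hj
    subst hp
    have hjv : (ι r).val = j.val := by rw [hr2]
    have hpend : pend (S := S) (Θ := Θ) ι (G.tgt θ) j.val = {Sym.h ⟨0, by omega⟩} := by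
      rw [hr1]
      simp [pend, hjv]
    have hpend' : pend (S := S) (Θ := Θ) ι (G.tgt θ) (j.val + 1) = 0 := by
      rw [hr1]
      simp [pend, hjv]
    have hmid : mid G ι θ (G.tgt θ) M j =
        Sym.h ⟨0, by omega⟩ ::ₘ (Sym.th θ j ::ₘ M.map (sy G K j.succ)) := by
      unfold mid
      rw [hpend, Multiset.singleton_add, Multiset.cons_swap]
    rw [hmid] at hcm ⊢
    have hcat : ∀ v', (some Sym.c, Sym.h ⟨0, by omega⟩, v') ∈ PR G ι ↔ v' = 0 := by
      intro v'
      rw [cat_h]
      simp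
    cases T with
    | zero =>
      constructor
      · intro h
        exact absurd h (hc_zero_demand G ι hcm ((hcat 0).2 rfl) n)
      · rintro ⟨T', n', h, -⟩
        omega
    | succ T =>
      rw [hc_demand G ι hcm (v := 0) (V := nx G θ j + M.bind (gy G j.succ))
        (fun v' h => (good_h0 G ι _ rfl v').1 h) hcat ?_]
      · rw [hpend']
        simp only [zero_add, here_add, outs_add, outs_bind_gy, add_zero]
        constructor
        · rintro ⟨n', h1, h2⟩
          exact ⟨T, n', rfl, h1, h2⟩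
        · rintro ⟨T', n', h0, h1, h2⟩
          have : T' = T := by omega
          subst this
          exact ⟨n', h1, h2⟩
      · intro V'
        rw [evo_cons]
        constructor
        · rintro ⟨v, V'', h1, h2, rfl⟩
          rw [good_th_t G ι θ j r hr1 hr2] at h1
          rw [evo_regs] at h2
          rw [h1, h2]
        · rintro rfl
          exact ⟨_, _, (good_th_t G ι θ j r hr1 hr2 _).2 rfl, (evo_regs G ι _ _ _).2 rfl, rfl⟩
  · -- the transition object demands
    have hj' : ∀ r, G.tgt θ = some r → ι r ≠ j := fun r h1 h2 => hj ⟨r, h1, h2⟩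
    have hcat : ∀ v', (some Sym.c, Sym.th θ j, v') ∈ PR G ι ↔ v' = nx G θ j := by
      intro v'
      rw [cat_th]
      exact ⟨fun h => h.2, fun h => ⟨hj', h⟩⟩
    have hev : ∃ H : Multiset (Sym S Θ R K × Fin 3),
        (∀ V', Evo (PR G ι) (pend ι p j.val) V' ↔ V' = H) ∧
        here H = pend ι p (j.val + 1) ∧ outs H = 0 := by
      cases p with
      | none => exact ⟨0, fun V' => by simp [pend, evo_zero], by simp [pend], by simp⟩
      | some r =>
        have hne : ι r ≠ j := hj' r hp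
        have hne' : (ι r).val ≠ j.val := fun h => hne (Fin.ext h)
        by_cases hlt : j.val < (ι r).val
        · have e1 : pend (S := S) (Θ := Θ) ι (some r) j.val =
              Sym.h ⟨(ι r).val - j.val, by omega⟩ ::ₘ 0 := by
            simp [pend, hlt.le]
          have e2 : pend (S := S) (Θ := Θ) ι (some r) (j.val + 1) =
              {Sym.h ⟨(ι r).val - (j.val + 1), by omega⟩} := by
            simp only [pend]
            rw [if_pos (by omega)]
          rw [e1, e2]
          refine ⟨{(Sym.h ⟨(ι r).val - (j.val + 1), by omega⟩, 0)}, ?_, by simp, by simp⟩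
          intro V'
          rw [evo_cons]
          constructor
          · rintro ⟨v, V'', h1, h2, rfl⟩
            rw [good_hs G ι _ ⟨(ι r).val - (j.val + 1), by omega⟩
              (by simp only; omega)] at h1
            rw [evo_zero] at h2
            rw [h1, h2, add_zero]
          · rintro rfl
            exact ⟨_, 0, (good_hs G ι _ ⟨(ι r).val - (j.val + 1), by omega⟩
              (by simp only; omega) _).2 rfl, evo_zero.2 rfl, by simp⟩
        · have e1 : pend (S := S) (Θ := Θ) ι (some r) j.val = 0 := by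
            simp only [pend]
            rw [if_neg (by omega)]
          have e2 : pend (S := S) (Θ := Θ) ι (some r) (j.val + 1) = 0 := by
            simp only [pend]
            rw [if_neg (by omega)]
          rw [e1, e2]
          exact ⟨0, fun V' => evo_zero, by simp, by simp⟩
    obtain ⟨H, hH1, hH2, hH3⟩ := hev
    have hcm' : Sym.c ∉ Sym.th θ j ::ₘ (pend ι p j.val + M.map (sy G K j.succ)) := hcm
    unfold mid
    cases T with
    | zero =>
      constructor
      · intro h
        exact absurd h (hc_zero_demand G ι hcm' ((hcat _).2 rfl) n)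
      · rintro ⟨T', n', h, -⟩
        omega
    | succ T =>
      rw [hc_demand G ι hcm' (v := nx G θ j) (V := H + M.bind (gy G j.succ))
        (fun v' h => (good_th_d G ι θ j hj' v').1 h) hcat ?_]
      · simp only [here_add, outs_add, outs_bind_gy, hH2, hH3, add_zero, add_assoc]
        constructor
        · rintro ⟨n', h1, h2⟩
          exact ⟨T, n', rfl, h1, h2⟩
        · rintro ⟨T', n', h0, h1, h2⟩
          have : T' = T := by omega
          subst this
          exact ⟨n', h1, h2⟩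
      · intro V'
        rw [evo_add]
        constructor
        · rintro ⟨V1, V2, k1, k2, rfl⟩
          rw [hH1] at k1
          rw [evo_regs] at k2
          rw [k1, k2]
        · rintro rfl
          exact ⟨_, _, (hH1 H).2 rfl, (evo_regs G ι j.succ M _).2 rfl, rfl⟩

/-- the configuration after a full round -/
def fc (θ : Θ) (M : Multiset R) : Multiset (Sym S Θ R K) :=
  Sym.c ::ₘ (nxs Θ R K (G.nxt θ) + (post G M + G.add θ).map (sy G K 0))

lemma here_fin (θ : Θ) : here (fin G K θ) =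
    nxs Θ R K (G.nxt θ) + (G.add θ).map (sy G K 0) := by
  unfold fin
  rw [here_add, here_add, here_map_zero, here_map_zero, Multiset.map_id']
  have : here (replicate (G.out θ) ((Sym.o, 1) : Sym S Θ R K × Fin 3)) = 0 := by
    induction G.out θ with
    | zero => simp
    | succ n ih => rw [Multiset.replicate_succ, here_cons_one, ih]
  rw [this, add_zero]

lemma outs_fin (θ : Θ) : (outs (fin G K θ)).card = G.out θ := by
  unfold fin
  rw [outs_add, outs_add, outs_map_zero, outs_map_zero]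
  have : outs (replicate (G.out θ) ((Sym.o, 1) : Sym S Θ R K × Fin 3)) =
      replicate (G.out θ) Sym.o := by
    induction G.out θ with
    | zero => simp
    | succ n ih => rw [Multiset.replicate_succ, outs_cons_one, ih, Multiset.replicate_succ]
  rw [this]
  simp

/-- the rest of a round -/
lemma path (hz : G.z ≠ G.y) (θ : Θ) (p : Option R) (hp : G.tgt θ = p) (M : Multiset R) (k : ℕ) :
    ∀ (j : Fin K), j.val + k + 1 = K → ∀ T n,
      (HC (PR G ι) T (Sym.c ::ₘ mid G ι θ p M j) n ↔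
        ∃ T' n', T = T' + (k + 1) ∧ HC (PR G ι) T' (fc G θ M) n' ∧ n = G.out θ + n') := by
  induction k with
  | zero =>
    intro j hj T n
    rw [slot G ι θ p hp M j T n]
    have hK : ¬ (j.val + 1 < K) := by omega
    have e1 : nx G θ j = fin G K θ := by
      unfold nx
      rw [dif_neg hK]
    have e2 : pend (S := S) (Θ := Θ) ι p (j.val + 1) = 0 := by
      unfold pend
      cases p with
      | none => rfl
      | some r =>
        simp only
        rw [if_neg (by have := (ι r).isLt; omega)]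
    have e3 : here (M.bind (gy (S := S) (Θ := Θ) G j.succ)) = (post G M).map (sy G K 0) :=
      here_bind_gy_K G hz _ (by simp; omega) M
    rw [e1, e2, e3, here_fin, outs_fin]
    have e4 : Sym.c ::ₘ (nxs Θ R K (G.nxt θ) + (G.add θ).map (sy G K 0) + 0 +
        (post G M).map (sy G K 0)) = fc G θ M := by
      unfold fc
      rw [Multiset.map_add]
      congr 1
      rw [add_zero, add_assoc]
      congr 1
      rw [add_comm]
    rw [e4]
  | succ k ih =>
    intro j hj T n
    rw [slot G ι θ p hp M j T n]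
    have hK : j.val + 1 < K := by omega
    have e1 : nx G θ j = {(Sym.th θ ⟨j.val + 1, hK⟩, 0)} := by
      unfold nx
      rw [dif_pos hK]
    have e3 := here_bind_gy_lt (S := S) (Θ := Θ) G j.succ (by simpa using hK) M
    rw [e1, e3]
    have e4 : Sym.c ::ₘ (here ({(Sym.th θ ⟨j.val + 1, hK⟩, 0)} : Multiset (Sym S Θ R K × Fin 3)) +
        pend ι p (j.val + 1) + M.map (sy G K ⟨j.succ.val + 1, by simp; omega⟩)) =
        Sym.c ::ₘ mid G ι θ p M ⟨j.val + 1, hK⟩ := by
      unfold mid
      rw [here_single_zero, add_assoc, Multiset.singleton_add]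
      rfl
    rw [e4]
    constructor
    · rintro ⟨T', n', rfl, h1, rfl⟩
      rw [ih ⟨j.val + 1, hK⟩ (by simp only; omega)] at h1
      obtain ⟨T'', n'', rfl, h2, rfl⟩ := h1
      exact ⟨T'', n'', by ring, h2, by simp⟩
    · rintro ⟨T', n', rfl, h1, rfl⟩
      refine ⟨T' + (k + 1), _, by ring, ?_, by simp; rfl⟩
      rw [ih ⟨j.val + 1, hK⟩ (by simp only; omega)]
      exact ⟨T', n', rfl, h1, rfl⟩

/-- a wrong helper leads to a conflict -/
lemma conflict (θ : Θ) (i : ℕ) : ∀ (i' j l : Fin K), i'.val = i → j.val + i = l.val →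
    (∀ r, G.tgt θ = some r → ι r ≠ l) → ∀ (X0 : Multiset (Sym S Θ R K)) (T n : ℕ),
    Sym.c ∉ X0 → Sym.th θ j ∈ X0 → Sym.h i' ∈ X0 → ¬ HC (PR G ι) T (Sym.c ::ₘ X0) n := by
  induction i with
  | zero =>
    intro i' j l hi' hl hr X0 T n hc h1 h2 h
    have hjl : j = l := Fin.ext (by omega)
    subst hjl
    cases T with
    | zero =>
      obtain ⟨h, -⟩ := h
      rw [halt_iff (PR_oneCat G ι) hc] at h
      exact h _ h1 _ _ ((cat_th G ι θ j _).2 ⟨hr, rfl⟩)
    | succ T =>
      obtain ⟨X', o, n', hs, hh, -⟩ := h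
      rw [step_iff (PR_oneCat G ι) hc] at hs
      obtain ⟨Y, rfl, hY⟩ := dec_form (PR_oneCat G ι) hc hs
      refine no_trap G ι T Y n' hY ?_ hh
      have key : ∀ a : Sym S Θ R K, (∀ v, Good (PR G ι) a v → v = {(Sym.trap, 0)}) →
          (∃ v, Good (PR G ι) a v ∧ here v ≤ Sym.c ::ₘ Y) → Sym.trap ∈ Y := by
        rintro a ha ⟨v, hv, hle⟩
        rw [ha v hv, here_single_zero, Multiset.singleton_le, Multiset.mem_cons] at hle
        rcases hle with hle | hle
        · simp at hle
        · exact hle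
      rcases dec_mem hs h1 h2 (by simp) with ⟨h3, h4⟩ | ⟨h3, h4⟩ | ⟨h3, h4⟩
      · exact key _ (fun v => (good_h0 G ι i' hi' v).1) h4
      · exact key _ (fun v => (good_h0 G ι i' hi' v).1) h4
      · exact key _ (fun v => (good_th_d G ι θ j hr v).1) h3
  | succ i ih =>
    intro i' j l hi' hl hr X0 T n hc h1 h2 h
    cases T with
    | zero =>
      obtain ⟨h, -⟩ := h
      rw [halt_iff (PR_oneCat G ι) hc] at h
      exact h _ h2 _ _ (PRule.hs i' ⟨i, by omega⟩ (by simp; omega))
    | succ T =>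
      obtain ⟨X', o, n', hs, hh, -⟩ := h
      rw [step_iff (PR_oneCat G ι) hc] at hs
      obtain ⟨Y, rfl, hY⟩ := dec_form (PR_oneCat G ι) hc hs
      have key : ∀ (b : Sym S Θ R K), b ≠ Sym.c → ∀ (v : Multiset (Sym S Θ R K × Fin 3)),
          v = {(b, 0)} → here v ≤ Sym.c ::ₘ Y → b ∈ Y := by
        rintro b hb v rfl hle
        rw [here_single_zero, Multiset.singleton_le, Multiset.mem_cons] at hle
        rcases hle with hle | hle
        · exact absurd hle hb
        · exact hle
      have hjK : j.val + 1 < K := by have := l.isLt; omega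
      have hnx : nx G θ j = {(Sym.th θ ⟨j.val + 1, hjK⟩, 0)} := by
        unfold nx
        rw [dif_pos hjK]
      have hH : (∃ v, Good (PR G ι) (Sym.h i') v ∧ here v ≤ Sym.c ::ₘ Y) →
          Sym.h ⟨i, by omega⟩ ∈ Y := by
        rintro ⟨v, hv, hle⟩
        rw [good_hs G ι i' ⟨i, by omega⟩ (by simp; omega)] at hv
        exact key _ (by simp) v hv hle
      have hT : (∃ v, Good (PR G ι) (Sym.th θ j) v ∧ here v ≤ Sym.c ::ₘ Y) →
          Sym.th θ ⟨j.val + 1, hjK⟩ ∈ Y ∨ Sym.trap ∈ Y := by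
        rintro ⟨v, hv, hle⟩
        by_cases hj : ∃ r, G.tgt θ = some r ∧ ι r = j
        · obtain ⟨r, hr1, hr2⟩ := hj
          rw [good_th_t G ι θ j r hr1 hr2, hnx] at hv
          exact Or.inl (key _ (by simp) v hv hle)
        · rw [good_th_d G ι θ j (fun r h1 h2 => hj ⟨r, h1, h2⟩)] at hv
          exact Or.inr (key _ (by simp) v hv hle)
      have hTc : (∃ v, (some Sym.c, Sym.th θ j, v) ∈ PR G ι ∧ here v ≤ Sym.c ::ₘ Y) →
          Sym.th θ ⟨j.val + 1, hjK⟩ ∈ Y ∨ Sym.trap ∈ Y := by
        rintro ⟨v, hv, hle⟩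
        rw [cat_th, hnx] at hv
        exact Or.inl (key _ (by simp) v hv.2 hle)
      have hfin : (Sym.th θ ⟨j.val + 1, hjK⟩ ∈ Y ∨ Sym.trap ∈ Y) → Sym.h ⟨i, by omega⟩ ∈ Y →
          False := by
        rintro (h3 | h3) h4
        · exact ih ⟨i, by omega⟩ ⟨j.val + 1, hjK⟩ l rfl (by simp; omega) hr Y T n' hY h3 h4 hh
        · exact no_trap G ι T Y n' hY h3 hh
      rcases dec_mem hs h1 h2 (by simp) with ⟨h3, h4⟩ | ⟨h3, h4⟩ | ⟨h3, h4⟩
      · exact hfin (hT h3) (hH h4)
      · exact hfin (hTc h3) (hH h4)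
      · obtain ⟨v, hv, -⟩ := h4
        rw [cat_h] at hv
        omega

lemma c_not_mem_start (s : S) (M : Multiset R) :
    (Sym.c : Sym S Θ R K) ∉ Sym.st s ::ₘ M.map (sy G K 0) := by
  rw [Multiset.mem_cons, not_or]
  exact ⟨by simp, c_not_mem_map G _ M⟩

lemma cat_sy (r : R) (v : Multiset (Sym S Θ R K × Fin 3)) :
    (some Sym.c, sy G K 0 r, v) ∈ PR G ι ↔ v = {(Sym.h (ι r), 0)} := by
  unfold sy
  by_cases hr : r = G.y
  · rw [if_pos hr, cat_y]
    subst hr
    simp
  · rw [if_neg hr, cat_w]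
    simp [hr]

lemma pend_zero (r : R) : pend (S := S) (Θ := Θ) ι (some r) 0 = {Sym.h (ι r)} := by
  simp [pend]

lemma c_mem_erase {X Y : Multiset (Sym S Θ R K)} (h : X ≤ Y) (hc : Sym.c ∉ Y) : Sym.c ∉ X :=
  fun h' => hc (Multiset.mem_of_le h h')

lemma sy_zero_ne_st (r : R) (s : S) : sy (Θ := Θ) G K 0 r ≠ Sym.st s := by
  unfold sy
  split_ifs <;> simp

lemma exists_waiting_noevo (r : R) (hr : r ≠ G.y) (v : Multiset (Sym S Θ R K × Fin 3)) :
    (none, sy G K 0 r, v) ∉ PR G ι := by
  unfold sy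
  rw [if_neg hr]
  intro h
  cases (h : PRule G ι _)

theorem macro_sound (hz : G.z ≠ G.y) {s : S} {M : Multiset R} {T n : ℕ}
    (hd : ∃ r ∈ M, r ≠ G.y)
    (h : HC (PR G ι) T (Sym.c ::ₘ Sym.st s ::ₘ M.map (sy G K 0)) n) :
    ∃ θ r T' n', G.src θ = s ∧ G.tgt θ = some r ∧ r ∈ M ∧ T' < T ∧
      HC (PR G ι) T' (fc G θ (M.erase r)) n' ∧ n = G.out θ + n' := by
  obtain ⟨d, hdM, hdy⟩ := hd
  have hK : 0 < K := by have := (ι d).isLt; omega
  have hc := c_not_mem_start (Θ := Θ) (K := K) G s M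
  cases T with
  | zero =>
    obtain ⟨h, -⟩ := h
    rw [halt_iff (PR_oneCat G ι) hc] at h
    exact absurd (PRule.fallback s) (h _ (Multiset.mem_cons_self _ _) _ _)
  | succ T =>
    obtain ⟨X', o, n', hs, hh, rfl⟩ := h
    rw [step_iff (PR_oneCat G ι) hc] at hs
    have hs0 := hs
    obtain ⟨Y, rfl, hY⟩ := dec_form (PR_oneCat G ι) hc hs
    rcases hs with ⟨a, X1, v, V, hX, hav, hE, he, ho⟩ | ⟨V, hE, hidle, -, -⟩
    · have ha : a ∈ Sym.st s ::ₘ M.map (sy G K 0) := by rw [hX]; simp
      rcases Multiset.mem_cons.1 ha with rfl | ha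
      · exact absurd hav (cat_st G ι s v)
      · obtain ⟨r, hr, rfl⟩ := Multiset.mem_map.1 ha
        obtain ⟨M', rfl⟩ := Multiset.exists_cons_of_mem hr
        rw [Multiset.map_cons, Multiset.cons_swap, Multiset.cons_inj_right] at hX
        subst hX
        rw [cat_sy] at hav
        subst hav
        rw [evo_cons] at hE
        obtain ⟨v1, V1, hv1, hV1, rfl⟩ := hE
        rw [evo_regs] at hV1
        rw [good_st G ι s ⟨0, hK⟩ rfl] at hv1
        rw [Multiset.cons_inj_right] at he
        subst hV1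
        rcases hv1 with rfl | ⟨θ, hθ, rfl⟩
        · exfalso
          refine no_trap G ι T Y n' hY ?_ hh
          rw [he]
          simp
        · have hYe : Y = Sym.th θ ⟨0, hK⟩ ::ₘ (pend ι (some r) 0 +
              M'.map (sy G K (Fin.succ ⟨0, hK⟩))) := by
            rw [he, here_add, here_add, here_single_zero, here_single_zero, pend_zero,
              here_bind_gy_lt G 0 (by simpa using hK)]
            rw [Multiset.singleton_add, Multiset.singleton_add, Multiset.singleton_add,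
              Multiset.cons_swap]
            rfl
          by_cases htr : G.tgt θ = some r
          · have hmid : Y = mid G ι θ (some r) M' ⟨0, hK⟩ := hYe
            rw [hmid, path G ι hz θ (some r) htr M' (K - 1) ⟨0, hK⟩ (by simp; omega)] at hh
            obtain ⟨T', n'', rfl, h1, rfl⟩ := hh
            refine ⟨θ, r, T', n'', hθ, htr, by simp, by omega, by simpa using h1, ?_⟩
            rw [ho]
            simp [outs_bind_gy]
          · exfalso
            refine conflict G ι θ (ι r).val (ι r) ⟨0, hK⟩ (ι r) rfl (by simp) ?_ Y T n' hY ?_ ?_ hh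
            · intro r' hr' he'
              have : r' = r := ι.injective he'
              subst this
              exact htr hr'
            · rw [hYe]; simp
            · rw [hYe, pend_zero]; simp
    · exfalso
      obtain ⟨v, hv⟩ := hidle (sy G K 0 d) (by simp; exact Or.inr ⟨d, hdM, rfl⟩)
        ⟨_, (cat_sy G ι d _).2 rfl⟩
      exact exists_waiting_noevo G ι d hdy v hv

theorem macro_complete (hz : G.z ≠ G.y) {θ : Θ} {r : R} {M : Multiset R} {T n : ℕ}
    (ht : G.tgt θ = some r) (hr : r ∈ M) (h : HC (PR G ι) T (fc G θ (M.erase r)) n) :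
    ∃ T', HC (PR G ι) T' (Sym.c ::ₘ Sym.st (G.src θ) ::ₘ M.map (sy G K 0)) (G.out θ + n) := by
  have hK : 0 < K := by have := (ι r).isLt; omega
  have hc := c_not_mem_start (Θ := Θ) (K := K) G (G.src θ) M
  obtain ⟨M', rfl⟩ := Multiset.exists_cons_of_mem hr
  rw [Multiset.erase_cons_head] at h
  have hp := (path G ι hz θ (some r) ht M' (K - 1) ⟨0, hK⟩ (by simp; omega)
    (T + (K - 1 + 1)) (G.out θ + n)).2 ⟨T, n, rfl, h, rfl⟩
  refine ⟨T + (K - 1 + 1) + 1, _, 0, _, ?_, hp, by simp⟩
  rw [step_iff (PR_oneCat G ι) hc]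
  left
  refine ⟨sy G K 0 r, Sym.st (G.src θ) ::ₘ M'.map (sy G K 0), {(Sym.h (ι r), 0)},
    {(Sym.th θ ⟨0, hK⟩, 0)} + M'.bind (gy G 0), ?_, (cat_sy G ι r _).2 rfl, ?_, ?_, ?_⟩
  · rw [Multiset.map_cons, Multiset.cons_swap]
  · rw [evo_cons]
    exact ⟨_, _, (good_st G ι _ ⟨0, hK⟩ rfl _).2 (Or.inr ⟨θ, rfl, rfl⟩),
      (evo_regs G ι _ _ _).2 rfl, rfl⟩
  · rw [here_add, here_add, here_single_zero, here_single_zero,
      here_bind_gy_lt G 0 (by simpa using hK)]
    unfold mid
    rw [pend_zero, Multiset.singleton_add, Multiset.singleton_add, Multiset.singleton_add]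
    congr 1
    rw [Multiset.cons_swap]
    rfl
  · simp [outs_bind_gy]

theorem fin_sound (hz : G.z ≠ G.y) (hK : 0 < K) {s : S} {M : Multiset R} {T n : ℕ}
    (hs : ∀ θ, G.src θ = s → G.tgt θ = none)
    (h : HC (PR G ι) T (Sym.c ::ₘ Sym.st s ::ₘ M.map (sy G K 0)) n) :
    (∀ r ∈ M, r = G.y) ∧ ∃ θ T' n', G.src θ = s ∧ T' < T ∧ HC (PR G ι) T' (fc G θ M) n' ∧
      n = G.out θ + n' := by
  have hc := c_not_mem_start (Θ := Θ) (K := K) G s M
  cases T with
  | zero =>
    obtain ⟨h, -⟩ := h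
    rw [halt_iff (PR_oneCat G ι) hc] at h
    exact absurd (PRule.fallback s) (h _ (Multiset.mem_cons_self _ _) _ _)
  | succ T =>
    obtain ⟨X', o, n', hst, hh, rfl⟩ := h
    rw [step_iff (PR_oneCat G ι) hc] at hst
    obtain ⟨Y, rfl, hY⟩ := dec_form (PR_oneCat G ι) hc hst
    rcases hst with ⟨a, X1, v, V, hX, hav, hE, he, ho⟩ | ⟨V, hE, hidle, he, ho⟩
    · exfalso
      have ha : a ∈ Sym.st s ::ₘ M.map (sy G K 0) := by rw [hX]; simp
      rcases Multiset.mem_cons.1 ha with rfl | ha
      · exact absurd hav (cat_st G ι s v)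
      · obtain ⟨r, hr, rfl⟩ := Multiset.mem_map.1 ha
        obtain ⟨M', rfl⟩ := Multiset.exists_cons_of_mem hr
        rw [Multiset.map_cons, Multiset.cons_swap, Multiset.cons_inj_right] at hX
        subst hX
        rw [cat_sy] at hav
        subst hav
        rw [evo_cons] at hE
        obtain ⟨v1, V1, hv1, hV1, rfl⟩ := hE
        rw [good_st G ι s ⟨0, hK⟩ rfl] at hv1
        rw [Multiset.cons_inj_right] at he
        rcases hv1 with rfl | ⟨θ, hθ, rfl⟩
        · refine no_trap G ι T Y n' hY ?_ hh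
          rw [he]
          simp
        · refine conflict G ι θ (ι r).val (ι r) ⟨0, hK⟩ (ι r) rfl (by simp) ?_ Y T n' hY ?_ ?_ hh
          · intro r' hr' he'
            rw [hs θ hθ] at hr'
            simp at hr'
          · rw [he]; simp
          · rw [he]; simp
    · have hall : ∀ r ∈ M, r = G.y := by
        intro r hr
        by_contra hne
        obtain ⟨v, hv⟩ := hidle (sy G K 0 r) (by simp; exact Or.inr ⟨r, hr, rfl⟩)
          ⟨_, (cat_sy G ι r _).2 rfl⟩
        exact exists_waiting_noevo G ι r hne v hv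
      refine ⟨hall, ?_⟩
      rw [evo_cons] at hE
      obtain ⟨v1, V1, hv1, hV1, rfl⟩ := hE
      rw [evo_regs] at hV1
      rw [good_st G ι s ⟨0, hK⟩ rfl] at hv1
      rw [Multiset.cons_inj_right] at he
      subst hV1
      rcases hv1 with rfl | ⟨θ, hθ, rfl⟩
      · exfalso
        refine no_trap G ι T Y n' hY ?_ hh
        rw [he]
        simp
      · have hYe : Y = mid G ι θ none M ⟨0, hK⟩ := by
          rw [he, here_add, here_single_zero, here_bind_gy_lt G 0 (by simpa using hK)]
          unfold mid pend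
          rw [Multiset.singleton_add, zero_add]
          rfl
        rw [hYe, path G ι hz θ none (hs θ hθ) M (K - 1) ⟨0, hK⟩ (by simp; omega)] at hh
        obtain ⟨T', n'', rfl, h1, rfl⟩ := hh
        refine ⟨θ, T', n'', hθ, by omega, h1, ?_⟩
        rw [ho]
        simp [outs_bind_gy]

theorem fin_complete (hz : G.z ≠ G.y) (hK : 0 < K) {θ : Θ} {M : Multiset R} {T n : ℕ}
    (ht : G.tgt θ = none) (hM : ∀ r ∈ M, r = G.y) (h : HC (PR G ι) T (fc G θ M) n) :
    ∃ T', HC (PR G ι) T' (Sym.c ::ₘ Sym.st (G.src θ) ::ₘ M.map (sy G K 0)) (G.out θ + n) := by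
  have hc := c_not_mem_start (Θ := Θ) (K := K) G (G.src θ) M
  have hp := (path G ι hz θ none ht M (K - 1) ⟨0, hK⟩ (by simp; omega)
    (T + (K - 1 + 1)) (G.out θ + n)).2 ⟨T, n, rfl, h, rfl⟩
  refine ⟨T + (K - 1 + 1) + 1, _, 0, _, ?_, hp, by simp⟩
  rw [step_iff (PR_oneCat G ι) hc]
  right
  refine ⟨{(Sym.th θ ⟨0, hK⟩, 0)} + M.bind (gy G 0), ?_, ?_, ?_, ?_⟩
  · rw [evo_cons]
    exact ⟨_, _, (good_st G ι _ ⟨0, hK⟩ rfl _).2 (Or.inr ⟨θ, rfl, rfl⟩),
      (evo_regs G ι _ _ _).2 rfl, rfl⟩
  · rintro a ha ⟨v, hv⟩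
    rcases Multiset.mem_cons.1 ha with rfl | ha
    · exact absurd hv (cat_st G ι _ v)
    · obtain ⟨r, hr, rfl⟩ := Multiset.mem_map.1 ha
      have := hM r hr
      subst this
      refine ⟨{(Sym.y ⟨1, by omega⟩, 0)}, ?_⟩
      unfold sy
      rw [if_pos rfl]
      exact PRule.ys 0 ⟨1, by omega⟩ (by simp)
  · rw [here_add, here_single_zero, here_bind_gy_lt G 0 (by simpa using hK)]
    unfold mid pend
    rw [Multiset.singleton_add, zero_add]
    rfl
  · simp [outs_bind_gy]

end analysis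

end Pool.Agent.Helper74
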