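import Mathlib
import Pool.Agent.Helper74.PSys

set_option autoImplicit false
set_option linter.unusedSectionVars false

namespace Pool.Agent.Helper74

open Multiset

/-- A blind alphabet: each letter removes one register object and adds some. -/
structure Blind (B R : Type) where
  tgt : B → R
  add : B → Multiset R
  out : B → ℕ
  z : R
  y : R
  d : R
  hzy : z ≠ y
  hdy : d ≠ y
  hd : ∀ b, tgt b = d → d ∈ add b

variable {B R : Type} [DecidableEq B] [DecidableEq R]

/-- growth -/
def bpost (A : Blind B R) (M : Multiset R) : Multiset R := M + replicate (2 * M.count A.y) A.z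

/-- one blind step -/
def bstep (A : Blind B R) (b : B) (M M' : Multiset R) : Prop :=
  A.tgt b ∈ M ∧ M' = bpost A (M.erase (A.tgt b)) + A.add b

/-- a blind run -/
def brun (A : Blind B R) : List B → Multiset R → Multiset R → ℕ → Prop
  | [], M, M', n => M = M' ∧ n = 0
  | b :: w, M, M', n => ∃ M1 n1, bstep A b M M1 ∧ brun A w M1 M' n1 ∧ n = A.out b + n1

lemma mem_of_bstep {A : Blind B R} {b : B} {M M' : Multiset R} (hM : A.d ∈ M)
    (h : bstep A b M M') : A.d ∈ M' := by
  obtain ⟨h1, rfl⟩ := h
  rw [Multiset.mem_add]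
  by_cases hb : A.tgt b = A.d
  · exact Or.inr (A.hd b hb)
  · left
    unfold bpost
    rw [Multiset.mem_add]
    left
    exact (Multiset.mem_erase_of_ne (Ne.symm hb)).2 hM

variable {σ : Type} [DecidableEq σ]

/-- the control graph of an automaton -/
def ctl (A : Blind B R) (D : DFA B σ) : Ctl (Option σ) ((σ × B) ⊕ (Option D.accept)) R where
  src := fun θ => match θ with
    | Sum.inl p => some p.1
    | Sum.inr (some q) => some q.1
    | Sum.inr none => none
  tgt := fun θ => match θ with
    | Sum.inl p => some (A.tgt p.2)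
    | Sum.inr (some _) => some A.d
    | Sum.inr none => none
  nxt := fun θ => match θ with
    | Sum.inl p => some (some (D.step p.1 p.2))
    | Sum.inr (some _) => some none
    | Sum.inr none => none
  add := fun θ => match θ with
    | Sum.inl p => A.add p.2
    | Sum.inr (some _) => 0
    | Sum.inr none => 0
  out := fun θ => match θ with
    | Sum.inl p => A.out p.2
    | Sum.inr (some _) => 0
    | Sum.inr none => 0
  z := A.z
  y := A.y

lemma hc_c {K : ℕ} {S Θ : Type} [DecidableEq S] [DecidableEq Θ] (G : Ctl S Θ R)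
    (ι : R ≃ Fin K) (T : ℕ) : ∀ n, HC (PR G ι) T (Sym.c ::ₘ 0) n ↔ n = 0 := by
  induction T with
  | zero =>
    intro n
    constructor
    · rintro ⟨-, h⟩; exact h
    · rintro rfl
      refine ⟨?_, rfl⟩
      rw [halt_iff (PR_oneCat G ι) (by simp)]
      simp
  | succ T ih =>
    intro n
    constructor
    · rintro ⟨X', o, n', hs, hh, rfl⟩
      rw [step_iff (PR_oneCat G ι) (by simp)] at hs
      rcases hs with ⟨a, X1, v, V, hX, -⟩ | ⟨V, hE, -, rfl, rfl⟩
      · exact absurd hX (Multiset.zero_ne_cons)
      · rw [evo_zero] at hE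
        subst hE
        rw [here_zero, ih] at hh
        simp [hh]
    · rintro rfl
      refine ⟨Sym.c ::ₘ 0, 0, 0, ?_, (ih 0).2 rfl, rfl⟩
      rw [step_iff (PR_oneCat G ι) (by simp)]
      right
      exact ⟨0, evo_zero.2 rfl, by simp, by simp, by simp⟩

theorem dfa_sound (A : Blind B R) (D : DFA B σ) {K : ℕ} (ι : R ≃ Fin K)
    [DecidableEq D.accept] (T : ℕ) :
    ∀ (q : σ) (M : Multiset R) (n : ℕ), A.d ∈ M →
      HC (PR (ctl A D) ι) T (Sym.c ::ₘ Sym.st (some q) ::ₘ M.map (sy (ctl A D) K 0)) n →
      ∃ w, D.evalFrom q w ∈ D.accept ∧ brun A w M {A.d} n := by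
  induction T using Nat.strong_induction_on with
  | _ T IH =>
    intro q M n hM h
    have hK : 0 < K := by have := (ι A.d).isLt; omega
    obtain ⟨θ, r, T', n', hsrc, htgt, hrM, hT, hh, rfl⟩ :=
      macro_sound (ctl A D) ι A.hzy ⟨A.d, hM, A.hdy⟩ h
    rcases θ with ⟨q', b⟩ | (_ | q')
    · -- ordinary transition
      simp only [ctl, Option.some.injEq] at hsrc htgt
      subst hsrc htgt
      have hst : bstep A b M (bpost A (M.erase (A.tgt b)) + A.add b) := ⟨hrM, rfl⟩
      have hfc : fc (K := K) (ctl A D) (Sum.inl (q', b)) (M.erase (A.tgt b)) =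
          Sym.c ::ₘ Sym.st (some (D.step q' b)) ::ₘ
            (bpost A (M.erase (A.tgt b)) + A.add b).map (sy (ctl A D) K 0) := by
        unfold fc nxs
        simp only [ctl, post, bpost]
        rw [Multiset.singleton_add]
      rw [hfc] at hh
      obtain ⟨w, hw1, hw2⟩ := IH T' hT (D.step q' b) _ n' (mem_of_bstep hM hst) hh
      exact ⟨b :: w, hw1, _, n', hst, hw2, rfl⟩
    · simp [ctl] at hsrc
    · simp only [ctl, Option.some.injEq] at hsrc htgt
      subst hsrc htgt
      have hfc : fc (K := K) (ctl A D) (Sum.inr (some q')) (M.erase A.d) =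
          Sym.c ::ₘ Sym.st none ::ₘ
            (bpost A (M.erase A.d)).map (sy (ctl A D) K 0) := by
        unfold fc nxs
        simp only [ctl, post, bpost]
        rw [Multiset.singleton_add, add_zero]
      rw [hfc] at hh
      have hs : ∀ θ, (ctl A D).src θ = none → (ctl A D).tgt θ = none := by
        rintro (⟨q', b⟩ | (_ | q'')) hθ
        · simp [ctl] at hθ
        · rfl
        · simp [ctl] at hθ
      obtain ⟨hall, θ', T'', n'', hsrc', hT', hh', rfl⟩ :=
        fin_sound (ctl A D) ι A.hzy hK hs hh
      have hcount : (M.erase A.d).count A.y = 0 := by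
        by_contra hne
        have : A.z ∈ bpost A (M.erase A.d) := by
          unfold bpost
          rw [Multiset.mem_add]
          right
          rw [Multiset.mem_replicate]
          exact ⟨by omega, rfl⟩
        exact A.hzy (hall _ this)
      have hM0 : M.erase A.d = 0 := by
        rw [Multiset.eq_zero_iff_forall_notMem]
        intro r hr
        have : r = A.y := hall r (by
          unfold bpost
          rw [Multiset.mem_add]
          exact Or.inl hr)
        subst this
        exact (Multiset.count_eq_zero.1 hcount) hr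
      have hMd : M = {A.d} := by
        have := Multiset.cons_erase hM
        rw [hM0] at this
        exact this.symm
      subst hMd
      refine ⟨[], q'.2, rfl, ?_⟩
      rcases θ' with ⟨q'', b⟩ | (_ | q'')
      · simp [ctl] at hsrc'
      · have hfc' : fc (K := K) (ctl A D) (Sum.inr none) (bpost A (({A.d} : Multiset R).erase A.d)) =
            Sym.c ::ₘ 0 := by
          unfold fc nxs
          rw [hM0]
          simp [ctl, post, bpost]
        rw [hfc', hc_c] at hh'
        simp [ctl, hh']
      · simp [ctl] at hsrc'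

theorem dfa_complete (A : Blind B R) (D : DFA B σ) {K : ℕ} (ι : R ≃ Fin K)
    [DecidableEq D.accept] (w : List B) :
    ∀ (q : σ) (M : Multiset R) (n : ℕ), A.d ∈ M → D.evalFrom q w ∈ D.accept →
      brun A w M {A.d} n →
      ∃ T, HC (PR (ctl A D) ι) T
        (Sym.c ::ₘ Sym.st (some q) ::ₘ M.map (sy (ctl A D) K 0)) n := by
  have hK : 0 < K := by have := (ι A.d).isLt; omega
  induction w with
  | nil =>
    rintro q M n hM hq ⟨rfl, rfl⟩
    have h0 : HC (PR (ctl A D) ι) 0 (fc (K := K) (ctl A D) (Sum.inr none) 0) 0 := by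
      have : fc (K := K) (ctl A D) (Sum.inr none) 0 = Sym.c ::ₘ 0 := by
        unfold fc nxs
        simp [ctl, post]
      rw [this, hc_c]
    obtain ⟨T1, h1⟩ := fin_complete (ctl A D) ι A.hzy hK (θ := Sum.inr none) rfl
      (by simp) h0
    have h2 : HC (PR (ctl A D) ι) T1
        (fc (K := K) (ctl A D) (Sum.inr (some ⟨q, hq⟩)) (({A.d} : Multiset R).erase A.d)) 0 := by
      have : fc (K := K) (ctl A D) (Sum.inr (some ⟨q, hq⟩)) (({A.d} : Multiset R).erase A.d) =
          Sym.c ::ₘ Sym.st ((ctl A D).src (Sum.inr none)) ::ₘ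
            (0 : Multiset R).map (sy (ctl A D) K 0) := by
        unfold fc nxs
        simp [ctl, post]
      rw [this]
      simpa [ctl] using h1
    obtain ⟨T2, h3⟩ := macro_complete (ctl A D) ι A.hzy
      (θ := Sum.inr (some ⟨q, hq⟩)) (r := A.d) rfl (by simp) h2
    exact ⟨T2, by simpa [ctl] using h3⟩
  | cons b w ih =>
    rintro q M n hM hq ⟨M1, n1, hst, hrun, rfl⟩
    obtain ⟨T1, h1⟩ := ih (D.step q b) M1 n1 (mem_of_bstep hM hst) hq hrun
    have h2 : HC (PR (ctl A D) ι) T1
        (fc (K := K) (ctl A D) (Sum.inl (q, b)) (M.erase (A.tgt b))) n1 := by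
      have : fc (K := K) (ctl A D) (Sum.inl (q, b)) (M.erase (A.tgt b)) =
          Sym.c ::ₘ Sym.st (some (D.step q b)) ::ₘ M1.map (sy (ctl A D) K 0) := by
        unfold fc nxs
        rw [hst.2]
        simp only [ctl, post, bpost]
        rw [Multiset.singleton_add]
      rw [this]
      exact h1
    obtain ⟨T2, h3⟩ := macro_complete (ctl A D) ι A.hzy
      (θ := Sum.inl (q, b)) (r := A.tgt b) rfl hst.1 h2
    exact ⟨T2, by simpa [ctl] using h3⟩

end Pool.Agent.Helper74
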