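import Mathlib
import Pool.Agent.Helper74.Compile
import Pool.Agent.Helper74.PDfa

set_option autoImplicit false
set_option linter.unusedSectionVars false
set_option linter.unusedSimpArgs false

namespace Pool.Agent.Helper74

open Multiset Function

/-- registers of the blind machine -/
inductive Reg (K : ℕ) : Type
  | d : Reg K
  | z : Reg K
  | y : Reg K
  | kap : Reg K
  | a (i : Fin (K + 1)) : Reg K
  | abar (i : Fin (K + 1)) : Reg K
  deriving DecidableEq, Fintype

/-- letters of the blind machine -/
inductive BL (K : ℕ) : Type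
  | start : BL K
  | nop : BL K
  | decY : BL K
  | io : BL K
  | inc (i : Fin (K + 1)) : BL K
  | dec (i : Fin (K + 1)) : BL K
  | kap : BL K
  | z : BL K
  | drA (i : Fin (K + 1)) : BL K
  | drB (i : Fin (K + 1)) : BL K
  deriving DecidableEq, Fintype

/-- the removed register -/
def btgt {K : ℕ} : BL K → Reg K
  | BL.start => Reg.d
  | BL.nop => Reg.d
  | BL.decY => Reg.y
  | BL.io => Reg.abar 0
  | BL.inc i => Reg.abar i
  | BL.dec i => Reg.a i
  | BL.kap => Reg.kap
  | BL.z => Reg.z
  | BL.drA i => Reg.a i
  | BL.drB i => Reg.abar i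

/-- the added registers -/
def badd {K : ℕ} : BL K → Multiset (Reg K)
  | BL.start => {Reg.d, Reg.kap, Reg.y} + (Finset.univ : Finset (Fin (K + 1))).val.map Reg.abar
  | BL.nop => {Reg.d}
  | BL.decY => 0
  | BL.io => {Reg.a 0}
  | BL.inc i => {Reg.a i}
  | BL.dec i => {Reg.abar i}
  | BL.kap => 0
  | BL.z => 0
  | BL.drA _ => 0
  | BL.drB _ => 0

/-- the output of a letter -/
def bout {K : ℕ} : BL K → ℕ
  | BL.io => 1
  | _ => 0

/-- the blind alphabet -/
def BA (K : ℕ) : Blind (BL K) (Reg K) where
  tgt := btgt
  add := badd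
  out := bout
  z := Reg.z
  y := Reg.y
  d := Reg.d
  hzy := by simp
  hdy := by simp
  hd := by
    intro b hb
    cases b <;> simp [btgt, badd] at hb ⊢

/-- step semantics with output counter -/
def bs (K : ℕ) (b : BL K) (s t : Multiset (Reg K) × ℕ) : Prop :=
  bstep (BA K) b s.1 t.1 ∧ t.2 = s.2 + bout b

lemma brun_iff {K : ℕ} (w : List (BL K)) : ∀ (M M' : Multiset (Reg K)) (k n : ℕ),
    brun (BA K) w M M' n ↔ Prg.wrun (bs K) w (M, k) (M', k + n) := by
  induction w with
  | nil =>
    intro M M' k n
    simp only [brun, Prg.wrun, Prod.mk.injEq]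
    constructor
    · rintro ⟨rfl, rfl⟩; exact ⟨rfl, rfl⟩
    · rintro ⟨rfl, h⟩; exact ⟨rfl, by omega⟩
  | cons b w ih =>
    intro M M' k n
    simp only [brun, Prg.wrun]
    constructor
    · rintro ⟨M1, n1, h1, h2, rfl⟩
      refine ⟨(M1, k + bout b), ⟨h1, rfl⟩, ?_⟩
      have := (ih M1 M' (k + bout b) n1).1 h2
      rw [add_assoc] at this
      exact this
    · rintro ⟨⟨M1, k1⟩, ⟨h1, h2⟩, h3⟩
      simp only at h1 h2
      subst h2
      -- the counter never decreases
      have hmono : ∀ (w : List (BL K)) (M M' : Multiset (Reg K)) (k k' : ℕ),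
          Prg.wrun (bs K) w (M, k) (M', k') → k ≤ k' := by
        intro w
        induction w with
        | nil => intro M M' k k' h; simp only [Prg.wrun, Prod.mk.injEq] at h; omega
        | cons b w ih2 =>
          rintro M M' k k' ⟨⟨M2, k2⟩, ⟨_, h5⟩, h6⟩
          have := ih2 _ _ _ _ h6
          simp only at h5
          omega
      have hle := hmono _ _ _ _ _ h3
      obtain ⟨n1, hn1⟩ := Nat.exists_eq_add_of_le hle
      refine ⟨M1, n1, h1, ?_, ?_⟩
      · rw [ih M1 M' (k + bout b) n1, ← hn1]
        exact h3
      · show n = bout b + n1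
        omega

section counts

variable {K : ℕ}

lemma bstep_iff (b : BL K) (M M' : Multiset (Reg K)) :
    bstep (BA K) b M M' ↔ 0 < M.count (btgt b) ∧
      ∀ r, M'.count r = (M.count r - if r = btgt b then 1 else 0) +
        (if r = Reg.z then 2 * (M.count Reg.y - if Reg.y = btgt b then 1 else 0) else 0) +
        (badd b).count r := by
  have hcount : ∀ r, (bpost (BA K) (M.erase (btgt b)) + badd b).count r =
      (M.count r - if r = btgt b then 1 else 0) +
        (if r = Reg.z then 2 * (M.count Reg.y - if Reg.y = btgt b then 1 else 0) else 0) +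
        (badd b).count r := by
    intro r
    unfold bpost
    rw [Multiset.count_add, Multiset.count_add]
    congr 1
    have e : ∀ r', (M.erase (btgt b)).count r' = M.count r' - if r' = btgt b then 1 else 0 := by
      intro r'
      by_cases h : r' = btgt b
      · subst h; rw [if_pos rfl, Multiset.count_erase_self]
      · rw [if_neg h, Multiset.count_erase_of_ne h, Nat.sub_zero]
    rw [e r]
    congr 1
    have e2 : (BA K).y = Reg.y := rfl
    have e3 : (BA K).z = Reg.z := rfl
    rw [e2, e3, e Reg.y, Multiset.count_replicate]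
    by_cases h : r = Reg.z
    · subst h; simp
    · rw [if_neg h, if_neg (fun h' => h h'.symm)]
  constructor
  · rintro ⟨h1, h2⟩
    refine ⟨Multiset.count_pos.2 h1, fun r => ?_⟩
    rw [h2]
    exact hcount r
  · rintro ⟨h1, h2⟩
    refine ⟨Multiset.count_pos.1 h1, ?_⟩
    ext r
    rw [h2 r]
    exact (hcount r).symm

/-- the counts of a configuration -/
@[ext] structure Vw (K : ℕ) where
  d : ℕ
  z : ℕ
  y : ℕ
  k : ℕ
  a : Fin (K + 1) → ℕ
  b : Fin (K + 1) → ℕ

/-- the view of a multiset -/
def view (M : Multiset (Reg K)) : Vw K where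
  d := M.count Reg.d
  z := M.count Reg.z
  y := M.count Reg.y
  k := M.count Reg.kap
  a := fun i => M.count (Reg.a i)
  b := fun i => M.count (Reg.abar i)

lemma view_inj : Function.Injective (view (K := K)) := by
  intro M M' h
  ext r
  have := congrArg Vw.d h
  have := congrArg Vw.z h
  have := congrArg Vw.y h
  have := congrArg Vw.k h
  have h5 := congrArg Vw.a h
  have h6 := congrArg Vw.b h
  cases r with
  | d => assumption
  | z => assumption
  | y => assumption
  | kap => assumption
  | a i => exact congrFun h5 i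
  | abar i => exact congrFun h6 i

lemma count_sum_single {ι : Type} [Fintype ι] [DecidableEq ι] {β : Type} [DecidableEq β]
    (f : ι → ℕ) (g : ι → β) (hg : Function.Injective g) (i : ι) :
    (∑ j, replicate (f j) (g j)).count (g i) = f i := by
  rw [Multiset.count_sum']
  rw [Finset.sum_eq_single i]
  · simp
  · intro j _ hj
    rw [Multiset.count_replicate, if_neg (fun h => hj (hg h))]
  · simp

lemma count_sum_none {ι : Type} [Fintype ι] {β : Type} [DecidableEq β]
    (f : ι → ℕ) (g : ι → β) (r : β) (hr : ∀ j, g j ≠ r) :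
    (∑ j, replicate (f j) (g j)).count r = 0 := by
  rw [Multiset.count_sum']
  apply Finset.sum_eq_zero
  intro j _
  rw [Multiset.count_replicate, if_neg (hr j)]

lemma view_surj : Function.Surjective (view (K := K)) := by
  rintro ⟨d, z, y, k, a, b⟩
  refine ⟨replicate d Reg.d + replicate z Reg.z + replicate y Reg.y + replicate k Reg.kap +
    (∑ j, replicate (a j) (Reg.a j)) + (∑ j, replicate (b j) (Reg.abar j)), ?_⟩
  have ia : Function.Injective (Reg.a (K := K)) := fun i j h => by simpa using h
  have ib : Function.Injective (Reg.abar (K := K)) := fun i j h => by simpa using h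
  unfold view
  simp only [Multiset.count_add, Multiset.count_replicate]
  ext i
  · simp [count_sum_none]
  · simp [count_sum_none]
  · simp [count_sum_none]
  · simp [count_sum_none]
  · have h1 := count_sum_single a Reg.a ia i
    have h2 := count_sum_none b Reg.abar (Reg.a i) (by simp)
    dsimp only
    rw [h1, h2]
    simp
  · have h1 := count_sum_single b Reg.abar ib i
    have h2 := count_sum_none a Reg.a (Reg.abar i) (by simp)
    dsimp only
    rw [h1, h2]
    simp

/-- step on views -/
def vstep : BL K → Vw K → Vw K → Prop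
  | BL.start => fun s t => 0 < s.d ∧ t = ⟨s.d, s.z + 2 * s.y, s.y + 1, s.k + 1, s.a,
      fun j => s.b j + 1⟩
  | BL.nop => fun s t => 0 < s.d ∧ t = ⟨s.d, s.z + 2 * s.y, s.y, s.k, s.a, s.b⟩
  | BL.decY => fun s t => 0 < s.y ∧ t = ⟨s.d, s.z + 2 * (s.y - 1), s.y - 1, s.k, s.a, s.b⟩
  | BL.io => fun s t => 0 < s.b 0 ∧ t = ⟨s.d, s.z + 2 * s.y, s.y, s.k,
      update s.a 0 (s.a 0 + 1), update s.b 0 (s.b 0 - 1)⟩
  | BL.inc i => fun s t => 0 < s.b i ∧ t = ⟨s.d, s.z + 2 * s.y, s.y, s.k,
      update s.a i (s.a i + 1), update s.b i (s.b i - 1)⟩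
  | BL.dec i => fun s t => 0 < s.a i ∧ t = ⟨s.d, s.z + 2 * s.y, s.y, s.k,
      update s.a i (s.a i - 1), update s.b i (s.b i + 1)⟩
  | BL.kap => fun s t => 0 < s.k ∧ t = ⟨s.d, s.z + 2 * s.y, s.y, s.k - 1, s.a, s.b⟩
  | BL.z => fun s t => 0 < s.z ∧ t = ⟨s.d, s.z - 1 + 2 * s.y, s.y, s.k, s.a, s.b⟩
  | BL.drA i => fun s t => 0 < s.a i ∧ t = ⟨s.d, s.z + 2 * s.y, s.y, s.k,
      update s.a i (s.a i - 1), s.b⟩
  | BL.drB i => fun s t => 0 < s.b i ∧ t = ⟨s.d, s.z + 2 * s.y, s.y, s.k,
      s.a, update s.b i (s.b i - 1)⟩

lemma count_map_abar (j : Fin (K + 1)) :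
    ((Finset.univ : Finset (Fin (K + 1))).val.map Reg.abar).count (Reg.abar j) = 1 := by
  rw [Multiset.count_map_eq_count' _ _ (fun i j h => by simpa using h)]
  exact Multiset.count_eq_one_of_mem Finset.univ.nodup (Finset.mem_univ j)

lemma count_map_abar_ne (r : Reg K) (hr : ∀ j, Reg.abar j ≠ r) :
    ((Finset.univ : Finset (Fin (K + 1))).val.map Reg.abar).count r = 0 := by
  rw [Multiset.count_eq_zero]
  intro h
  obtain ⟨j, -, hj⟩ := Multiset.mem_map.1 h
  exact hr j hj

lemma all_reg_iff (p : Reg K → Prop) : (∀ r, p r) ↔ p Reg.d ∧ p Reg.z ∧ p Reg.y ∧ p Reg.kap ∧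
    (∀ i, p (Reg.a i)) ∧ (∀ i, p (Reg.abar i)) := by
  constructor
  · intro h
    exact ⟨h _, h _, h _, h _, fun i => h _, fun i => h _⟩
  · rintro ⟨h1, h2, h3, h4, h5, h6⟩ r
    cases r with
    | d => exact h1
    | z => exact h2
    | y => exact h3
    | kap => exact h4
    | a i => exact h5 i
    | abar i => exact h6 i

lemma bstep_view (b : BL K) (M M' : Multiset (Reg K)) :
    bstep (BA K) b M M' ↔ vstep b (view M) (view M') := by
  rw [bstep_iff, all_reg_iff]
  cases b with
  | start =>
    have c1 : (badd (K := K) BL.start).count Reg.d = 1 := by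
      unfold badd
      rw [Multiset.count_add, count_map_abar_ne _ (by simp)]
      simp [Multiset.count_cons, Multiset.count_singleton]
    have c2 : (badd (K := K) BL.start).count Reg.z = 0 := by
      unfold badd
      rw [Multiset.count_add, count_map_abar_ne _ (by simp)]
      simp [Multiset.count_cons, Multiset.count_singleton]
    have c3 : (badd (K := K) BL.start).count Reg.y = 1 := by
      unfold badd
      rw [Multiset.count_add, count_map_abar_ne _ (by simp)]
      simp [Multiset.count_cons, Multiset.count_singleton]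
    have c4 : (badd (K := K) BL.start).count Reg.kap = 1 := by
      unfold badd
      rw [Multiset.count_add, count_map_abar_ne _ (by simp)]
      simp [Multiset.count_cons, Multiset.count_singleton]
    have c5 : ∀ i, (badd (K := K) BL.start).count (Reg.a i) = 0 := by
      intro i
      unfold badd
      rw [Multiset.count_add, count_map_abar_ne _ (by simp)]
      simp [Multiset.count_cons, Multiset.count_singleton]
    have c6 : ∀ i, (badd (K := K) BL.start).count (Reg.abar i) = 1 := by
      intro i
      unfold badd
      rw [Multiset.count_add, count_map_abar]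
      simp [Multiset.count_cons, Multiset.count_singleton]
    rw [c1, c2, c3, c4]
    simp only [c5, c6, vstep, btgt, view, Vw.ext_iff, funext_iff]
    simp
    intro h h1 h2 h3 h4 h5
    omega
  | nop =>
    simp only [vstep, btgt, badd, view, Vw.ext_iff, funext_iff, Multiset.count_add]
    simp [Multiset.count_singleton]
    intro h h1 h2 h3 h4 h5
    omega
  | decY =>
    simp only [vstep, btgt, badd, view, Vw.ext_iff, funext_iff]
    simp
  | io =>
    simp only [vstep, btgt, badd, view, Vw.ext_iff, funext_iff]
    simp [Multiset.count_singleton, update_apply]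
    intro h
    refine fun h1 h2 h3 h4 => and_congr ?_ ?_
    · refine forall_congr' fun i => ?_
      by_cases hi : i = 0
      · subst hi; simp
      · simp [hi]
    · refine forall_congr' fun i => ?_
      by_cases hi : i = 0
      · subst hi; simp
      · simp [hi]
  | inc i =>
    simp only [vstep, btgt, badd, view, Vw.ext_iff, funext_iff]
    simp [Multiset.count_singleton, update_apply]
    intro h
    refine fun h1 h2 h3 h4 => and_congr ?_ ?_
    · refine forall_congr' fun j => ?_
      by_cases hi : j = i
      · subst hi; simp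
      · simp [hi]
    · refine forall_congr' fun j => ?_
      by_cases hi : j = i
      · subst hi; simp
      · simp [hi]
  | dec i =>
    simp only [vstep, btgt, badd, view, Vw.ext_iff, funext_iff]
    simp [Multiset.count_singleton, update_apply]
    intro h
    refine fun h1 h2 h3 h4 => and_congr ?_ ?_
    · refine forall_congr' fun j => ?_
      by_cases hi : j = i
      · subst hi; simp
      · simp [hi]
    · refine forall_congr' fun j => ?_
      by_cases hi : j = i
      · subst hi; simp
      · simp [hi]
  | kap =>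
    simp only [vstep, btgt, badd, view, Vw.ext_iff, funext_iff]
    simp
  | z =>
    simp only [vstep, btgt, badd, view, Vw.ext_iff, funext_iff]
    simp
  | drA i =>
    simp only [vstep, btgt, badd, view, Vw.ext_iff, funext_iff]
    simp [update_apply]
    intro h
    refine fun h1 h2 h3 h4 h5 => ?_
    refine forall_congr' fun j => ?_
    by_cases hi : j = i
    · subst hi; simp
    · simp [hi]
  | drB i =>
    simp only [vstep, btgt, badd, view, Vw.ext_iff, funext_iff]
    simp [update_apply]
    intro h
    refine fun h1 h2 h3 h4 h5 => ?_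
    refine forall_congr' fun j => ?_
    by_cases hi : j = i
    · subst hi; simp
    · simp [hi]

end counts

end Pool.Agent.Helper74
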