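import Mathlib
import Pool.Agent.Helper74.BlindProg

set_option autoImplicit false
set_option linter.unusedSectionVars false
set_option linter.unusedSimpArgs false

namespace Pool.Agent.Helper74

open Multiset Function

/-- view-level step with output counter -/
def vs (K : ℕ) (b : BL K) (s t : Vw K × ℕ) : Prop := vstep b s.1 t.1 ∧ t.2 = s.2 + bout b

lemma wrun_view {K : ℕ} (w : List (BL K)) : ∀ (M M' : Multiset (Reg K)) (k k' : ℕ),
    Prg.wrun (bs K) w (M, k) (M', k') ↔ Prg.wrun (vs K) w (view M, k) (view M', k') := by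
  induction w with
  | nil =>
    intro M M' k k'
    simp only [Prg.wrun, Prod.mk.injEq]
    constructor
    · rintro ⟨rfl, rfl⟩; exact ⟨rfl, rfl⟩
    · rintro ⟨h, rfl⟩; exact ⟨view_inj h, rfl⟩
  | cons b w ih =>
    intro M M' k k'
    simp only [Prg.wrun]
    constructor
    · rintro ⟨⟨M1, k1⟩, ⟨h1, h2⟩, h3⟩
      exact ⟨(view M1, k1), ⟨(bstep_view b M M1).1 h1, h2⟩, (ih _ _ _ _).1 h3⟩
    · rintro ⟨⟨V1, k1⟩, ⟨h1, h2⟩, h3⟩
      obtain ⟨M1, rfl⟩ := view_surj V1
      exact ⟨(M1, k1), ⟨(bstep_view b M M1).2 h1, h2⟩, (ih _ _ _ _).2 h3⟩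

variable {K : ℕ}

/-- the zero test gadget -/
def tz (i : Fin (K + 1)) : Prg (BL K) :=
  Prg.seq (Prg.act BL.kap) (Prg.seq
    (Prg.loop (Prg.seq (Prg.act (BL.inc i)) (Prg.act BL.z)))
    (Prg.loop (Prg.seq (Prg.act (BL.dec i)) (Prg.act BL.z))))

/-- register index -/
def ix (K r : ℕ) : Fin (K + 1) := Fin.ofNat (K + 1) r

lemma ix_val {r : ℕ} (h : r < K) : (ix K r).val = r := by
  simp only [ix, Fin.ofNat]
  exact Nat.mod_eq_of_lt (by omega)

/-- translation of counter programs -/
def tr (K : ℕ) : Prg Act → Prg (BL K)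
  | Prg.nil => Prg.nil
  | Prg.act (Act.inc r) => Prg.act (BL.inc (ix K r))
  | Prg.act (Act.dec r) => Prg.act (BL.dec (ix K r))
  | Prg.act (Act.zero r) => tz (ix K r)
  | Prg.alt P Q => Prg.alt (tr K P) (tr K Q)
  | Prg.seq P Q => Prg.seq (tr K P) (tr K Q)
  | Prg.loop P => Prg.loop (tr K P)

/-- register of an action -/
def Act.reg : Act → ℕ
  | Act.inc r => r
  | Act.dec r => r
  | Act.zero r => r

lemma exists_bound (P : Prg Act) : ∃ K, P.all (fun a => a.reg < K) := by
  induction P with
  | nil => exact ⟨0, trivial⟩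
  | act a => exact ⟨a.reg + 1, Nat.lt_succ_self _⟩
  | alt P Q ihP ihQ =>
    obtain ⟨K1, h1⟩ := ihP
    obtain ⟨K2, h2⟩ := ihQ
    exact ⟨max K1 K2, Prg.all_mono (fun a h => lt_of_lt_of_le h (le_max_left _ _)) P h1,
      Prg.all_mono (fun a h => lt_of_lt_of_le h (le_max_right _ _)) Q h2⟩
  | seq P Q ihP ihQ =>
    obtain ⟨K1, h1⟩ := ihP
    obtain ⟨K2, h2⟩ := ihQ
    exact ⟨max K1 K2, Prg.all_mono (fun a h => lt_of_lt_of_le h (le_max_left _ _)) P h1,
      Prg.all_mono (fun a h => lt_of_lt_of_le h (le_max_right _ _)) Q h2⟩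
  | loop P ih => exact ih

/-- the counter state of a view -/
def stt (s : Vw K) : ℕ → ℕ := fun j => if h : j < K then s.a ⟨j, by omega⟩ else 0

/-- invariant of the simulation -/
structure Inv (N : ℕ) (s : Vw K) : Prop where
  y0 : s.y = 0
  ab : ∀ i, s.a i + s.b i = N

/-- potential -/
def Pot (N : ℕ) (s : Vw K) : ℤ := (s.z : ℤ) - 2 * N * s.k

lemma up_sound (i : Fin (K + 1)) (s : Vw K) (k : ℕ) (t : Vw K × ℕ) (hy : s.y = 0)
    (h : Relation.ReflTransGen
      ((Prg.seq (Prg.act (BL.inc i)) (Prg.act BL.z)).sem (vs K)) (s, k) t) :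
    ∃ g, g ≤ s.b i ∧ g ≤ s.z ∧
      t = (⟨s.d, s.z - g, 0, s.k, update s.a i (s.a i + g), update s.b i (s.b i - g)⟩, k) := by
  induction h with
  | refl =>
    refine ⟨0, Nat.zero_le _, Nat.zero_le _, ?_⟩
    ext <;> simp [hy]
  | @tail b c _ h2 ih =>
    obtain ⟨g, hg1, hg2, rfl⟩ := ih
    obtain ⟨c1, c2⟩ := c
    obtain ⟨⟨u, ku⟩, ⟨⟨h3, h4⟩, h5⟩, ⟨h6, h7⟩, h8⟩ := h2
    simp only at h3 h4 h5 h6 h7 h8
    subst h4
    simp only [update_self, bout, add_zero, mul_zero] at h3 h5 h6 h7 h8
    subst h5 h7 h8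
    refine ⟨g + 1, by omega, by omega, ?_⟩
    ext j
    · simp
    · simp; omega
    · simp
    · simp
    · by_cases hj : j = i
      · subst hj; simp; omega
      · simp [hj]
    · by_cases hj : j = i
      · subst hj; simp; omega
      · simp [hj]
    · simp

lemma down_sound (i : Fin (K + 1)) (s : Vw K) (k : ℕ) (t : Vw K × ℕ) (hy : s.y = 0)
    (h : Relation.ReflTransGen
      ((Prg.seq (Prg.act (BL.dec i)) (Prg.act BL.z)).sem (vs K)) (s, k) t) :
    ∃ g, g ≤ s.a i ∧ g ≤ s.z ∧
      t = (⟨s.d, s.z - g, 0, s.k, update s.a i (s.a i - g), update s.b i (s.b i + g)⟩, k) := by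
  induction h with
  | refl =>
    refine ⟨0, Nat.zero_le _, Nat.zero_le _, ?_⟩
    ext <;> simp [hy]
  | @tail b c _ h2 ih =>
    obtain ⟨g, hg1, hg2, rfl⟩ := ih
    obtain ⟨c1, c2⟩ := c
    obtain ⟨⟨u, ku⟩, ⟨⟨h3, h4⟩, h5⟩, ⟨h6, h7⟩, h8⟩ := h2
    simp only at h3 h4 h5 h6 h7 h8
    subst h4
    simp only [update_self, bout, add_zero, mul_zero] at h3 h5 h6 h7 h8
    subst h5 h7 h8
    refine ⟨g + 1, by omega, by omega, ?_⟩
    ext j
    · simp
    · simp; omega
    · simp
    · simp
    · by_cases hj : j = i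
      · subst hj; simp; omega
      · simp [hj]
    · by_cases hj : j = i
      · subst hj; simp; omega
      · simp [hj]
    · simp

lemma tz_sound (N : ℕ) (i : Fin (K + 1)) (s t : Vw K) (k k' : ℕ) (hI : Inv N s)
    (h : (tz i).sem (vs K) (s, k) (t, k')) :
    Inv N t ∧ k' = k ∧ Pot N s ≤ Pot N t ∧ (Pot N s = Pot N t → s.a i = 0 ∧ t.a = s.a) := by
  obtain ⟨hy, hab⟩ := hI
  obtain ⟨⟨u, ku⟩, ⟨⟨h1, h2⟩, h3⟩, ⟨v, kv⟩, h4, h5⟩ := h
  simp only at h1 h2 h3
  simp only [bout, add_zero] at h3
  subst h2 h3
  obtain ⟨g, hg1, hg2, h6⟩ := up_sound i _ _ _ (by simp [hy]) h4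
  simp only [Prod.mk.injEq] at h6
  obtain ⟨rfl, rfl⟩ := h6
  obtain ⟨g', hg1', hg2', h7⟩ := down_sound i _ _ _ (by simp) h5
  simp only [Prod.mk.injEq] at h7
  obtain ⟨rfl, rfl⟩ := h7
  simp only [hy, mul_zero, add_zero, update_self] at hg1 hg2 hg1' hg2'
  have habi := hab i
  have hpot : Pot N (⟨s.d, s.z + 2 * s.y - g - g', 0, s.k - 1,
      update (update s.a i (s.a i + g)) i (update s.a i (s.a i + g) i - g'),
      update (update s.b i (s.b i - g)) i (update s.b i (s.b i - g) i + g')⟩ : Vw K) =
      Pot N s + (2 * N - g - g' : ℤ) := by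
    unfold Pot
    simp only [hy, mul_zero, add_zero]
    have e1 : ((s.z - g - g' : ℕ) : ℤ) = s.z - g - g' := by omega
    have e2 : ((s.k - 1 : ℕ) : ℤ) = s.k - 1 := by omega
    rw [e1, e2]
    ring
  refine ⟨⟨rfl, ?_⟩, rfl, ?_, ?_⟩
  · intro j
    by_cases hj : j = i
    · subst hj
      simp
      omega
    · simp [hj]
      exact hab j
  · rw [hpot]
    omega
  · intro he
    rw [hpot] at he
    have hg : g = N ∧ g' = N := by omega
    obtain ⟨rfl, rfl⟩ := hg
    have ha0 : s.a i = 0 := by omega
    refine ⟨ha0, ?_⟩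
    funext j
    by_cases hj : j = i
    · subst hj
      simp [ha0]
    · simp [hj]

lemma tr_sound (N : ℕ) (P : Prg Act) (hP : P.all (fun a => a.reg < K)) :
    ∀ (s t : Vw K) (k k' : ℕ), Inv N s → (tr K P).sem (vs K) (s, k) (t, k') →
      Inv N t ∧ k' = k ∧ Pot N s ≤ Pot N t ∧ (Pot N s = Pot N t → Sem P (stt s) (stt t)) := by
  induction P with
  | nil =>
    intro s t k k' hI h
    have : (s, k) = (t, k') := h
    simp only [Prod.mk.injEq] at this
    obtain ⟨rfl, rfl⟩ := this
    exact ⟨hI, rfl, le_rfl, fun _ => rfl⟩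
  | act a =>
    intro s t k k' hI h
    cases a with
    | inc r =>
      have hr : r < K := hP
      obtain ⟨⟨h1, h2⟩, h3⟩ := h
      obtain ⟨hy, hab⟩ := hI
      simp only [bout, add_zero] at h1 h2 h3
      subst h2 h3
      refine ⟨⟨hy, ?_⟩, rfl, ?_, ?_⟩
      · intro j
        by_cases hj : j = ix K r
        · subst hj
          have := hab (ix K r)
          simp
          omega
        · simp [hj]
          exact hab j
      · unfold Pot
        simp [hy]
      · intro _
        show stt _ = update (stt s) r (stt s r + 1)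
        funext j
        unfold stt
        by_cases hj : j = r
        · subst hj
          have : (⟨j, by omega⟩ : Fin (K + 1)) = ix K j := Fin.ext (ix_val hr).symm
          simp [hr, this]
        · rw [update_of_ne hj]
          by_cases hjK : j < K
          · have : (⟨j, by omega⟩ : Fin (K + 1)) ≠ ix K r := by
              intro h
              have := congrArg Fin.val h
              rw [ix_val hr] at this
              exact hj this
            simp [hjK, this]
          · simp [hjK]
    | dec r =>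
      have hr : r < K := hP
      obtain ⟨⟨h1, h2⟩, h3⟩ := h
      obtain ⟨hy, hab⟩ := hI
      simp only [bout, add_zero] at h1 h2 h3
      subst h2 h3
      have hix : (⟨r, by omega⟩ : Fin (K + 1)) = ix K r := Fin.ext (ix_val hr).symm
      refine ⟨⟨hy, ?_⟩, rfl, ?_, ?_⟩
      · intro j
        by_cases hj : j = ix K r
        · subst hj
          have := hab (ix K r)
          simp
          omega
        · simp [hj]
          exact hab j
      · unfold Pot
        simp [hy]
      · intro _
        show 0 < stt s r ∧ stt _ = update (stt s) r (stt s r - 1)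
        constructor
        · unfold stt
          rw [dif_pos hr, hix]
          exact h1
        · funext j
          unfold stt
          by_cases hj : j = r
          · subst hj
            simp [hr, hix]
          · rw [update_of_ne hj]
            by_cases hjK : j < K
            · have : (⟨j, by omega⟩ : Fin (K + 1)) ≠ ix K r := by
                intro h
                have := congrArg Fin.val h
                rw [ix_val hr] at this
                exact hj this
              simp [hjK, this]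
            · simp [hjK]
    | zero r =>
      have hr : r < K := hP
      have hix : (⟨r, by omega⟩ : Fin (K + 1)) = ix K r := Fin.ext (ix_val hr).symm
      obtain ⟨h1, h2, h3, h4⟩ := tz_sound N (ix K r) s t k k' hI h
      refine ⟨h1, h2, h3, fun he => ?_⟩
      obtain ⟨h5, h6⟩ := h4 he
      refine ⟨?_, ?_⟩
      · unfold stt
        rw [dif_pos hr, hix]
        exact h5
      · unfold stt
        rw [h6]
  | alt P Q ihP ihQ =>
    rintro s t k k' hI (h | h)
    · obtain ⟨h1, h2, h3, h4⟩ := ihP hP.1 s t k k' hI h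
      exact ⟨h1, h2, h3, fun he => Or.inl (h4 he)⟩
    · obtain ⟨h1, h2, h3, h4⟩ := ihQ hP.2 s t k k' hI h
      exact ⟨h1, h2, h3, fun he => Or.inr (h4 he)⟩
  | seq P Q ihP ihQ =>
    rintro s t k k' hI ⟨⟨u, ku⟩, h, h'⟩
    obtain ⟨h1, rfl, h3, h4⟩ := ihP hP.1 s u k ku hI h
    obtain ⟨g1, rfl, g3, g4⟩ := ihQ hP.2 u t _ k' h1 h'
    refine ⟨g1, rfl, le_trans h3 g3, fun he => ?_⟩
    exact ⟨stt u, h4 (le_antisymm h3 (he ▸ g3)), g4 (le_antisymm g3 (he ▸ h3))⟩
  | loop P ih =>
    intro s t k k' hI h
    have key : ∀ (q : Vw K × ℕ), Relation.ReflTransGen ((tr K P).sem (vs K)) (s, k) q →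
        Inv N q.1 ∧ q.2 = k ∧ Pot N s ≤ Pot N q.1 ∧
        (Pot N s = Pot N q.1 → Sem (Prg.loop P) (stt s) (stt q.1)) := by
      intro q hq
      induction hq with
      | refl => exact ⟨hI, rfl, le_rfl, fun _ => Relation.ReflTransGen.refl⟩
      | @tail u v _ h2 ih2 =>
        obtain ⟨u1, u2⟩ := u
        obtain ⟨v1, v2⟩ := v
        obtain ⟨h3, h4, h5, h6⟩ := ih2
        obtain ⟨g1, g2, g3, g4⟩ := ih hP u1 v1 u2 v2 h3 h2
        simp only at h4 h5 h6 ⊢
        subst h4
        refine ⟨g1, g2, le_trans h5 g3, fun he => ?_⟩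
        exact Relation.ReflTransGen.tail (h6 (le_antisymm h5 (he ▸ g3)))
          (g4 (le_antisymm g3 (he ▸ h5)))
    exact key (t, k') h

lemma up_complete (i : Fin (K + 1)) (s : Vw K) (k : ℕ) (hy : s.y = 0) (g : ℕ) :
    g ≤ s.b i → g ≤ s.z → Relation.ReflTransGen
      ((Prg.seq (Prg.act (BL.inc i)) (Prg.act BL.z)).sem (vs K)) (s, k)
      (⟨s.d, s.z - g, 0, s.k, update s.a i (s.a i + g), update s.b i (s.b i - g)⟩, k) := by
  induction g with
  | zero =>
    intro _ _
    have : ((⟨s.d, s.z - 0, 0, s.k, update s.a i (s.a i + 0), update s.b i (s.b i - 0)⟩ : Vw K), k)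
        = (s, k) := by
      ext <;> simp [hy]
    rw [this]
  | succ g ih =>
    intro h1 h2
    refine (ih (by omega) (by omega)).tail ?_
    refine ⟨(⟨s.d, s.z - g, 0, s.k, update s.a i (s.a i + (g + 1)),
      update s.b i (s.b i - (g + 1))⟩, k), ⟨⟨?_, ?_⟩, rfl⟩, ⟨?_, ?_⟩, rfl⟩
    · simp; omega
    · ext j
      · simp
      · simp
      · simp
      · simp
      · by_cases hj : j = i
        · subst hj; simp; omega
        · simp [hj]
      · by_cases hj : j = i
        · subst hj; simp; omega
        · simp [hj]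
    · simp; omega
    · ext j
      · simp
      · simp; omega
      · simp
      · simp
      · simp
      · simp

lemma down_complete (i : Fin (K + 1)) (s : Vw K) (k : ℕ) (hy : s.y = 0) (g : ℕ) :
    g ≤ s.a i → g ≤ s.z → Relation.ReflTransGen
      ((Prg.seq (Prg.act (BL.dec i)) (Prg.act BL.z)).sem (vs K)) (s, k)
      (⟨s.d, s.z - g, 0, s.k, update s.a i (s.a i - g), update s.b i (s.b i + g)⟩, k) := by
  induction g with
  | zero =>
    intro _ _
    have : ((⟨s.d, s.z - 0, 0, s.k, update s.a i (s.a i - 0), update s.b i (s.b i + 0)⟩ : Vw K), k)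
        = (s, k) := by
      ext <;> simp [hy]
    rw [this]
  | succ g ih =>
    intro h1 h2
    refine (ih (by omega) (by omega)).tail ?_
    refine ⟨(⟨s.d, s.z - g, 0, s.k, update s.a i (s.a i - (g + 1)),
      update s.b i (s.b i + (g + 1))⟩, k), ⟨⟨?_, ?_⟩, rfl⟩, ⟨?_, ?_⟩, rfl⟩
    · simp; omega
    · ext j
      · simp
      · simp
      · simp
      · simp
      · by_cases hj : j = i
        · subst hj; simp; omega
        · simp [hj]
      · by_cases hj : j = i
        · subst hj; simp; omega
        · simp [hj]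
    · simp; omega
    · ext j
      · simp
      · simp; omega
      · simp
      · simp
      · simp
      · simp

lemma tz_complete (N : ℕ) (i : Fin (K + 1)) (s : Vw K) (k : ℕ) (hI : Inv N s)
    (ha : s.a i = 0) (hk : 1 ≤ s.k) (hz : 2 * N ≤ s.z) :
    (tz i).sem (vs K) (s, k) (⟨s.d, s.z - 2 * N, 0, s.k - 1, s.a, s.b⟩, k) := by
  obtain ⟨hy, hab⟩ := hI
  have hb : s.b i = N := by have := hab i; omega
  refine ⟨(⟨s.d, s.z, 0, s.k - 1, s.a, s.b⟩, k), ⟨⟨(show 0 < s.k by omega), ?_⟩, rfl⟩,
    (⟨s.d, s.z - N, 0, s.k - 1, update s.a i N, update s.b i 0⟩, k), ?_, ?_⟩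
  · simp [hy]
  · have := up_complete i (⟨s.d, s.z, 0, s.k - 1, s.a, s.b⟩ : Vw K) k rfl N
      (by simp [hb]) (by show N ≤ s.z; omega)
    change Relation.ReflTransGen _ _ _
    simpa [ha, hb] using this
  · have := down_complete i (⟨s.d, s.z - N, 0, s.k - 1, update s.a i N, update s.b i 0⟩ : Vw K)
      k rfl N (by simp) (by show N ≤ s.z - N; omega)
    have e : ((⟨s.d, s.z - N - N, 0, s.k - 1, update (update s.a i N) i (update s.a i N i - N),
        update (update s.b i 0) i (update s.b i 0 i + N)⟩ : Vw K), k) =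
        (⟨s.d, s.z - 2 * N, 0, s.k - 1, s.a, s.b⟩, k) := by
      ext j
      · simp
      · simp; omega
      · simp
      · simp
      · by_cases hj : j = i
        · subst hj; simp [ha]
        · simp [hj]
      · by_cases hj : j = i
        · subst hj; simp [hb]
        · simp [hj]
      · simp
    rw [← e]
    exact this

/-- completeness of the simulation of a counter program -/
lemma tr_complete (P : Prg Act) (hP : P.all (fun a => a.reg < K)) :
    ∀ (f g : ℕ → ℕ), Sem P f g → ∃ N0 k0 : ℕ, ∀ N, N0 ≤ N → ∀ (s : Vw K) (k : ℕ), Inv N s →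
      stt s = f → k0 ≤ s.k → 2 * N * k0 ≤ s.z →
      ∃ t : Vw K, (tr K P).sem (vs K) (s, k) (t, k) ∧ Inv N t ∧ stt t = g ∧
        t.k + k0 = s.k ∧ t.z + 2 * N * k0 = s.z ∧ t.a (Fin.last K) = s.a (Fin.last K) ∧
        t.d = s.d := by
  induction P with
  | nil =>
    intro f g h
    have : f = g := h
    subst this
    exact ⟨0, 0, fun N _ s k hI hs _ _ => ⟨s, rfl, hI, hs, by simp, by simp, rfl, rfl⟩⟩
  | act a =>
    intro f g h
    cases a with
    | inc r =>
      have hr : r < K := hP
      have hix : (⟨r, by omega⟩ : Fin (K + 1)) = ix K r := Fin.ext (ix_val hr).symm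
      have hg : g = update f r (f r + 1) := h
      subst hg
      refine ⟨f r + 1, 0, fun N hN s k hI hs _ _ => ?_⟩
      obtain ⟨hy, hab⟩ := hI
      have hsr : s.a (ix K r) = f r := by
        rw [← hs]
        unfold stt
        rw [dif_pos hr, hix]
      have hbr : s.b (ix K r) = N - f r := by have := hab (ix K r); omega
      refine ⟨⟨s.d, s.z + 2 * s.y, s.y, s.k, update s.a (ix K r) (s.a (ix K r) + 1),
        update s.b (ix K r) (s.b (ix K r) - 1)⟩, ⟨⟨?_, rfl⟩, rfl⟩, ⟨hy, ?_⟩, ?_, by simp,
        by simp [hy], ?_, rfl⟩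
      · show 0 < s.b (ix K r)
        omega
      · intro j
        by_cases hj : j = ix K r
        · subst hj
          simp
          omega
        · simp [hj]
          exact hab j
      · funext j
        unfold stt
        by_cases hj : j = r
        · subst hj
          simp [hr, hix, hsr]
        · rw [update_of_ne hj]
          by_cases hjK : j < K
          · have : (⟨j, by omega⟩ : Fin (K + 1)) ≠ ix K r := by
              intro h
              have := congrArg Fin.val h
              rw [ix_val hr] at this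
              exact hj this
            simp only [hjK, dif_pos, update_of_ne this]
            rw [← hs]
            unfold stt
            rw [dif_pos hjK]
          · simp only [hjK, dif_neg, not_false_eq_true]
            rw [← hs]
            unfold stt
            rw [dif_neg hjK]
      · have : Fin.last K ≠ ix K r := by
          intro h
          have := congrArg Fin.val h
          rw [ix_val hr] at this
          simp at this
          omega
        simp [this]
    | dec r =>
      have hr : r < K := hP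
      have hix : (⟨r, by omega⟩ : Fin (K + 1)) = ix K r := Fin.ext (ix_val hr).symm
      obtain ⟨hpos, hg⟩ : 0 < f r ∧ g = update f r (f r - 1) := h
      subst hg
      refine ⟨0, 0, fun N hN s k hI hs _ _ => ?_⟩
      obtain ⟨hy, hab⟩ := hI
      have hsr : s.a (ix K r) = f r := by
        rw [← hs]
        unfold stt
        rw [dif_pos hr, hix]
      refine ⟨⟨s.d, s.z + 2 * s.y, s.y, s.k, update s.a (ix K r) (s.a (ix K r) - 1),
        update s.b (ix K r) (s.b (ix K r) + 1)⟩, ⟨⟨?_, rfl⟩, rfl⟩, ⟨hy, ?_⟩, ?_, by simp,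
        by simp [hy], ?_, rfl⟩
      · show 0 < s.a (ix K r)
        omega
      · intro j
        by_cases hj : j = ix K r
        · subst hj
          have := hab (ix K r)
          simp
          omega
        · simp [hj]
          exact hab j
      · funext j
        unfold stt
        by_cases hj : j = r
        · subst hj
          simp [hr, hix, hsr]
        · rw [update_of_ne hj]
          by_cases hjK : j < K
          · have : (⟨j, by omega⟩ : Fin (K + 1)) ≠ ix K r := by
              intro h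
              have := congrArg Fin.val h
              rw [ix_val hr] at this
              exact hj this
            simp only [hjK, dif_pos, update_of_ne this]
            rw [← hs]
            unfold stt
            rw [dif_pos hjK]
          · simp only [hjK, dif_neg, not_false_eq_true]
            rw [← hs]
            unfold stt
            rw [dif_neg hjK]
      · have : Fin.last K ≠ ix K r := by
          intro h
          have := congrArg Fin.val h
          rw [ix_val hr] at this
          simp at this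
          omega
        simp [this]
    | zero r =>
      have hr : r < K := hP
      have hix : (⟨r, by omega⟩ : Fin (K + 1)) = ix K r := Fin.ext (ix_val hr).symm
      obtain ⟨hz0, hg⟩ : f r = 0 ∧ g = f := h
      subst hg
      refine ⟨0, 1, fun N hN s k hI hs hk hz => ?_⟩
      have hsr : s.a (ix K r) = 0 := by
        rw [← hz0, ← hs]
        unfold stt
        rw [dif_pos hr, hix]
      refine ⟨_, tz_complete N (ix K r) s k hI hsr hk (by omega), ⟨rfl, hI.ab⟩, ?_, ?_, ?_,
        rfl, rfl⟩
      · rw [← hs]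
        rfl
      · simp; omega
      · simp at hz ⊢; omega
  | alt P Q ihP ihQ =>
    rintro f g (h | h)
    · obtain ⟨N0, k0, H⟩ := ihP hP.1 f g h
      refine ⟨N0, k0, fun N hN s k hI hs hk hz => ?_⟩
      obtain ⟨t, h1, h2⟩ := H N hN s k hI hs hk hz
      exact ⟨t, Or.inl h1, h2⟩
    · obtain ⟨N0, k0, H⟩ := ihQ hP.2 f g h
      refine ⟨N0, k0, fun N hN s k hI hs hk hz => ?_⟩
      obtain ⟨t, h1, h2⟩ := H N hN s k hI hs hk hz
      exact ⟨t, Or.inr h1, h2⟩
  | seq P Q ihP ihQ =>
    rintro f g ⟨u, h1, h2⟩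
    obtain ⟨N1, k1, H1⟩ := ihP hP.1 f u h1
    obtain ⟨N2, k2, H2⟩ := ihQ hP.2 u g h2
    refine ⟨max N1 N2, k1 + k2, fun N hN s k hI hs hk hz => ?_⟩
    have e : 2 * N * (k1 + k2) = 2 * N * k1 + 2 * N * k2 := by ring
    rw [e] at hz ⊢
    obtain ⟨t, a1, a2, a3, a4, a5, a6, a7⟩ := H1 N (le_trans (le_max_left _ _) hN) s k hI hs
      (by omega) (by omega)
    obtain ⟨t', b1, b2, b3, b4, b5, b6, b7⟩ := H2 N (le_trans (le_max_right _ _) hN) t k a2 a3
      (by omega) (by omega)
    exact ⟨t', ⟨(t, k), a1, b1⟩, b2, b3, by omega, by omega, by omega, by omega⟩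
  | loop P ih =>
    intro f g h
    change Relation.ReflTransGen (Sem P) f g at h
    induction h with
    | refl =>
      exact ⟨0, 0, fun N _ s k hI hs _ _ => ⟨s, Relation.ReflTransGen.refl, hI, hs, by simp,
        by simp, rfl, rfl⟩⟩
    | @tail u v _ h2 ih2 =>
      obtain ⟨N1, k1, H1⟩ := ih2
      obtain ⟨N2, k2, H2⟩ := ih hP u v h2
      refine ⟨max N1 N2, k1 + k2, fun N hN s k hI hs hk hz => ?_⟩
      have e : 2 * N * (k1 + k2) = 2 * N * k1 + 2 * N * k2 := by ring
      rw [e] at hz ⊢
      obtain ⟨t, a1, a2, a3, a4, a5, a6, a7⟩ := H1 N (le_trans (le_max_left _ _) hN) s k hI hs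
        (by omega) (by omega)
      obtain ⟨t', b1, b2, b3, b4, b5, b6, b7⟩ := H2 N (le_trans (le_max_right _ _) hN) t k a2 a3
        (by omega) (by omega)
      exact ⟨t', Relation.ReflTransGen.tail a1 b1, b2, b3, by omega, by omega, by omega, by omega⟩

end Pool.Agent.Helper74
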