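import Mathlib
import Pool.Agent.Helper74.PStep

set_option autoImplicit false
set_option linter.unusedSectionVars false

namespace Pool.Agent.Helper74

open Multiset

section transport

variable {A B : Type} [DecidableEq A] [DecidableEq B]

/-- renaming of a rule -/
def rmap (e : A ≃ B) (ρ : RuleT A) : RuleT B :=
  (ρ.1.map e, e ρ.2.1, ρ.2.2.map (fun x => (e x.1, x.2)))

lemma rmap_symm (e : A ≃ B) (ρ : RuleT A) : rmap e.symm (rmap e ρ) = ρ := by
  rcases ρ with ⟨a, b, v⟩
  simp only [rmap, Multiset.map_map, Function.comp_def, Equiv.symm_apply_apply, Prod.mk.eta,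
    Multiset.map_id']
  cases a <;> simp

lemma rmap_symm' (e : A ≃ B) (ρ : RuleT B) : rmap e (rmap e.symm ρ) = ρ := by
  have := rmap_symm e.symm ρ
  simpa using this

lemma app_map (e : A ≃ B) {R : Set (RuleT A)} {X : Multiset A} {U : Multiset (RuleT A)}
    (h : App R X U) : App (rmap e '' R) (X.map e) (U.map (rmap e)) := by
  obtain ⟨h1, h2⟩ := h
  constructor
  · intro ρ hρ
    obtain ⟨ρ', hρ', rfl⟩ := Multiset.mem_map.1 hρ
    refine ⟨⟨ρ', (h1 ρ' hρ').1, rfl⟩, ?_⟩
    intro x hx
    simp only [rmap] at hx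
    obtain ⟨x', hx', rfl⟩ := Multiset.mem_map.1 hx
    exact (h1 ρ' hρ').2 x' hx'
  · have e1 : (U.map (rmap e)).map (fun ρ => ρ.2.1) = (U.map (fun ρ => ρ.2.1)).map e := by
      simp [Multiset.map_map, rmap, Function.comp_def]
    have e2 : (U.map (rmap e)).filterMap (fun ρ => ρ.1) = (U.filterMap (fun ρ => ρ.1)).map e := by
      rw [Multiset.filterMap_map, Multiset.map_filterMap]
      rfl
    rw [e1, e2, ← Multiset.map_add]
    exact Multiset.map_le_map h2

lemma image_symm (e : A ≃ B) (R : Set (RuleT A)) : rmap e.symm '' (rmap e '' R) = R := by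
  rw [Set.image_image]
  simp [rmap_symm]

lemma app_map_symm (e : A ≃ B) {R : Set (RuleT A)} {X : Multiset A} {U : Multiset (RuleT B)}
    (h : App (rmap e '' R) (X.map e) U) : App R X (U.map (rmap e.symm)) := by
  have := app_map e.symm h
  rw [image_symm, Multiset.map_map] at this
  simpa using this

lemma here_map (e : A ≃ B) (V : Multiset (A × Fin 3)) :
    here (V.map (fun x => (e x.1, x.2))) = (here V).map e := by
  unfold here
  rw [Multiset.filter_map, Multiset.map_map, Multiset.map_map]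
  rfl

lemma outs_map (e : A ≃ B) (V : Multiset (A × Fin 3)) :
    outs (V.map (fun x => (e x.1, x.2))) = (outs V).map e := by
  unfold outs
  rw [Multiset.filter_map, Multiset.map_map, Multiset.map_map]
  rfl

lemma step_map (e : A ≃ B) {R : Set (RuleT A)} {X X' : Multiset A} {o : ℕ}
    (h : Step R X X' o) : Step (rmap e '' R) (X.map e) (X'.map e) o := by
  obtain ⟨U, h1, h2, rfl, rfl⟩ := h
  refine ⟨U.map (rmap e), app_map e h1, ?_, ?_, ?_⟩
  · intro ρ hρ
    apply h2 (rmap e.symm ρ)
    have := app_map_symm e hρ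
    rw [Multiset.map_cons, Multiset.map_map] at this
    simpa [Function.comp_def, rmap_symm] using this
  · rw [Multiset.map_add]
    congr 1
    · have hle : U.map (fun ρ => ρ.2.1) ≤ X := le_trans (Multiset.le_add_right _ _) h1.2
      obtain ⟨Z, rfl⟩ := Multiset.le_iff_exists_add.1 hle
      rw [add_tsub_cancel_left, Multiset.map_add]
      have e1 : (U.map (rmap e)).map (fun ρ => ρ.2.1) = (U.map (fun ρ => ρ.2.1)).map e := by
        simp [Multiset.map_map, rmap, Function.comp_def]
      rw [e1, add_tsub_cancel_left]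
    · rw [Multiset.bind_map, Multiset.map_bind]
      simp only [rmap, here_map]
  · rw [Multiset.bind_map]
    simp only [rmap, outs_map, ← Multiset.map_bind]
    simp

lemma halt_map (e : A ≃ B) {R : Set (RuleT A)} {X : Multiset A}
    (h : Halt R X) : Halt (rmap e '' R) (X.map e) := by
  intro ρ hρ
  apply h (rmap e.symm ρ)
  have := app_map_symm e hρ
  simpa using this

lemma hc_map (e : A ≃ B) {R : Set (RuleT A)} (T : ℕ) : ∀ {X : Multiset A} {n : ℕ},
    HC R T X n → HC (rmap e '' R) T (X.map e) n := by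
  induction T with
  | zero =>
    rintro X n ⟨h1, h2⟩
    exact ⟨halt_map e h1, h2⟩
  | succ T ih =>
    rintro X n ⟨X', o, n', hs, hh, rfl⟩
    exact ⟨X'.map e, o, n', step_map e hs, ih hh, rfl⟩

lemma hc_map_iff (e : A ≃ B) {R : Set (RuleT A)} {T : ℕ} {X : Multiset A} {n : ℕ} :
    HC (rmap e '' R) T (X.map e) n ↔ HC R T X n := by
  constructor
  · intro h
    have := hc_map e.symm T h
    rw [image_symm, Multiset.map_map] at this
    simpa using this
  · exact hc_map e T

end transport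

section unfoldHC

variable {A : Type} [DecidableEq A]

lemma hc_iff_seq (R : Set (RuleT A)) (T : ℕ) : ∀ (X : Multiset A) (n : ℕ),
    HC R T X n ↔ ∃ (M : ℕ → Multiset A) (e : ℕ → ℕ), M 0 = X ∧ e 0 = 0 ∧
      (∀ t < T, ∃ U : Multiset (RuleT A), App R (M t) U ∧ (∀ ρ, ¬ App R (M t) (ρ ::ₘ U)) ∧
        M (t + 1) = M t - U.map (fun ρ => ρ.2.1) + U.bind (fun ρ => here ρ.2.2) ∧
        e (t + 1) = e t + (U.bind (fun ρ => outs ρ.2.2)).card) ∧
      Halt R (M T) ∧ n = e T := by
  induction T with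
  | zero =>
    intro X n
    constructor
    · rintro ⟨h1, h2⟩
      exact ⟨fun _ => X, fun _ => 0, rfl, rfl, by simp, h1, h2⟩
    · rintro ⟨M, e, rfl, he, -, hh, hn⟩
      exact ⟨hh, by rw [hn, he]⟩
  | succ T ih =>
    intro X n
    constructor
    · rintro ⟨X', o, n', ⟨U, h1, h2, h3, h4⟩, hh, rfl⟩
      rw [ih] at hh
      obtain ⟨M, e, hM0, he0, hs, hH, hn⟩ := hh
      refine ⟨fun t => match t with | 0 => X | t + 1 => M t,
        fun t => match t with | 0 => 0 | t + 1 => o + e t, rfl, rfl, ?_, hH, ?_⟩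
      · intro t ht
        cases t with
        | zero =>
          refine ⟨U, h1, h2, ?_, ?_⟩
          · simp only [hM0]
            exact h3
          · simp only [he0]
            rw [← h4]
            simp
        | succ t =>
          obtain ⟨U', g1, g2, g3, g4⟩ := hs t (by omega)
          exact ⟨U', g1, g2, g3, by simp only [g4, add_assoc]⟩
      · simp [hn]
    · rintro ⟨M, e, rfl, he, hs, hH, hn⟩
      obtain ⟨U, h1, h2, h3, h4⟩ := hs 0 (by omega)
      have hmono : ∀ t, t ≤ T → e 1 ≤ e (t + 1) := by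
        intro t
        induction t with
        | zero => intro _; exact le_rfl
        | succ t iht =>
          intro ht
          obtain ⟨U', -, -, -, g4⟩ := hs (t + 1) (by omega)
          have := iht (by omega)
          omega
      refine ⟨M 1, (U.bind (fun ρ => outs ρ.2.2)).card, e (T + 1) - e 1,
        ⟨U, h1, h2, h3, rfl⟩, ?_, ?_⟩
      · rw [ih]
        refine ⟨fun t => M (t + 1), fun t => e (t + 1) - e 1, rfl, by simp, ?_, hH, rfl⟩
        intro t ht
        obtain ⟨U', g1, g2, g3, g4⟩ := hs (t + 1) (by omega)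
        refine ⟨U', g1, g2, g3, ?_⟩
        have := hmono t (by omega)
        simp only [g4]
        omega
      · have := hmono T le_rfl
        rw [hn]
        simp only [he, zero_add] at h4
        rw [← h4]
        omega

end unfoldHC

/-- From a one-catalyst one-region rule set over a finite alphabet to the required format. -/
theorem frozen_of_HC {A : Type} [DecidableEq A] [Finite A] (Rs : Set (RuleT A)) (hfin : Rs.Finite)
    (c : A) (hR : OneCat Rs c) (X0 : Multiset A) (hX0 : X0.count c ≤ 1) (S : Set ℕ)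
    (hS : ∀ n, n ∈ S ↔ ∃ T, HC Rs T X0 n) :
  ∃ (k m : ℕ) (C : Finset (Fin k)) (p : Fin (m+1) → Fin (m+1))
    (w : Fin (m+1) → Multiset (Fin k))
    (R : Fin (m+1) → Finset (Option (Fin k) × Fin k × Multiset (Fin k × Fin 3)))
    (iout : Option (Fin (m+1)))
    (App : Fin (m+1) → Multiset (Fin k) →
      Multiset (Option (Fin k) × Fin k × Multiset (Fin k × Fin 3)) → Prop),
    p 0 = 0 ∧ (∀ i : Fin (m+1), i ≠ 0 → p i < i) ∧
    (∀ j : Fin (m+1), iout = some j → ∀ i : Fin (m+1), i ≠ 0 → p i ≠ j) ∧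
    (∀ i : Fin (m+1), ∀ ρ ∈ R i,
      ρ.2.1 ∉ C ∧ (∀ c : Fin k, ρ.1 = some c → c ∈ C) ∧ ∀ x ∈ ρ.2.2, x.1 ∉ C) ∧
    (∑ i : Fin (m+1), ((w i).filter (fun a => a ∈ C)).card) ≤ 1 ∧
    (∀ (i : Fin (m+1)) (X : Multiset (Fin k))
       (U : Multiset (Option (Fin k) × Fin k × Multiset (Fin k × Fin 3))),
       App i X U ↔
         ((∀ ρ ∈ U, ρ ∈ R i ∧
            ((∀ l : Fin (m+1), l ≠ 0 → p l ≠ i) → ∀ x ∈ ρ.2.2, x.2 ≠ 2)) ∧
          U.map (fun ρ => ρ.2.1) + U.filterMap (fun ρ => ρ.1) ≤ X)) ∧
    ∀ n : ℕ, n ∈ S ↔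
      ∃ (T : ℕ) (M : ℕ → Fin (m+1) → Multiset (Fin k)) (e : ℕ → ℕ),
        M 0 = w ∧ e 0 = 0 ∧
        (∀ t < T, ∃ (U : Fin (m+1) →
              Multiset (Option (Fin k) × Fin k × Multiset (Fin k × Fin 3)))
            (D : Fin (m+1) → Multiset (Fin k)),
          (∀ i : Fin (m+1), App i (M t i) (U i) ∧
              ∀ ρ : Option (Fin k) × Fin k × Multiset (Fin k × Fin 3),
                ¬ App i (M t i) (Multiset.cons ρ (U i))) ∧
          D 0 = 0 ∧
          (∀ i : Fin (m+1),
            ∑ j ∈ Finset.univ.filter (fun j : Fin (m+1) => j ≠ 0 ∧ p j = i), D j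
              = (U i).bind (fun ρ => (ρ.2.2.filter (fun x => x.2 = 2)).map Prod.fst)) ∧
          (∀ i : Fin (m+1), M (t+1) i =
              M t i - (U i).map (fun ρ => ρ.2.1)
              + (U i).bind (fun ρ => (ρ.2.2.filter (fun x => x.2 = 0)).map Prod.fst)
              + ∑ j ∈ Finset.univ.filter (fun j : Fin (m+1) => j ≠ 0 ∧ p j = i),
                  (U j).bind (fun ρ => (ρ.2.2.filter (fun x => x.2 = 1)).map Prod.fst)
              + D i) ∧
          e (t+1) = e t +
            ((U 0).bind (fun ρ => (ρ.2.2.filter (fun x => x.2 = 1)).map Prod.fst)).card) ∧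
        (∀ (i : Fin (m+1)) (ρ : Option (Fin k) × Fin k × Multiset (Fin k × Fin 3)),
          ¬ App i (M T i) (Multiset.cons ρ 0)) ∧
        (∀ j : Fin (m+1), iout = some j → n = (M T j).card) ∧
        (iout = none → n = e T) := by
  classical
  have hsub : ∀ i : Fin (0 + 1), i = 0 := fun i => Fin.ext (by omega)
  have huniv : (Finset.univ : Finset (Fin (0 + 1))) = {0} := by
    ext i
    simp [hsub i]
  obtain ⟨k, ⟨e0⟩⟩ := Finite.exists_equiv_fin A
  have hfin' : (rmap e0 '' Rs).Finite := hfin.image _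
  let R' : Finset (RuleT (Fin k)) := hfin'.toFinset
  have hmem : ∀ ρ, ρ ∈ R' ↔ ρ ∈ rmap e0 '' Rs := fun ρ => hfin'.mem_toFinset
  have htgt : ∀ ρ ∈ R', ∀ x ∈ ρ.2.2, x.2 ≠ 2 := by
    intro ρ hρ x hx
    rw [hmem] at hρ
    obtain ⟨ρ', hρ', rfl⟩ := hρ
    simp only [rmap] at hx
    obtain ⟨x', hx', rfl⟩ := Multiset.mem_map.1 hx
    exact hR.tgt ρ' hρ' x' hx'
  have hAppEq : ∀ (X : Multiset (Fin k)) (U : Multiset (RuleT (Fin k))),
      Helper74.App (rmap e0 '' Rs) X U ↔
         ((∀ ρ ∈ U, ρ ∈ R' ∧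
            ((∀ l : Fin (0+1), l ≠ 0 → (0 : Fin (0 + 1)) ≠ 0) → ∀ x ∈ ρ.2.2, x.2 ≠ 2)) ∧
          U.map (fun ρ => ρ.2.1) + U.filterMap (fun ρ => ρ.1) ≤ X) := by
    intro X U
    unfold Helper74.App
    refine and_congr_left' ?_
    constructor
    · intro h ρ hρ
      exact ⟨(hmem ρ).2 (h ρ hρ).1, fun _ => (h ρ hρ).2⟩
    · intro h ρ hρ
      exact ⟨(hmem ρ).1 (h ρ hρ).1, htgt ρ (h ρ hρ).1⟩
  refine ⟨k, 0, {e0 c}, fun _ => 0, fun _ => X0.map e0, fun _ => R', none,
    fun _ X U => Helper74.App (rmap e0 '' Rs) X U, rfl, ?_, ?_, ?_, ?_, ?_, ?_⟩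
  · intro i hi
    exact absurd (hsub i) hi
  · intro j hj
    simp at hj
  · intro _ ρ hρ
    rw [hmem] at hρ
    obtain ⟨ρ', hρ', rfl⟩ := hρ
    refine ⟨?_, ?_, ?_⟩
    · simp only [rmap, Finset.mem_singleton, EmbeddingLike.apply_eq_iff_eq]
      exact hR.lhs ρ' hρ'
    · intro d hd
      simp only [rmap] at hd
      rcases hR.cat ρ' hρ' with h | h
      · rw [h] at hd; simp at hd
      · rw [h] at hd
        simp only [Option.map_some, Option.some.injEq] at hd
        simp [hd]
    · intro x hx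
      simp only [rmap] at hx
      obtain ⟨x', hx', rfl⟩ := Multiset.mem_map.1 hx
      simp only [Finset.mem_singleton, EmbeddingLike.apply_eq_iff_eq]
      exact hR.noc ρ' hρ' x' hx'
  · rw [huniv, Finset.sum_singleton]
    have : (X0.map e0).filter (fun a => a ∈ ({e0 c} : Finset (Fin k))) =
        (X0.map e0).filter (fun a => a = e0 c) := by
      congr 1
      ext a
      simp
    rw [this, ← Multiset.countP_eq_card_filter]
    have h2 : Multiset.countP (fun a => a = e0 c) (X0.map e0) = (X0.map e0).count (e0 c) := by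
      unfold Multiset.count
      congr 1
      ext a
      exact eq_comm
    rw [h2, Multiset.count_map_eq_count' _ _ e0.injective]
    exact hX0
  · intro i X U
    have := hAppEq X U
    simpa using this
  · intro n
    rw [hS n]
    constructor
    · rintro ⟨T, hT⟩
      rw [← hc_map_iff e0, hc_iff_seq] at hT
      obtain ⟨M, e, h1, h2, h3, h4, h5⟩ := hT
      refine ⟨T, fun t _ => M t, e, ?_, h2, ?_, fun _ ρ => h4 ρ, by simp, fun _ => h5⟩
      · funext _; exact h1
      · intro t ht
        obtain ⟨U, g1, g2, g3, g4⟩ := h3 t ht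
        have hU2 : (U.bind (fun ρ => (ρ.2.2.filter (fun x => x.2 = 2)).map Prod.fst)) = 0 := by
          rw [Multiset.eq_zero_iff_forall_notMem]
          intro a ha
          obtain ⟨ρ, hρ, ha⟩ := Multiset.mem_bind.1 ha
          revert ha
          suffices hz : (ρ.2.2.filter (fun x => x.2 = 2)).map Prod.fst = 0 by
            rw [hz]; simp
          rw [Multiset.map_eq_zero, Multiset.filter_eq_nil]
          exact fun x hx => (g1.1 ρ hρ).2 x hx
        refine ⟨fun _ => U, fun _ => 0, fun _ => ⟨g1, g2⟩, rfl, ?_, ?_, g4⟩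
        · intro i
          rw [hU2]
          simp
        · intro i
          have hfe : (Finset.univ.filter (fun j : Fin (0+1) => j ≠ 0 ∧ (0 : Fin (0+1)) = i)) = ∅ := by
            rw [Finset.filter_eq_empty_iff]
            intro j _ hj
            exact hj.1 (hsub j)
          rw [hfe, Finset.sum_empty, add_zero, add_zero]
          exact g3
    · rintro ⟨T, M, e, h1, h2, h3, h4, -, h5⟩
      refine ⟨T, ?_⟩
      rw [← hc_map_iff e0, hc_iff_seq]
      refine ⟨fun t => M t 0, e, by simp only [h1], h2, ?_, fun ρ => h4 0 ρ, h5 rfl⟩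
      intro t ht
      obtain ⟨U, D, g1, g2, -, g3, g4⟩ := h3 t ht
      refine ⟨U 0, (g1 0).1, (g1 0).2, ?_, g4⟩
      have hfe : (Finset.univ.filter (fun j : Fin (0+1) => j ≠ 0 ∧ (0 : Fin (0+1)) = 0)) = ∅ := by
        rw [Finset.filter_eq_empty_iff]
        intro j _ hj
        exact hj.1 (hsub j)
      have := g3 0
      rw [hfe, Finset.sum_empty, add_zero, g2, add_zero] at this
      exact this

end Pool.Agent.Helper74
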