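import Mathlib
import Pool.Agent.Helper74.BlindSim
import Pool.Agent.Helper74.PTrans

set_option autoImplicit false
set_option linter.unusedSectionVars false
set_option linter.unusedSimpArgs false

namespace Pool.Agent.Helper74

open Multiset Function

variable {K : ℕ}

/-- drain all counter registers -/
def dr (K : ℕ) : Prg (BL K) :=
  Prg.loop (Prg.alts ((List.finRange (K + 1)).map (fun i => Prg.act (BL.drA i)) ++
    (List.finRange (K + 1)).map (fun i => Prg.act (BL.drB i))))

/-- everything after the squaring phase -/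
def rest (K : ℕ) (P : Prg Act) : Prg (BL K) :=
  Prg.seq (Prg.loop (Prg.act BL.io)) (Prg.seq (tr K P)
    (Prg.seq (Prg.loop (tz (Fin.last K))) (dr K)))

/-- the full blind program -/
def full (K : ℕ) (P : Prg Act) : Prg (BL K) :=
  Prg.seq (Prg.loop (Prg.act BL.start)) (Prg.seq (Prg.act BL.nop)
    (Prg.seq (Prg.loop (Prg.act BL.decY)) (rest K P)))

/-- initial and final view -/
def v0 (K : ℕ) : Vw K := ⟨1, 0, 0, 0, fun _ => 0, fun _ => 0⟩

lemma start_sound (t : Vw K × ℕ)
    (h : Relation.ReflTransGen ((Prg.act BL.start).sem (vs K)) (v0 K, 0) t) :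
    ∃ N, t = (⟨1, N * (N - 1), N, N, fun _ => 0, fun _ => N⟩, 0) := by
  induction h with
  | refl => exact ⟨0, rfl⟩
  | @tail b c _ h2 ih =>
    obtain ⟨N, rfl⟩ := ih
    obtain ⟨c1, c2⟩ := c
    obtain ⟨⟨_, h3⟩, h4⟩ := h2
    simp only [bout, add_zero] at h3 h4
    subst h3 h4
    refine ⟨N + 1, ?_⟩
    have : N * (N - 1) + 2 * N = (N + 1) * (N + 1 - 1) := by
      cases N with
      | zero => rfl
      | succ N => simp only [Nat.add_sub_cancel]; ring
    rw [this]

lemma start_complete (N : ℕ) :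
    Relation.ReflTransGen ((Prg.act BL.start).sem (vs K)) (v0 K, 0)
      (⟨1, N * (N - 1), N, N, fun _ => 0, fun _ => N⟩, 0) := by
  induction N with
  | zero => exact Relation.ReflTransGen.refl
  | succ N ih =>
    refine ih.tail ⟨⟨Nat.one_pos, ?_⟩, rfl⟩
    have : N * (N - 1) + 2 * N = (N + 1) * (N + 1 - 1) := by
      cases N with
      | zero => rfl
      | succ N => simp only [Nat.add_sub_cancel]; ring
    simp only [this]

lemma decY_sound (N Z : ℕ) (t : Vw K × ℕ)
    (h : Relation.ReflTransGen ((Prg.act BL.decY).sem (vs K))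
      (⟨1, Z, N, N, fun _ => 0, fun _ => N⟩, 0) t) :
    ∃ m Z', m ≤ N ∧ Z' + m * (m + 1) = Z + 2 * (N * m) ∧
      t = (⟨1, Z', N - m, N, fun _ => 0, fun _ => N⟩, 0) := by
  induction h with
  | refl => exact ⟨0, Z, Nat.zero_le _, by simp, by simp⟩
  | @tail b c _ h2 ih =>
    obtain ⟨m, Z', hm, hZ, rfl⟩ := ih
    obtain ⟨c1, c2⟩ := c
    obtain ⟨⟨h5, h3⟩, h4⟩ := h2
    simp only [bout, add_zero] at h3 h4 h5
    subst h3 h4
    refine ⟨m + 1, Z' + 2 * (N - m - 1), by omega, ?_, ?_⟩
    · have e1 : (m + 1) * (m + 1 + 1) = m * (m + 1) + 2 * (m + 1) := by ring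
      have e2 : N * (m + 1) = N * m + N := by ring
      rw [e1, e2]
      omega
    · have : N - m - 1 = N - (m + 1) := by omega
      rw [this]

lemma decY_complete (N : ℕ) (m : ℕ) : m ≤ N → ∃ Z', Z' + m * (m + 1) = N * (N + 1) + 2 * (N * m) ∧
    Relation.ReflTransGen ((Prg.act BL.decY).sem (vs K))
      (⟨1, N * (N + 1), N, N, fun _ => 0, fun _ => N⟩, 0)
      (⟨1, Z', N - m, N, fun _ => 0, fun _ => N⟩, 0) := by
  induction m with
  | zero => intro _; exact ⟨N * (N + 1), by simp, Relation.ReflTransGen.refl⟩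
  | succ m ih =>
    intro hm
    obtain ⟨Z', hZ, h⟩ := ih (by omega)
    refine ⟨Z' + 2 * (N - m - 1), ?_, h.tail ⟨⟨?_, ?_⟩, rfl⟩⟩
    · have e1 : (m + 1) * (m + 1 + 1) = m * (m + 1) + 2 * (m + 1) := by ring
      have e2 : N * (m + 1) = N * m + N := by ring
      rw [e1, e2]
      omega
    · show 0 < N - m
      omega
    · have : N - m - 1 = N - (m + 1) := by omega
      simp only [this]

lemma io_sound (s : Vw K) (k : ℕ) (hy : s.y = 0) (t : Vw K × ℕ)
    (h : Relation.ReflTransGen ((Prg.act BL.io).sem (vs K)) (s, k) t) :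
    ∃ n, n ≤ s.b 0 ∧ t = (⟨s.d, s.z, 0, s.k, update s.a 0 (s.a 0 + n),
      update s.b 0 (s.b 0 - n)⟩, k + n) := by
  induction h with
  | refl =>
    refine ⟨0, Nat.zero_le _, ?_⟩
    ext <;> simp [hy]
  | @tail b c _ h2 ih =>
    obtain ⟨n, hn, rfl⟩ := ih
    obtain ⟨c1, c2⟩ := c
    obtain ⟨⟨h5, h3⟩, h4⟩ := h2
    simp only [bout, update_self, mul_zero, add_zero, update_idem] at h3 h4 h5
    subst h3 h4
    refine ⟨n + 1, by omega, ?_⟩
    ext j
    · simp
    · simp
    · simp
    · simp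
    · by_cases hj : j = 0
      · subst hj; simp; omega
      · simp [hj]
    · by_cases hj : j = 0
      · subst hj; simp; omega
      · simp [hj]
    · simp; omega

lemma io_complete (s : Vw K) (k : ℕ) (hy : s.y = 0) (n : ℕ) : n ≤ s.b 0 →
    Relation.ReflTransGen ((Prg.act BL.io).sem (vs K)) (s, k)
      (⟨s.d, s.z, 0, s.k, update s.a 0 (s.a 0 + n), update s.b 0 (s.b 0 - n)⟩, k + n) := by
  induction n with
  | zero =>
    intro _
    have : ((⟨s.d, s.z, 0, s.k, update s.a 0 (s.a 0 + 0), update s.b 0 (s.b 0 - 0)⟩ : Vw K),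
        k + 0) = (s, k) := by
      ext <;> simp [hy]
    rw [this]
  | succ n ih =>
    intro hn
    refine (ih (by omega)).tail ⟨⟨?_, ?_⟩, ?_⟩
    · simp; omega
    · ext j
      · simp
      · simp
      · simp
      · simp
      · by_cases hj : j = 0
        · subst hj; simp; omega
        · simp [hj]
      · by_cases hj : j = 0
        · subst hj; simp; omega
        · simp [hj]
    · simp [bout]; omega

lemma pads_sound (N : ℕ) (s : Vw K) (k : ℕ) (hI : Inv N s) (t : Vw K × ℕ)
    (h : Relation.ReflTransGen ((tz (Fin.last K)).sem (vs K)) (s, k) t) :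
    Inv N t.1 ∧ t.2 = k ∧ Pot N s ≤ Pot N t.1 := by
  induction h with
  | refl => exact ⟨hI, rfl, le_rfl⟩
  | @tail b c _ h2 ih =>
    obtain ⟨b1, b2⟩ := b
    obtain ⟨c1, c2⟩ := c
    obtain ⟨h3, h4, h5⟩ := ih
    obtain ⟨g1, g2, g3, -⟩ := tz_sound N _ _ _ _ _ h3 h2
    exact ⟨g1, g2.trans h4, le_trans h5 g3⟩

lemma pads_complete (N : ℕ) (s : Vw K) (k : ℕ) (hI : Inv N s) (ha : s.a (Fin.last K) = 0)
    (m : ℕ) : m ≤ s.k → 2 * N * m ≤ s.z →
    Relation.ReflTransGen ((tz (Fin.last K)).sem (vs K)) (s, k)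
      (⟨s.d, s.z - 2 * N * m, 0, s.k - m, s.a, s.b⟩, k) := by
  induction m with
  | zero =>
    intro _ _
    have : ((⟨s.d, s.z - 2 * N * 0, 0, s.k - 0, s.a, s.b⟩ : Vw K), k) = (s, k) := by
      ext <;> simp [hI.y0]
    rw [this]
  | succ m ih =>
    intro h1 h2
    have e : 2 * N * (m + 1) = 2 * N * m + 2 * N := by ring
    rw [e] at h2
    refine (ih (by omega) (by omega)).tail ?_
    have := tz_complete N (Fin.last K) (⟨s.d, s.z - 2 * N * m, 0, s.k - m, s.a, s.b⟩ : Vw K) k
      ⟨rfl, hI.ab⟩ ha (by show 1 ≤ s.k - m; omega) (by show 2 * N ≤ s.z - 2 * N * m; omega)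
    have e2 : s.z - 2 * N * m - 2 * N = s.z - 2 * N * (m + 1) := by omega
    have e3 : s.k - m - 1 = s.k - (m + 1) := by omega
    simp only [e2, e3] at this
    exact this

lemma dr_sound (s t : Vw K) (k k' : ℕ) (hy : s.y = 0)
    (h : (dr K).sem (vs K) (s, k) (t, k')) :
    t.z = s.z ∧ t.k = s.k ∧ k' = k := by
  have key := Prg.sem_preserves (vs K)
    (fun q : Vw K × ℕ => (q.1.y, q.1.k, q.2, if q.1.y = 0 then q.1.z else 0))
    (fun l : BL K => (∃ i, l = BL.drA i) ∨ (∃ i, l = BL.drB i)) ?_ (dr K) ?_ _ _ h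
  · simp only [Prod.mk.injEq] at key
    obtain ⟨k1, k2, k3, k4⟩ := key
    rw [if_pos hy, if_pos (k1.trans hy)] at k4
    exact ⟨k4, k2, k3⟩
  · rintro l (⟨i, rfl⟩ | ⟨i, rfl⟩) ⟨s1, s2⟩ ⟨t1, t2⟩ ⟨⟨_, h1⟩, h2⟩
    · simp only [bout, add_zero] at h1 h2
      subst h1 h2
      by_cases hy : s1.y = 0 <;> simp [hy]
    · simp only [bout, add_zero] at h1 h2
      subst h1 h2
      by_cases hy : s1.y = 0 <;> simp [hy]
  · unfold dr
    have : ∀ l : List (Prg (BL K)), (∀ P ∈ l, P.all
        (fun l : BL K => (∃ i, l = BL.drA i) ∨ (∃ i, l = BL.drB i))) →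
        (Prg.alts l).all (fun l : BL K => (∃ i, l = BL.drA i) ∨ (∃ i, l = BL.drB i)) := by
      intro l
      induction l with
      | nil => intro _; trivial
      | cons P l ih =>
        intro h
        exact ⟨h P (by simp), ih (fun Q hQ => h Q (by simp [hQ]))⟩
    apply this
    intro P hP
    rcases List.mem_append.1 hP with hP | hP
    · obtain ⟨i, -, rfl⟩ := List.mem_map.1 hP
      exact Or.inl ⟨i, rfl⟩
    · obtain ⟨i, -, rfl⟩ := List.mem_map.1 hP
      exact Or.inr ⟨i, rfl⟩

lemma dr_complete (k : ℕ) (m : ℕ) : ∀ (a b : Fin (K + 1) → ℕ), (∑ i, a i) + (∑ i, b i) = m →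
    (dr K).sem (vs K) (⟨1, 0, 0, 0, a, b⟩, k) (v0 K, k) := by
  induction m with
  | zero =>
    intro a b hm
    have h1 : ∑ i, a i = 0 := by omega
    have h2 : ∑ i, b i = 0 := by omega
    rw [Finset.sum_eq_zero_iff] at h1 h2
    have ha : a = fun _ => 0 := funext fun i => h1 i (Finset.mem_univ i)
    have hb : b = fun _ => 0 := funext fun i => h2 i (Finset.mem_univ i)
    subst ha hb
    exact Relation.ReflTransGen.refl
  | succ m ih =>
    intro a b hm
    by_cases hA : ∃ i, 0 < a i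
    · obtain ⟨i, hi⟩ := hA
      have hs : (∑ j, update a i (a i - 1) j) + (∑ j, b j) = m := by
        have e1 := Finset.add_sum_erase Finset.univ a (Finset.mem_univ i)
        have e2 := Finset.add_sum_erase Finset.univ (update a i (a i - 1)) (Finset.mem_univ i)
        have e3 : ∑ x ∈ Finset.univ.erase i, update a i (a i - 1) x =
            ∑ x ∈ Finset.univ.erase i, a x :=
          Finset.sum_congr rfl (fun x hx => by
            rw [update_of_ne (Finset.ne_of_mem_erase hx)])
        rw [e3, update_self] at e2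
        omega
      refine Relation.ReflTransGen.head ?_ (ih _ _ hs)
      rw [Prg.sem_alts]
      right
      refine ⟨Prg.act (BL.drA i), ?_, ⟨hi, rfl⟩, rfl⟩
      rw [List.mem_append]
      left
      exact List.mem_map.2 ⟨i, List.mem_finRange i, rfl⟩
    · have hA' : ∀ i, a i = 0 := fun i => by
        by_contra h
        exact hA ⟨i, Nat.pos_of_ne_zero h⟩
      have : ∃ i, 0 < b i := by
        by_contra hB
        have hB' : ∀ i, b i = 0 := fun i => by
          by_contra h
          exact hB ⟨i, Nat.pos_of_ne_zero h⟩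
        rw [Finset.sum_eq_zero (fun i _ => hA' i), Finset.sum_eq_zero (fun i _ => hB' i)] at hm
        omega
      obtain ⟨i, hi⟩ := this
      have hs : (∑ j, a j) + (∑ j, update b i (b i - 1) j) = m := by
        have e1 := Finset.add_sum_erase Finset.univ b (Finset.mem_univ i)
        have e2 := Finset.add_sum_erase Finset.univ (update b i (b i - 1)) (Finset.mem_univ i)
        have e3 : ∑ x ∈ Finset.univ.erase i, update b i (b i - 1) x =
            ∑ x ∈ Finset.univ.erase i, b x :=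
          Finset.sum_congr rfl (fun x hx => by
            rw [update_of_ne (Finset.ne_of_mem_erase hx)])
        rw [e3, update_self] at e2
        omega
      refine Relation.ReflTransGen.head ?_ (ih _ _ hs)
      rw [Prg.sem_alts]
      right
      refine ⟨Prg.act (BL.drB i), ?_, ⟨hi, rfl⟩, rfl⟩
      rw [List.mem_append]
      right
      exact List.mem_map.2 ⟨i, List.mem_finRange i, rfl⟩

/-- letters that do not change the number of integrator objects -/
def yn (l : BL K) : Prop := l ≠ BL.start ∧ l ≠ BL.decY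

lemma tz_all (i : Fin (K + 1)) : (tz i).all yn := by
  simp [tz, Prg.all, yn]

lemma tr_all (P : Prg Act) : (tr K P).all yn := by
  induction P with
  | nil => trivial
  | act a =>
    cases a with
    | inc r => simp [tr, Prg.all, yn]
    | dec r => simp [tr, Prg.all, yn]
    | zero r => exact tz_all _
  | alt P Q ihP ihQ => exact ⟨ihP, ihQ⟩
  | seq P Q ihP ihQ => exact ⟨ihP, ihQ⟩
  | loop P ih => exact ih

lemma dr_all : (dr K).all yn := by
  unfold dr
  have : ∀ l : List (Prg (BL K)), (∀ P ∈ l, P.all yn) → (Prg.alts l).all yn := by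
    intro l
    induction l with
    | nil => intro _; trivial
    | cons P l ih =>
      intro h
      exact ⟨h P (by simp), ih (fun Q hQ => h Q (by simp [hQ]))⟩
  apply this
  intro P hP
  rcases List.mem_append.1 hP with hP | hP
  · obtain ⟨i, -, rfl⟩ := List.mem_map.1 hP
    simp [Prg.all, yn]
  · obtain ⟨i, -, rfl⟩ := List.mem_map.1 hP
    simp [Prg.all, yn]

lemma rest_y (P : Prg Act) (s t : Vw K × ℕ) (h : (rest K P).sem (vs K) s t) : t.1.y = s.1.y := by
  refine Prg.sem_preserves (vs K) (fun q : Vw K × ℕ => q.1.y) yn ?_ (rest K P) ?_ _ _ h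
  · rintro l ⟨h1, h2⟩ s t ⟨h3, -⟩
    cases l with
    | start => exact absurd rfl h1
    | decY => exact absurd rfl h2
    | _ => show t.1.y = s.1.y; rw [h3.2]
  · exact ⟨by simp [Prg.all, yn], tr_all P, tz_all _, dr_all⟩

theorem full_sound (hK : 0 < K) (P : Prg Act) (hP : P.all (fun a => a.reg < K)) (n : ℕ)
    (h : (full K P).sem (vs K) (v0 K, 0) (v0 K, n)) : ∃ t, Sem P (update (0 : ℕ → ℕ) 0 n) t := by
  obtain ⟨s1, h1, s2, h2, s3, h3, hrest⟩ := h
  have hy := rest_y P _ _ hrest
  obtain ⟨N, rfl⟩ := start_sound s1 h1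
  obtain ⟨c1, c2⟩ := s2
  obtain ⟨⟨_, h4⟩, h5⟩ := h2
  simp only [bout, add_zero] at h4 h5
  subst h4 h5
  obtain ⟨m, Z, hm, hZ, rfl⟩ := decY_sound N _ s3 h3
  have hy0 : (0 : ℕ) = N - m := hy
  have hmN : m = N := by omega
  subst hmN
  have hZ2 : Z = 2 * m * m := by
    have e : m * (m - 1) + 2 * m = m * (m + 1) := by
      cases m with
      | zero => rfl
      | succ m => simp only [Nat.add_sub_cancel]; ring
    rw [e] at hZ
    have e2 : 2 * (m * m) = 2 * m * m := by ring
    omega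
  subst hZ2
  obtain ⟨s4, h6, s5, h7, s6, h8, h9⟩ := hrest
  obtain ⟨n', hn', rfl⟩ := io_sound _ _ (by simp) s4 h6
  obtain ⟨s5, k5⟩ := s5
  obtain ⟨s6, k6⟩ := s6
  have hI : Inv m (⟨1, 2 * m * m, 0, m, update (fun _ => 0) 0 (0 + n'),
      update (fun _ => m) 0 (m - n')⟩ : Vw K) := by
    refine ⟨rfl, fun i => ?_⟩
    by_cases hi : i = 0
    · subst hi
      simp at hn' ⊢
      omega
    · simp [hi]
  obtain ⟨hI5, hk5, hp5, hsem⟩ := tr_sound m P hP _ _ _ _ hI h7
  obtain ⟨hI6, hk6, hp6⟩ := pads_sound m s5 k5 hI5 _ h8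
  obtain ⟨hz7, hk7, hk7'⟩ := dr_sound _ _ _ _ hI6.y0 h9
  simp only at hk6 hp6
  have hP0 : Pot m (⟨1, 2 * m * m, 0, m, update (fun _ => 0) 0 (0 + n'),
      update (fun _ => m) 0 (m - n')⟩ : Vw K) = 0 := by
    unfold Pot
    push_cast
    ring
  have hP6 : Pot m s6 = 0 := by
    unfold Pot
    rw [← hz7, ← hk7]
    simp [v0]
  have hn : n = n' := by omega
  subst hn
  have := hsem (le_antisymm hp5 (by
    rw [hP0]
    rw [hP6] at hp6
    exact hp6))
  refine ⟨stt s5, ?_⟩
  convert this using 1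
  funext j
  unfold stt
  by_cases hj : j = 0
  · subst hj
    have : (⟨0, by omega⟩ : Fin (K + 1)) = 0 := rfl
    simp [hK, this]
  · rw [update_of_ne hj]
    by_cases hjK : j < K
    · have : (⟨j, by omega⟩ : Fin (K + 1)) ≠ 0 := by
        intro h
        exact hj (congrArg Fin.val h)
      simp [hjK, this]
    · simp [hjK]

theorem full_complete (hK : 0 < K) (P : Prg Act) (hP : P.all (fun a => a.reg < K)) (n : ℕ)
    (t : ℕ → ℕ) (h : Sem P (update (0 : ℕ → ℕ) 0 n) t) :
    (full K P).sem (vs K) (v0 K, 0) (v0 K, n) := by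
  obtain ⟨N0, k0, H⟩ := tr_complete (K := K) P hP _ _ h
  let N := max N0 (max k0 n)
  have hN0 : N0 ≤ N := le_max_left _ _
  have hNk : k0 ≤ N := le_trans (le_max_left _ _) (le_max_right _ _)
  have hNn : n ≤ N := le_trans (le_max_right _ _) (le_max_right _ _)
  obtain ⟨Z, hZ, hdec⟩ := decY_complete (K := K) N N le_rfl
  have hZ2 : Z = 2 * N * N := by
    have e2 : 2 * (N * N) = 2 * N * N := by ring
    omega
  subst hZ2
  rw [Nat.sub_self] at hdec
  have e : N * (N - 1) + 2 * N = N * (N + 1) := by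
    cases N with
    | zero => rfl
    | succ N => simp only [Nat.add_sub_cancel]; ring
  have hio := io_complete (⟨1, 2 * N * N, 0, N, fun _ => 0, fun _ => N⟩ : Vw K) 0 rfl n hNn
  have hI : Inv N (⟨1, 2 * N * N, 0, N, update (fun _ => 0) 0 (0 + n),
      update (fun _ => N) 0 (N - n)⟩ : Vw K) := by
    refine ⟨rfl, fun i => ?_⟩
    by_cases hi : i = 0
    · subst hi
      simp
      omega
    · simp [hi]
  have hst : stt (⟨1, 2 * N * N, 0, N, update (fun _ => 0) 0 (0 + n),
      update (fun _ => N) 0 (N - n)⟩ : Vw K) = update (0 : ℕ → ℕ) 0 n := by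
    funext j
    unfold stt
    by_cases hj : j = 0
    · subst hj
      have : (⟨0, by omega⟩ : Fin (K + 1)) = 0 := rfl
      simp [hK, this]
    · rw [update_of_ne hj]
      by_cases hjK : j < K
      · have : (⟨j, by omega⟩ : Fin (K + 1)) ≠ 0 := by
          intro h
          exact hj (congrArg Fin.val h)
        simp [hjK, this]
      · simp [hjK]
  obtain ⟨s5, h1, h2, h3, h4, h5, h6, h7⟩ := H N hN0 _ (0 + n) hI hst hNk
    (Nat.mul_le_mul_left _ hNk)
  have hlast : s5.a (Fin.last K) = 0 := by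
    rw [h6]
    have : Fin.last K ≠ 0 := by
      intro h
      have := congrArg Fin.val h
      simp at this
      omega
    simp [this]
  simp only at h4 h5 h7
  have hk5 : s5.k = N - k0 := by omega
  have hz5 : s5.z = 2 * N * (N - k0) := by
    have : 2 * N * (N - k0) + 2 * N * k0 = 2 * N * N := by
      rw [← mul_add, Nat.sub_add_cancel hNk]
    omega
  have hpads := pads_complete N s5 (0 + n) h2 hlast (N - k0) (by omega) (by omega)
  rw [hz5, hk5, h7, Nat.sub_self, Nat.sub_self] at hpads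
  have hdr := dr_complete (K := K) (0 + n) _ s5.a s5.b rfl
  rw [Nat.zero_add] at hdr hpads h1 hio
  refine ⟨_, start_complete N, (⟨1, N * (N + 1), N, N, fun _ => 0, fun _ => N⟩, 0),
    ⟨⟨Nat.one_pos, ?_⟩, rfl⟩, _, hdec, _, hio, _, h1, _, hpads, hdr⟩
  simp only [e]

end Pool.Agent.Helper74
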