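import Pool.Agent.Helper74.CtrMach

/-!
Finite sets of states of the machine executing structured programs; transfer to machines with
finitely many states and registers.
-/

set_option autoImplicit false
set_option linter.unusedSectionVars false

namespace Pool.Agent.Helper74.Ctr

open Function SP

/-- successors of an instruction -/
def Ins.succs {Q R : Type} : Ins Q R → Set Q
  | .inc _ q => {q}
  | .dec _ q q' => {q, q'}
  | .rd q q' => {q, q'}
  | .chk _ q => {q}
  | .jmp q => {q}
  | .stop => ∅

/-- a bound for the register used -/
def Ins.rbd {Q : Type} : Ins Q ℕ → ℕ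
  | .inc r _ => r + 1
  | .dec r _ _ => r + 1
  | .rd _ _ => 0
  | .chk r _ => r + 1
  | .jmp _ => 0
  | .stop => 0

/-- the states occurring in the execution of `P` with the continuation `k` -/
def conts : SP → List SP → Set (List SP)
  | skip, k => {skip :: k}
  | inc r, k => {inc r :: k}
  | chk r, k => {chk r :: k}
  | whl r P, k => {whl r P :: k} ∪ conts P (whl r P :: k)
  | seq P Q, k => {seq P Q :: k} ∪ (conts P (Q :: k) ∪ conts Q k)
  | rd P Q, k => {rd P Q :: k} ∪ (conts P k ∪ conts Q k)
  | fore P, k => {fore P :: k} ∪ conts P (fore P :: k)

lemma conts_finite (P : SP) (k : List SP) : (conts P k).Finite := by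
  induction P generalizing k with
  | skip => exact Set.finite_singleton _
  | inc r => exact Set.finite_singleton _
  | chk r => exact Set.finite_singleton _
  | whl r P ih => exact (Set.finite_singleton _).union (ih _)
  | seq P Q ihP ihQ => exact (Set.finite_singleton _).union ((ihP _).union (ihQ _))
  | rd P Q ihP ihQ => exact (Set.finite_singleton _).union ((ihP _).union (ihQ _))
  | fore P ih => exact (Set.finite_singleton _).union (ih _)

lemma mem_conts (P : SP) (k : List SP) : P :: k ∈ conts P k := by
  cases P <;> simp [conts]

lemma conts_closed (P : SP) (k : List SP) :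
    ∀ q ∈ conts P k, (spins q).succs ⊆ conts P k ∪ {k} := by
  induction P generalizing k with
  | skip =>
    rintro q rfl
    simp [spins, Ins.succs]
  | inc r =>
    rintro q rfl
    simp [spins, Ins.succs]
  | chk r =>
    rintro q rfl
    simp [spins, Ins.succs]
  | whl r P ih =>
    rintro q (hq | hq)
    · have : q = whl r P :: k := hq
      subst this
      rintro q' (hq' | hq')
      · left; right
        rw [hq']; exact mem_conts _ _
      · right; exact hq'
    · intro q' hq'
      rcases ih _ q hq hq' with h | h
      · left; right; exact h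
      · left; left; exact h
  | seq P Q ihP ihQ =>
    rintro q (hq | hq | hq)
    · have : q = seq P Q :: k := hq
      subst this
      intro q' hq'
      have : q' = P :: Q :: k := hq'
      subst this
      left; right; left; exact mem_conts _ _
    · intro q' hq'
      rcases ihP _ q hq hq' with h | h
      · left; right; left; exact h
      · have : q' = Q :: k := h
        subst this
        left; right; right; exact mem_conts _ _
    · intro q' hq'
      rcases ihQ _ q hq hq' with h | h
      · left; right; right; exact h
      · right; exact h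
  | rd P Q ihP ihQ =>
    rintro q (hq | hq | hq)
    · have : q = rd P Q :: k := hq
      subst this
      rintro q' (hq' | hq')
      · left; right; left; rw [hq']; exact mem_conts _ _
      · left; right; right
        have : q' = Q :: k := hq'
        rw [this]; exact mem_conts _ _
    · intro q' hq'
      rcases ihP _ q hq hq' with h | h
      · left; right; left; exact h
      · right; exact h
    · intro q' hq'
      rcases ihQ _ q hq hq' with h | h
      · left; right; right; exact h
      · right; exact h
  | fore P ih =>
    rintro q (hq | hq)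
    · have : q = fore P :: k := hq
      subst this
      intro q' hq'
      have : q' = P :: fore P :: k := hq'
      subst this
      left; right; exact mem_conts _ _
    · intro q' hq'
      rcases ih _ q hq hq' with h | h
      · left; right; exact h
      · left; left; exact h

/-- Transfer to a machine with finitely many states and registers. -/
theorem exists_finite_machine {Q : Type} (ins : Q → Ins Q ℕ) (q0 : Q) (S : Set Q) (hS : S.Finite)
    (h0 : q0 ∈ S) (hcl : ∀ q ∈ S, (ins q).succs ⊆ S) :
    ∃ (N K : ℕ) (ins' : Fin N → Ins (Fin N) (Fin K)) (q0' : Fin N), ∀ (x : ℕ → Bool) (n : ℕ),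
      ((dr ins' x (q0', 0, 0) n).map fun c => c.2.2) =
        (dr ins x (q0, 0, 0) n).map fun c => c.2.2 := by
  classical
  have : Finite S := hS
  obtain ⟨N, ⟨e⟩⟩ := Finite.exists_equiv_fin S
  obtain ⟨K, hK⟩ : ∃ K, ∀ q ∈ S, (ins q).rbd ≤ K := by
    obtain ⟨K, hK⟩ := (hS.image (fun q => (ins q).rbd)).bddAbove
    exact ⟨K, fun q hq => hK ⟨q, hq, rfl⟩⟩
  let tr : Q → Fin N := fun q => if h : q ∈ S then e ⟨q, h⟩ else e ⟨q0, h0⟩
  let rg : ℕ → Fin (K + 1) := fun r => Fin.ofNat (K + 1) r
  let ins' : Fin N → Ins (Fin N) (Fin (K + 1)) := fun i =>
    match ins (e.symm i) with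
    | .inc r q => .inc (rg r) (tr q)
    | .dec r q q' => .dec (rg r) (tr q) (tr q')
    | .rd q q' => .rd (tr q) (tr q')
    | .chk r q => .chk (rg r) (tr q)
    | .jmp q => .jmp (tr q)
    | .stop => .stop
  let T : Cfg Q ℕ → Cfg (Fin N) (Fin (K + 1)) := fun c => (tr c.1, fun i => c.2.1 i, c.2.2)
  have hrg : ∀ r, r + 1 ≤ K → ((rg r : Fin (K + 1)) : ℕ) = r := by
    intro r hr
    simp only [rg, Fin.ofNat]
    exact Nat.mod_eq_of_lt (by omega)
  have hupd : ∀ (s : ℕ → ℕ) (r v : ℕ), r + 1 ≤ K →
      (fun i : Fin (K + 1) => update s r v i) = update (fun i : Fin (K + 1) => s i) (rg r) v := by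
    intro s r v hr
    funext i
    by_cases h : i = rg r
    · subst h
      rw [update_self, hrg r hr, update_self]
    · rw [update_of_ne h, update_of_ne]
      intro h'
      apply h
      apply Fin.ext
      rw [hrg r hr, h']
  have htr : ∀ q (h : q ∈ S), e.symm (tr q) = ⟨q, h⟩ := by
    intro q h
    simp only [tr, dif_pos h, Equiv.symm_apply_apply]
  have hstep : ∀ x (c : Cfg Q ℕ), c.1 ∈ S →
      dstep ins' x (T c) = (dstep ins x c).map T ∧
      ∀ d, dstep ins x c = some d → d.1 ∈ S := by
    rintro x ⟨q, s, p⟩ hq
    change q ∈ S at hq
    have hcl' := hcl q hq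
    have hr := hK q hq
    have e1 : ((e.symm (tr q) : S) : Q) = q := by rw [htr q hq]
    simp only [dstep, T, ins', e1]
    cases hi : ins q with
    | inc r q' =>
      rw [hi] at hcl' hr
      refine ⟨?_, ?_⟩
      · simp only [Option.map_some, Option.some.injEq, Prod.mk.injEq, and_true, true_and]
        rw [hupd s r _ hr, hrg r hr]
      · rintro d hd
        simp only [Option.some.injEq] at hd
        subst hd
        exact hcl' rfl
    | dec r q' q'' =>
      rw [hi] at hcl' hr
      simp only
      rw [hrg r hr]
      split_ifs with h
      · refine ⟨rfl, ?_⟩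
        rintro d hd
        simp only [Option.some.injEq] at hd
        subst hd
        exact hcl' (Or.inr rfl)
      · refine ⟨?_, ?_⟩
        · simp only [Option.map_some, Option.some.injEq, Prod.mk.injEq, and_true, true_and]
          rw [hupd s r _ hr]
        · rintro d hd
          simp only [Option.some.injEq] at hd
          subst hd
          exact hcl' (Or.inl rfl)
    | rd q' q'' =>
      rw [hi] at hcl'
      refine ⟨?_, ?_⟩
      · simp only [Option.map_some, Option.some.injEq, Prod.mk.injEq, and_true]
        split_ifs <;> rfl
      · rintro d hd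
        simp only [Option.some.injEq] at hd
        subst hd
        simp only
        split_ifs
        · exact hcl' (Or.inl rfl)
        · exact hcl' (Or.inr rfl)
    | chk r q' =>
      rw [hi] at hcl' hr
      simp only
      rw [hrg r hr]
      split_ifs with h
      · refine ⟨rfl, ?_⟩
        rintro d hd
        simp only [Option.some.injEq] at hd
        subst hd
        exact hcl' rfl
      · refine ⟨rfl, ?_⟩
        rintro d hd
        exact absurd hd (by simp)
    | jmp q' =>
      rw [hi] at hcl'
      refine ⟨rfl, ?_⟩
      rintro d hd
      simp only [Option.some.injEq] at hd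
      subst hd
      exact hcl' rfl
    | stop =>
      refine ⟨rfl, ?_⟩
      rintro d hd
      exact absurd hd (by simp)
  refine ⟨N, K + 1, ins', tr q0, fun x n => ?_⟩
  have main : ∀ n, dr ins' x (T (q0, 0, 0)) n = (dr ins x (q0, 0, 0) n).map T ∧
      ∀ d, dr ins x (q0, 0, 0) n = some d → d.1 ∈ S := by
    intro n
    induction n with
    | zero =>
      refine ⟨rfl, ?_⟩
      rintro d hd
      simp only [dr, Option.some.injEq] at hd
      subst hd
      exact h0
    | succ n ih =>
      obtain ⟨ih1, ih2⟩ := ih
      simp only [dr, ih1]
      cases hd : dr ins x (q0, 0, 0) n with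
      | none => exact ⟨rfl, fun d h => absurd h (by simp)⟩
      | some d => exact hstep x d (ih2 d hd)
  have h := (main n).1
  have hT : T (q0, 0, 0) = (tr q0, 0, 0) := rfl
  rw [hT] at h
  rw [h, Option.map_map]
  rfl

end Pool.Agent.Helper74.Ctr
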