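import Pool.Agent.Helper74.CtrMach
import Pool.Agent.Helper76.MedInterface

/-!
From counter machines to history systems.
-/

set_option autoImplicit false
set_option linter.unusedSectionVars false

namespace Pool.Agent.Helper74.Ctr

open Function Pool.Agent.Helper76.Med

section

variable {N K : ℕ} (ins : Fin N → Ins (Fin N) (Fin K)) (q0 : Fin N)

/-- the next state when the symbol `(q, b)` is executed -/
def nxt (a : Fin N × Bool) : Option (Fin N) :=
  match ins a.1 with
  | .inc _ q => some q
  | .dec _ q q' => some (if a.2 then q else q')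
  | .rd q q' => some (if a.2 then q else q')
  | .chk _ q => some q
  | .jmp q => some q
  | .stop => none

/-- the operation of the symbol `(q, b)` -/
def opn (a : Fin N × Bool) : Option (Fin K × (Fin 1 ⊕ Option (Fin 1))) :=
  match ins a.1 with
  | .inc r _ => some (r, Sum.inl 0)
  | .dec r _ _ => some (r, Sum.inr (if a.2 then some 0 else none))
  | .rd _ _ => none
  | .chk r _ => some (r, Sum.inr none)
  | .jmp _ => none
  | .stop => none

/-- the bit read by the symbol `(q, b)` -/
def rbit (a : Fin N × Bool) : Option Bool :=
  match ins a.1 with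
  | .rd _ _ => some a.2
  | _ => none

/-- the symbol of a configuration -/
def sym (x : ℕ → Bool) (c : Cfg (Fin N) (Fin K)) : Fin N × Bool :=
  (c.1, match ins c.1 with
    | .dec r _ _ => decide (c.2.1 r ≠ 0)
    | .rd _ _ => x c.2.2
    | _ => false)

/-- number of the instructions of the history system -/
abbrev gg (N : ℕ) : ℕ := Fintype.card (Option (Fin N × Bool))

/-- coding of the instructions -/
noncomputable def ee (N : ℕ) : Option (Fin N × Bool) ≃ Fin (gg N) := Fintype.equivFin _

/-- the history system of a counter machine -/
noncomputable def toHist : Hist where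
  g := gg N
  K := K
  G := 1
  isInit := fun a => ((ee N).symm a).isNone
  E := fun a b =>
    match (ee N).symm a, (ee N).symm b with
    | none, some b => decide (b.1 = q0)
    | some a, some b => decide (nxt ins a = some b.1)
    | _, none => false
  op := fun a =>
    match (ee N).symm a with
    | none => none
    | some a => opn ins a
  op_init := by
    intro a h
    cases ha : (ee N).symm a with
    | none => rfl
    | some b => rw [ha] at h; simp at h

end

/-! ### computability -/

section comp

variable {N K : ℕ} (ins : Fin N → Ins (Fin N) (Fin K)) (q0 : Fin N)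

lemma primrec_update {K : ℕ} (r : Fin K) {α : Type} [Primcodable α] {f : α → Fin K → ℕ}
    {g : α → ℕ} (hf : Primrec f) (hg : Primrec g) :
    Primrec (fun a => update (f a) r (g a)) := by
  rw [Primrec.fin_curry]
  have h1 : Primrec₂ (fun (a : α) (i : Fin K) => f a i) := Primrec.fin_curry.1 hf
  have h2 : PrimrecPred (fun p : α × Fin K => p.2 = r) :=
    Primrec.eq.comp Primrec.snd (Primrec.const r)
  refine (Primrec.ite h2 (hg.comp Primrec.fst) h1).of_eq ?_
  rintro ⟨a, i⟩
  by_cases h : i = r
  · subst h; simp
  · simp [h]

lemma primrec_dstep : Primrec (fun p : List Bool × Cfg (Fin N) (Fin K) =>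
    dstep ins (fun i => p.1.getD i false) p.2) := by
  have key : ∀ q : Fin N, Primrec (fun p : List Bool × ((Fin K → ℕ) × ℕ) =>
      dstep ins (fun i => p.1.getD i false) (q, p.2)) := by
    intro q
    have hs : Primrec (fun p : List Bool × ((Fin K → ℕ) × ℕ) => p.2.1) :=
      Primrec.fst.comp Primrec.snd
    have hp : Primrec (fun p : List Bool × ((Fin K → ℕ) × ℕ) => p.2.2) :=
      Primrec.snd.comp Primrec.snd
    have hsr : ∀ r : Fin K, Primrec (fun p : List Bool × ((Fin K → ℕ) × ℕ) => p.2.1 r) := by
      intro r
      have : Primrec₂ (fun (p : List Bool × ((Fin K → ℕ) × ℕ)) (i : Fin K) => p.2.1 i) :=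
        Primrec.fin_curry.1 hs
      exact this.comp Primrec.id (Primrec.const r)
    have hz : ∀ r : Fin K, PrimrecPred (fun p : List Bool × ((Fin K → ℕ) × ℕ) =>
        p.2.1 r = 0) := fun r => Primrec.eq.comp (hsr r) (Primrec.const 0)
    unfold dstep
    simp only
    cases ins q with
    | inc r q' =>
      simp only
      exact Primrec.option_some.comp ((Primrec.const q').pair
        ((primrec_update r hs (Primrec.succ.comp (hsr r))).pair hp))
    | dec r q' q'' =>
      simp only
      refine Primrec.ite (hz r) ?_ ?_
      · exact Primrec.option_some.comp ((Primrec.const q'').pair (hs.pair hp))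
      · exact Primrec.option_some.comp ((Primrec.const q').pair
          ((primrec_update r hs (Primrec.pred.comp (hsr r))).pair hp))
    | rd q' q'' =>
      simp only
      refine Primrec.option_some.comp (Primrec.pair ?_ (hs.pair (Primrec.succ.comp hp)))
      have hb : Primrec (fun p : List Bool × ((Fin K → ℕ) × ℕ) => p.1.getD p.2.2 false) :=
        (Primrec.list_getD false).comp Primrec.fst hp
      refine (Primrec.cond hb (Primrec.const q') (Primrec.const q'')).of_eq ?_
      intro p
      exact Bool.cond_eq_ite ..
    | chk r q' =>
      simp only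
      exact Primrec.ite (hz r) (Primrec.option_some.comp ((Primrec.const q').pair (hs.pair hp)))
        (Primrec.const none)
    | jmp q' =>
      simp only
      exact Primrec.option_some.comp ((Primrec.const q').pair (hs.pair hp))
    | stop => exact Primrec.const none
  have h := (Primrec.fin_curry₁ (f := fun (q : Fin N) (p : List Bool × ((Fin K → ℕ) × ℕ)) =>
      dstep ins (fun i => p.1.getD i false) (q, p.2))).2 key
  exact (h.comp (g := fun p : List Bool × Cfg (Fin N) (Fin K) => p.2.1)
    (h := fun p => (p.1, p.2.2)) (Primrec.fst.comp Primrec.snd)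
    (Primrec.fst.pair (Primrec.snd.comp Primrec.snd))).of_eq (fun _ => rfl)

lemma primrec_dr (c : Cfg (Fin N) (Fin K)) : Primrec (fun p : List Bool × ℕ =>
    dr ins (fun i => p.1.getD i false) c p.2) := by
  have hg : Primrec₂ (fun (p : List Bool × ℕ) (q : ℕ × Option (Cfg (Fin N) (Fin K))) =>
      q.2.bind (dstep ins (fun i => p.1.getD i false))) := by
    refine Primrec.option_bind (Primrec.snd.comp Primrec.snd) ?_
    exact (primrec_dstep ins).comp ((Primrec.fst.comp (Primrec.fst.comp Primrec.fst)).pair
      Primrec.snd)
  refine (Primrec.nat_rec' (f := fun p : List Bool × ℕ => p.2)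
    (g := fun _ => some c) Primrec.snd (Primrec.const _) hg).of_eq ?_
  rintro ⟨σ, n⟩
  induction n with
  | zero => rfl
  | succ n ih =>
    simp only at ih ⊢
    simp only [dr, ← ih]

lemma primrec_sym : Primrec (fun p : List Bool × Cfg (Fin N) (Fin K) =>
    sym ins (fun i => p.1.getD i false) p.2) := by
  have key : ∀ q : Fin N, Primrec (fun p : List Bool × ((Fin K → ℕ) × ℕ) =>
      sym ins (fun i => p.1.getD i false) (q, p.2)) := by
    intro q
    have hs : Primrec (fun p : List Bool × ((Fin K → ℕ) × ℕ) => p.2.1) :=
      Primrec.fst.comp Primrec.snd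
    have hp : Primrec (fun p : List Bool × ((Fin K → ℕ) × ℕ) => p.2.2) :=
      Primrec.snd.comp Primrec.snd
    have hsr : ∀ r : Fin K, Primrec (fun p : List Bool × ((Fin K → ℕ) × ℕ) => p.2.1 r) := by
      intro r
      have : Primrec₂ (fun (p : List Bool × ((Fin K → ℕ) × ℕ)) (i : Fin K) => p.2.1 i) :=
        Primrec.fin_curry.1 hs
      exact this.comp Primrec.id (Primrec.const r)
    unfold sym
    simp only
    refine (Primrec.const q).pair ?_
    cases ins q with
    | inc r q' => exact Primrec.const _
    | dec r q' q'' =>
      simp only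
      have hz : PrimrecPred (fun p : List Bool × ((Fin K → ℕ) × ℕ) => ¬ p.2.1 r = 0) :=
        (Primrec.eq.comp (hsr r) (Primrec.const 0) :
          PrimrecPred (fun p : List Bool × ((Fin K → ℕ) × ℕ) => p.2.1 r = 0)).not
      refine (Primrec.ite hz (Primrec.const true) (Primrec.const false)).of_eq ?_
      intro p
      by_cases h : p.2.1 r = 0 <;> simp [h]
    | rd q' q'' =>
      exact (Primrec.list_getD false).comp Primrec.fst hp
    | chk r q' => exact Primrec.const _
    | jmp q' => exact Primrec.const _
    | stop => exact Primrec.const _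
  have h := (Primrec.fin_curry₁ (f := fun (q : Fin N) (p : List Bool × ((Fin K → ℕ) × ℕ)) =>
      sym ins (fun i => p.1.getD i false) (q, p.2))).2 key
  exact (h.comp (g := fun p : List Bool × Cfg (Fin N) (Fin K) => p.2.1)
    (h := fun p => (p.1, p.2.2)) (Primrec.fst.comp Primrec.snd)
    (Primrec.fst.pair (Primrec.snd.comp Primrec.snd))).of_eq (fun _ => rfl)

/-- the symbol number `n` of the run of the machine driven by the bits in the list -/
noncomputable def outsym (σ : List Bool) : ℕ → Option (Fin (gg N))
  | 0 => some (ee N none)
  | n + 1 => (dr ins (fun i => σ.getD i false) (q0, 0, 0) n).map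
      fun c => ee N (some (sym ins (fun i => σ.getD i false) c))

lemma primrec_outsym : Primrec (fun p : List Bool × ℕ => outsym ins q0 p.1 p.2) := by
  have h1 : Primrec₂ (fun (p : List Bool × ℕ) (n : ℕ) =>
      (dr ins (fun i => p.1.getD i false) (q0, 0, 0) n).map
      fun c => ee N (some (sym ins (fun i => p.1.getD i false) c))) := by
    refine Primrec.option_map ?_ ?_
    · exact (primrec_dr ins (q0, 0, 0)).comp ((Primrec.fst.comp Primrec.fst).pair Primrec.snd)
    · refine (Primrec.dom_finite (ee N)).comp (Primrec.option_some.comp ?_)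
      exact (primrec_sym ins).comp ((Primrec.fst.comp (Primrec.fst.comp Primrec.fst)).pair
        Primrec.snd)
  refine (Primrec.nat_casesOn (f := fun p : List Bool × ℕ => p.2) Primrec.snd
    (Primrec.const (some (ee N none))) h1).of_eq ?_
  rintro ⟨σ, n⟩
  cases n <;> rfl

end comp

end Pool.Agent.Helper74.Ctr
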