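import Pool.Agent.Helper74.CtrHist

/-!
From counter machines to history systems: the two reductions.
-/

set_option autoImplicit false
set_option linter.unusedSectionVars false

namespace Pool.Agent.Helper74.Ctr

open Function Pool.Agent.Helper76.Med

lemma head_fin1 (l : List (Fin 1)) : l.head? = if l.length = 0 then none else some 0 := by
  cases l with
  | nil => rfl
  | cons a l =>
    simp only [List.head?_cons, List.length_cons, Nat.add_eq_zero_iff, one_ne_zero, and_false,
      if_false, Option.some.injEq]
    exact Subsingleton.elim _ _

section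

variable {N K : ℕ} (ins : Fin N → Ins (Fin N) (Fin K)) (q0 : Fin N)

/-- lengths of the stacks -/
def len (s : Fin K → List (Fin 1)) : Fin K → ℕ := fun r => (s r).length

/-- effect on the stacks -/
noncomputable def capp (o : Option (Fin K × (Fin 1 ⊕ Option (Fin 1)))) (s : Fin K → List (Fin 1)) :
    Fin K → List (Fin 1) := (toHist ins q0).app o s

/-- is the operation allowed? -/
def cok (o : Option (Fin K × (Fin 1 ⊕ Option (Fin 1)))) (s : Fin K → List (Fin 1)) :
    Prop := (toHist ins q0).OpOK o s

lemma len_push (r : Fin K) (s : Fin K → List (Fin 1)) :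
    len (capp ins q0 (some (r, Sum.inl 0)) s) = update (len s) r (len s r + 1) := by
  funext i
  change ((update s r (0 :: s r)) i).length = _
  by_cases h : i = r
  · subst h; simp [len]
  · simp [h, len]

lemma len_pop (r : Fin K) (o : Option (Fin 1)) (s : Fin K → List (Fin 1)) :
    len (capp ins q0 (some (r, Sum.inr o)) s) = update (len s) r (len s r - 1) := by
  funext i
  change ((update s r (s r).tail) i).length = _
  by_cases h : i = r
  · subst h; simp [len]
  · simp [h, len]

lemma len_none (s : Fin K → List (Fin 1)) : len (capp ins q0 none s) = len s := rfl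

lemma cok_none (s : Fin K → List (Fin 1)) : cok ins q0 none s := trivial

lemma cok_push (r : Fin K) (s : Fin K → List (Fin 1)) : cok ins q0 (some (r, Sum.inl 0)) s :=
  trivial

lemma cok_pop (r : Fin K) (o : Option (Fin 1)) (s : Fin K → List (Fin 1)) :
    cok ins q0 (some (r, Sum.inr o)) s ↔ (if len s r = 0 then none else some 0) = o := by
  change (s r).head? = o ↔ _
  rw [head_fin1]; rfl

lemma step_of_sym (x : ℕ → Bool) (p : ℕ) (a : Fin N × Bool) (s : Fin K → List (Fin 1))
    (hrd : ∀ q q', ins a.1 = .rd q q' → x p = a.2) (hok : cok ins q0 (opn ins a) s) (q' : Fin N)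
    (hn : nxt ins a = some q') :
    dstep ins x (a.1, len s, p) =
      some (q', len (capp ins q0 (opn ins a) s), p + (rbit ins a).toList.length) := by
  unfold dstep opn rbit at *
  unfold nxt at hn
  cases hi : ins a.1 with
  | inc r q =>
    rw [hi] at hn hok
    simp only [Option.some.injEq] at hn hok ⊢
    rw [len_push, hn]; rfl
  | dec r q q'' =>
    rw [hi] at hn hok
    simp only [Option.some.injEq] at hn hok ⊢
    rw [cok_pop] at hok
    rw [len_pop]
    by_cases h : len s r = 0
    · rw [if_pos h] at hok ⊢
      have hb : a.2 = false := by
        by_contra hb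
        rw [Bool.not_eq_false] at hb
        rw [hb] at hok
        simp at hok
      rw [hb] at hn
      simp only [Bool.false_eq_true, if_false] at hn
      rw [hn]
      have : update (len s) r (len s r - 1) = len s := by
        rw [h, Nat.zero_sub, ← h, update_eq_self]
      rw [this]; rfl
    · rw [if_neg h] at hok ⊢
      have hb : a.2 = true := by
        by_contra hb
        rw [Bool.not_eq_true] at hb
        rw [hb] at hok
        simp at hok
      rw [hb] at hn
      simp only [if_true] at hn
      rw [hn]; rfl
  | rd q q'' =>
    have hx := hrd _ _ hi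
    rw [hi] at hn hok
    simp only [Option.some.injEq] at hn ⊢
    rw [hx, hn]; rfl
  | chk r q =>
    rw [hi] at hn hok
    simp only [Option.some.injEq] at hn hok ⊢
    rw [cok_pop] at hok
    rw [len_pop]
    have h : len s r = 0 := by
      by_contra h
      rw [if_neg h] at hok
      simp at hok
    rw [if_pos h, hn]
    have : update (len s) r (len s r - 1) = len s := by
      rw [h, Nat.zero_sub, ← h, update_eq_self]
    rw [this]; rfl
  | jmp q =>
    rw [hi] at hn hok
    simp only [Option.some.injEq] at hn ⊢
    rw [hn]; rfl
  | stop =>
    rw [hi] at hn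
    simp at hn

lemma sym_of_step (x : ℕ → Bool) (c c' : Cfg (Fin N) (Fin K)) (s : Fin K → List (Fin 1))
    (hs : len s = c.2.1) (h : dstep ins x c = some c') :
    cok ins q0 (opn ins (sym ins x c)) s ∧ nxt ins (sym ins x c) = some c'.1 ∧
      len (capp ins q0 (opn ins (sym ins x c)) s) = c'.2.1 := by
  obtain ⟨q, ρ, p⟩ := c
  simp only at hs
  subst hs
  unfold dstep at h
  unfold sym opn nxt
  cases hi : ins q with
  | inc r q' =>
    simp only [hi, Option.some.injEq] at h ⊢
    subst h
    exact ⟨cok_push ins q0 _ _, rfl, len_push ins q0 _ _⟩
  | dec r q' q'' =>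
    simp only [hi] at h ⊢
    rw [cok_pop, len_pop]
    by_cases h0 : len s r = 0
    · rw [if_pos h0] at h
      simp only [Option.some.injEq] at h
      subst h
      have : update (len s) r (len s r - 1) = len s := by
        rw [h0, Nat.zero_sub, ← h0, update_eq_self]
      rw [this]
      simp [h0]
    · rw [if_neg h0] at h
      simp only [Option.some.injEq] at h
      subst h
      simp [h0]
  | rd q' q'' =>
    simp only [hi, Option.some.injEq] at h ⊢
    subst h
    exact ⟨cok_none ins q0 _, rfl, len_none ins q0 _⟩
  | chk r q' =>
    simp only [hi] at h ⊢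
    split_ifs at h with h0
    simp only [Option.some.injEq] at h
    subst h
    rw [cok_pop, len_pop]
    have : update (len s) r (len s r - 1) = len s := by
      rw [h0, Nat.zero_sub, ← h0, update_eq_self]
    rw [this]
    simp [h0]
  | jmp q' =>
    simp only [hi, Option.some.injEq] at h ⊢
    subst h
    exact ⟨cok_none ins q0 _, rfl, len_none ins q0 _⟩
  | stop =>
    simp only [hi] at h
    exact absurd h (by simp)

end

lemma exists_limit (R : ℕ → List Bool) (h : ∀ n, R n <+: R (n + 1)) :
    ∃ x : ℕ → Bool, ∀ n i b, (R n)[i]? = some b → x i = b := by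
  have hmono : ∀ m n, m ≤ n → R m <+: R n := by
    intro m n hmn
    induction n, hmn using Nat.le_induction with
    | base => exact List.prefix_rfl
    | succ n _ ih => exact ih.trans (h n)
  have hget : ∀ (m n i : ℕ) (b : Bool), m ≤ n → (R m)[i]? = some b → (R n)[i]? = some b := by
    intro m n i b hmn hb
    obtain ⟨t, ht⟩ := hmono m n hmn
    rw [← ht]
    obtain ⟨hi, hb⟩ := List.getElem?_eq_some_iff.1 hb
    rw [List.getElem?_append_left hi]
    exact List.getElem?_eq_some_iff.2 ⟨hi, hb⟩
  classical
  refine ⟨fun i => if hh : ∃ b n, (R n)[i]? = some b then hh.choose else false, ?_⟩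
  intro n i b hb
  have hh : ∃ b n, (R n)[i]? = some b := ⟨b, n, hb⟩
  simp only [dif_pos hh]
  obtain ⟨m, hm⟩ := hh.choose_spec
  rcases le_total m n with hmn | hmn
  · have := hget m n i _ hmn hm
    rw [hb] at this
    exact (Option.some.inj this).symm
  · have := hget n m i _ hmn hb
    rw [hm] at this
    exact Option.some.inj this

lemma seg_succ {α : Type} (y : ℕ → α) (n : ℕ) : seg y (n + 1) = seg y n ++ [y n] := by
  simp [seg, List.range_succ]

lemma length_seg {α : Type} (y : ℕ → α) (n : ℕ) : (seg y n).length = n := by
  simp [seg]

lemma seg_getD (x : ℕ → Bool) (k i : ℕ) (h : i < k) : (seg x k).getD i false = x i := by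
  simp [seg, List.getD, h]

section

variable {N K : ℕ} (ins : Fin N → Ins (Fin N) (Fin K)) (q0 : Fin N)

/-- the bit read by an instruction -/
noncomputable def rb (a : Fin (gg N)) : Option Bool :=
  match (ee N).symm a with
  | none => none
  | some a => rbit ins a

/-- the set of points for which the machine runs forever -/
def good : Set (ℕ → Bool) := {x | ∀ n, (dr ins x (q0, 0, 0) n).isSome = true}

theorem medLE_one (hinf : ∀ x ∈ good ins q0, ∀ m, ∃ n c, dr ins x (q0, 0, 0) n = some c ∧
    m ≤ c.2.2) : MedLE (good ins q0) (toHist ins q0).Runs := by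
  refine ⟨fun p => (p.1.filterMap (rb ins))[p.2]?, ?_, ?_⟩
  · refine Primrec.to_comp ?_
    refine Primrec.list_getElem?.comp ?_ Primrec.snd
    exact Primrec.listFilterMap Primrec.fst
      ((Primrec.dom_finite (rb ins)).comp Primrec.snd)
  · intro (y : ℕ → Fin (gg N)) hy
    obtain ⟨h0, h1, hE, hO⟩ := hy
    have ha0 : (ee N).symm (y 0) = none := by
      have : ((ee N).symm (y 0)).isNone = true := h0
      simpa using this
    have ha1 : ∀ n, ∃ b, (ee N).symm (y (n + 1)) = some b := by
      intro n
      have : ((ee N).symm (y (n + 1))).isNone = false := h1 n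
      cases h : (ee N).symm (y (n + 1)) with
      | none => rw [h] at this; simp at this
      | some b => exact ⟨b, rfl⟩
    choose b hb using ha1
    have hb0 : (b 0).1 = q0 := by
      have h := hE 0
      simp only [toHist] at h
      rw [ha0, hb 0] at h
      simpa using h
    have hbn : ∀ n, nxt ins (b n) = some (b (n + 1)).1 := by
      intro n
      have h := hE (n + 1)
      simp only [toHist] at h
      rw [hb n, hb (n + 1)] at h
      simpa using h
    have hop0 : (toHist ins q0).op (y 0) = none := by
      simp only [toHist]
      rw [ha0]
    have hopn : ∀ n, (toHist ins q0).op (y (n + 1)) = opn ins (b n) := by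
      intro n
      simp only [toHist]
      rw [hb n]
    let S : ℕ → Fin K → List (Fin 1) := fun n => (toHist ins q0).stk y (n + 1)
    have hS0 : S 0 = fun _ => [] := by
      change (toHist ins q0).app ((toHist ins q0).op (y 0)) _ = _
      rw [hop0]; rfl
    have hSn : ∀ n, S (n + 1) = capp ins q0 (opn ins (b n)) (S n) := by
      intro n
      change (toHist ins q0).app ((toHist ins q0).op (y (n + 1))) _ = _
      rw [hopn]; rfl
    have hok : ∀ n, cok ins q0 (opn ins (b n)) (S n) := by
      intro n
      have h := hO (n + 1)
      rw [hopn] at h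
      exact h
    let R : ℕ → List Bool := fun n => (seg y n).filterMap (rb ins)
    have hR : ∀ n, R (n + 1) = R n ++ (rb ins (y n)).toList := by
      intro n
      simp only [R, seg_succ, List.filterMap_append]
      cases h : rb ins (y n) <;> simp [h]
    obtain ⟨x, hx⟩ := exists_limit R (fun n => ⟨_, (hR n).symm⟩)
    have hrb0 : rb ins (y 0) = none := by
      unfold rb; rw [ha0]
    have hrbn : ∀ n, rb ins (y (n + 1)) = rbit ins (b n) := by
      intro n; unfold rb; rw [hb n]
    have hrun : ∀ n, dr ins x (q0, 0, 0) n = some ((b n).1, len (S n), (R (n + 1)).length) := by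
      intro n
      induction n with
      | zero =>
        have e1 : len (S 0) = 0 := by rw [hS0]; rfl
        have e2 : (R 1).length = 0 := by
          rw [hR 0, hrb0]; rfl
        rw [e1, e2, hb0]; rfl
      | succ n ih =>
        simp only [dr, ih, Option.bind_some]
        have hrd : ∀ q q', ins (b n).1 = .rd q q' → x (R (n + 1)).length = (b n).2 := by
          intro q q' hi
          apply hx (n + 2)
          rw [hR (n + 1), hrbn n]
          have : rbit ins (b n) = some (b n).2 := by
            unfold rbit; rw [hi]
          rw [this]
          simp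
        rw [step_of_sym ins q0 x (R (n + 1)).length (b n) (S n) hrd (hok n) _ (hbn n), hSn n,
          hR (n + 1), hrbn n, List.length_append]
    have hgood : x ∈ good ins q0 := by
      intro n
      rw [hrun n]; rfl
    refine ⟨x, hgood, ?_⟩
    intro n
    classical
    have hex : ∃ k, ((R k)[n]?).isSome = true := by
      obtain ⟨m, c, hc, hle⟩ := hinf x hgood (n + 1)
      rw [hrun m] at hc
      simp only [Option.some.injEq] at hc
      subst hc
      simp only at hle
      refine ⟨m + 1, ?_⟩
      rw [List.getElem?_eq_getElem (by omega)]
      rfl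
    refine ⟨Nat.find hex, ?_, ?_⟩
    · obtain ⟨v, hv⟩ := Option.isSome_iff_exists.1 (Nat.find_spec hex)
      change (R (Nat.find hex))[n]? = some (x n)
      rw [hv, hx _ _ _ hv]
    · intro j hj
      have := Nat.find_min hex hj
      change (R j)[n]? = none
      simpa using this

theorem medLE_two : MedLE (toHist ins q0).Runs (good ins q0) := by
  refine ⟨fun p => if p.1.length ≤ p.2 then none else outsym ins q0 p.1 p.2, ?_, ?_⟩
  · refine Primrec.to_comp ?_
    refine Primrec.ite ?_ (Primrec.const none) (primrec_outsym ins q0)
    exact Primrec.nat_le.comp (Primrec.list_length.comp Primrec.fst) Primrec.snd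
  · intro x hx
    have hex : ∀ n, ∃ c, dr ins x (q0, 0, 0) n = some c := fun n =>
      Option.isSome_iff_exists.1 (hx n)
    choose c hc using hex
    have hc0 : c 0 = (q0, 0, 0) := by
      have h := hc 0
      simp only [dr, Option.some.injEq] at h
      exact h.symm
    have hcn : ∀ n, dstep ins x (c n) = some (c (n + 1)) := by
      intro n
      have h := hc (n + 1)
      simp only [dr, hc n, Option.bind_some] at h
      exact h
    let y : ℕ → Fin (gg N) := fun n => match n with
      | 0 => ee N none
      | n + 1 => ee N (some (sym ins x (c n)))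
    have ha0 : (ee N).symm (y 0) = none := by simp [y]
    have han : ∀ n, (ee N).symm (y (n + 1)) = some (sym ins x (c n)) := by
      intro n; simp [y]
    have hop0 : (toHist ins q0).op (y 0) = none := by
      simp only [toHist]
      rw [ha0]
    have hopn : ∀ n, (toHist ins q0).op (y (n + 1)) = opn ins (sym ins x (c n)) := by
      intro n
      simp only [toHist]
      rw [han n]
    let S : ℕ → Fin K → List (Fin 1) := fun n => (toHist ins q0).stk y (n + 1)
    have hS0 : S 0 = fun _ => [] := by
      change (toHist ins q0).app ((toHist ins q0).op (y 0)) _ = _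
      rw [hop0]; rfl
    have hSn : ∀ n, S (n + 1) = capp ins q0 (opn ins (sym ins x (c n))) (S n) := by
      intro n
      change (toHist ins q0).app ((toHist ins q0).op (y (n + 1))) _ = _
      rw [hopn]; rfl
    have hlen : ∀ n, len (S n) = (c n).2.1 := by
      intro n
      induction n with
      | zero => rw [hS0, hc0]; rfl
      | succ n ih =>
        rw [hSn n]
        exact (sym_of_step ins q0 x (c n) (c (n + 1)) (S n) ih (hcn n)).2.2
    have hmaps : Maps (α := Bool) (β := Fin (gg N))
        (fun p => if p.1.length ≤ p.2 then none else outsym ins q0 p.1 p.2) x y := by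
      intro n
      refine ⟨n + 1, ?_, ?_⟩
      · simp only [length_seg]
        rw [if_neg (by omega)]
        cases n with
        | zero => rfl
        | succ n =>
          have hp := dr_pos ins x (hc n)
          simp only [Nat.zero_add] at hp
          have hcg : dr ins (fun i => (seg x (n + 1 + 1)).getD i false) (q0, 0, 0) n =
              dr ins x (q0, 0, 0) n :=
            dr_congr ins n (fun i hi => seg_getD x _ _ (by simp at hi; omega))
          have hsy : sym ins (fun i => (seg x (n + 1 + 1)).getD i false) (c n) =
              sym ins x (c n) := by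
            unfold sym
            simp only [seg_getD x (n + 1 + 1) (c n).2.2 (by omega)]
          simp only [outsym]
          rw [hcg, hc n]
          simp only [Option.map_some, hsy, y]
      · intro j hj
        simp only [length_seg]
        rw [if_pos (by omega)]
    refine ⟨y, ⟨?_, ?_, ?_, ?_⟩, hmaps⟩
    · change ((ee N).symm (y 0)).isNone = true
      rw [ha0]; rfl
    · intro n
      change ((ee N).symm (y (n + 1))).isNone = false
      rw [han]; rfl
    · intro n
      cases n with
      | zero =>
        simp only [toHist]
        rw [ha0, han 0]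
        simp [sym, hc0]
      | succ n =>
        simp only [toHist]
        rw [han n, han (n + 1)]
        have h := (sym_of_step ins q0 x (c n) (c (n + 1)) (S n) (hlen n) (hcn n)).2.1
        exact decide_eq_true h
    · intro n
      cases n with
      | zero =>
        rw [hop0]; exact trivial
      | succ n =>
        rw [hopn]
        exact (sym_of_step ins q0 x (c n) (c (n + 1)) (S n) (hlen n) (hcn n)).1

end

end Pool.Agent.Helper74.Ctr
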