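import Mathlib

/-!
Counter machines reading an infinite sequence of bits; structured programs.
-/

set_option autoImplicit false
set_option linter.unusedSectionVars false

namespace Pool.Agent.Helper74.Ctr

open Function

/-- instructions: `Q` are the states, `R` the registers -/
inductive Ins (Q R : Type) : Type
  | inc (r : R) (q : Q) : Ins Q R
  | dec (r : R) (q q' : Q) : Ins Q R
  | rd (q q' : Q) : Ins Q R
  | chk (r : R) (q : Q) : Ins Q R
  | jmp (q : Q) : Ins Q R
  | stop : Ins Q R

/-- configurations: state, registers, number of bits read -/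
abbrev Cfg (Q R : Type) : Type := Q × (R → ℕ) × ℕ

/-- one step, driven by the bit sequence `x` -/
def dstep {Q R : Type} [DecidableEq R] (ins : Q → Ins Q R) (x : ℕ → Bool) (c : Cfg Q R) :
    Option (Cfg Q R) :=
  match ins c.1 with
  | .inc r q => some (q, update c.2.1 r (c.2.1 r + 1), c.2.2)
  | .dec r q q' => if c.2.1 r = 0 then some (q', c.2.1, c.2.2)
      else some (q, update c.2.1 r (c.2.1 r - 1), c.2.2)
  | .rd q q' => some (if x c.2.2 then q else q', c.2.1, c.2.2 + 1)
  | .chk r q => if c.2.1 r = 0 then some (q, c.2.1, c.2.2) else none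
  | .jmp q => some (q, c.2.1, c.2.2)
  | .stop => none

/-- the configuration after `n` steps -/
def dr {Q R : Type} [DecidableEq R] (ins : Q → Ins Q R) (x : ℕ → Bool) (c : Cfg Q R) :
    ℕ → Option (Cfg Q R)
  | 0 => some c
  | n + 1 => (dr ins x c n).bind (dstep ins x)

section basic

variable {Q R : Type} [DecidableEq R] (ins : Q → Ins Q R) (x : ℕ → Bool)

lemma dr_add (c : Cfg Q R) (m n : ℕ) :
    dr ins x c (m + n) = (dr ins x c m).bind (fun d => dr ins x d n) := by
  induction n with
  | zero => simp [dr]
  | succ n ih =>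
    rw [← Nat.add_assoc]
    simp only [dr, ih]
    cases dr ins x c m with
    | none => rfl
    | some d => rfl

lemma dr_trans {c d e : Cfg Q R} {m n : ℕ} (h1 : dr ins x c m = some d)
    (h2 : dr ins x d n = some e) : dr ins x c (m + n) = some e := by
  rw [dr_add, h1]; exact h2

lemma dr_head {c d : Cfg Q R} {n : ℕ} (h : dstep ins x c = some d) :
    dr ins x c (n + 1) = dr ins x d n := by
  rw [Nat.add_comm, dr_add]
  simp [dr, h]

lemma dr_none_of_le {c : Cfg Q R} {m n : ℕ} (h : dr ins x c m = none) (hmn : m ≤ n) :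
    dr ins x c n = none := by
  obtain ⟨k, rfl⟩ := Nat.exists_eq_add_of_le hmn
  rw [dr_add, h]; rfl

lemma dr_isSome_of_le {c : Cfg Q R} {m n : ℕ} (h : (dr ins x c n).isSome) (hmn : m ≤ n) :
    (dr ins x c m).isSome := by
  by_contra hc
  rw [Option.not_isSome_iff_eq_none] at hc
  rw [dr_none_of_le ins x hc hmn] at h
  exact absurd h (by simp)

lemma dstep_pos {c d : Cfg Q R} (h : dstep ins x c = some d) :
    c.2.2 ≤ d.2.2 ∧ d.2.2 ≤ c.2.2 + 1 := by
  unfold dstep at h
  split at h
  · simp only [Option.some.injEq] at h; subst h; simp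
  · split_ifs at h
    · simp only [Option.some.injEq] at h; subst h; simp
    · simp only [Option.some.injEq] at h; subst h; simp
  · simp only [Option.some.injEq] at h; subst h; simp
  · split_ifs at h
    simp only [Option.some.injEq] at h; subst h; simp
  · simp only [Option.some.injEq] at h; subst h; simp
  · exact absurd h (by simp)

lemma dr_pos {c d : Cfg Q R} {n : ℕ} (h : dr ins x c n = some d) :
    d.2.2 ≤ c.2.2 + n := by
  induction n generalizing d with
  | zero =>
    simp only [dr, Option.some.injEq] at h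
    subst h; simp
  | succ n ih =>
    simp only [dr, Option.bind_eq_some_iff] at h
    obtain ⟨e, he, h⟩ := h
    have h1 := ih he
    have h2 := (dstep_pos ins x h).2
    omega

/-- only the bits below `n` matter -/
lemma dr_congr {x x' : ℕ → Bool} {c : Cfg Q R} (n : ℕ)
    (h : ∀ i < c.2.2 + n, x i = x' i) : dr ins x c n = dr ins x' c n := by
  induction n with
  | zero => rfl
  | succ n ih =>
    have e := ih (fun i hi => h i (by omega))
    simp only [dr, ← e]
    cases hd : dr ins x c n with
    | none => rfl
    | some d =>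
      have hp := dr_pos ins x hd
      simp only [Option.bind_some]
      unfold dstep
      rw [h d.2.2 (by omega)]

end basic

/-! ### structured programs -/

/-- structured programs -/
inductive SP : Type
  | skip : SP
  | inc (r : ℕ) : SP
  | chk (r : ℕ) : SP
  | whl (r : ℕ) (P : SP) : SP
  | seq (P Q : SP) : SP
  | rd (P Q : SP) : SP
  | fore (P : SP) : SP

open SP

/-- the machine executing structured programs: the state is the list of programs to be executed -/
def spins : List SP → Ins (List SP) ℕ
  | [] => .stop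
  | skip :: k => .jmp k
  | inc r :: k => .inc r k
  | chk r :: k => .chk r k
  | whl r P :: k => .dec r (P :: whl r P :: k) k
  | seq P Q :: k => .jmp (P :: Q :: k)
  | rd P Q :: k => .rd (P :: k) (Q :: k)
  | fore P :: k => .jmp (P :: fore P :: k)

/-- From the registers `s` the program `P` runs to its end, reading no bit, with the registers
`t`. -/
def Big (P : SP) (s t : ℕ → ℕ) : Prop :=
  ∀ (x : ℕ → Bool) (k : List SP) (p : ℕ), ∃ j, 0 < j ∧
    dr spins x (P :: k, s, p) j = some (k, t, p)

lemma Big.congr {P : SP} {s t t' : ℕ → ℕ} (h : Big P s t) (e : t = t') : Big P s t' := e ▸ h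

lemma Big.congr_left {P : SP} {s s' t : ℕ → ℕ} (h : Big P s t) (e : s = s') :
    Big P s' t := e ▸ h

lemma big_skip (s : ℕ → ℕ) : Big skip s s := fun _ _ _ => ⟨1, Nat.one_pos, rfl⟩

lemma big_inc (r : ℕ) (s : ℕ → ℕ) : Big (inc r) s (update s r (s r + 1)) :=
  fun _ _ _ => ⟨1, Nat.one_pos, rfl⟩

lemma big_seq {P Q : SP} {s t u : ℕ → ℕ} (h1 : Big P s t) (h2 : Big Q t u) :
    Big (seq P Q) s u := by
  intro x k p
  obtain ⟨i, _, hi⟩ := h1 x (Q :: k) p
  obtain ⟨j, _, hj⟩ := h2 x k p
  refine ⟨1 + (i + j), by omega, ?_⟩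
  exact dr_trans spins x (d := (P :: Q :: k, s, p)) rfl (dr_trans spins x hi hj)

lemma big_whl (r : ℕ) (body : SP) (st : ℕ → (ℕ → ℕ)) (N : ℕ)
    (h0 : ∀ k < N, st k r ≠ 0)
    (h1 : ∀ k < N, Big body (update (st k) r (st k r - 1)) (st (k + 1)))
    (h2 : st N r = 0) : Big (whl r body) (st 0) (st N) := by
  induction N generalizing st with
  | zero =>
    intro x k p
    refine ⟨1, Nat.one_pos, ?_⟩
    simp [dr, dstep, spins, h2]
  | succ N ih =>
    have h := ih (fun k => st (k + 1)) (fun k hk => h0 (k + 1) (by omega))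
      (fun k hk => h1 (k + 1) (by omega)) h2
    intro x k p
    obtain ⟨i, _, hi⟩ := h1 0 (by omega) x (whl r body :: k) p
    obtain ⟨j, _, hj⟩ := h x k p
    refine ⟨1 + (i + j), by omega, ?_⟩
    refine dr_trans spins x (d := (body :: whl r body :: k, update (st 0) r (st 0 r - 1), p)) ?_
      (dr_trans spins x hi hj)
    have h00 := h0 0 (by omega)
    simp [dr, dstep, spins, h00]

end Pool.Agent.Helper74.Ctr
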