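import Pool.Agent.Helper74.BlindMain

/-!
# One catalyst, one membrane: every recursively enumerable set (as in `Pool.Agent.S14505`)
-/

set_option autoImplicit false

namespace Pool.Agent.Helper74

/-- The one-region system built from a counter program generates the given set. -/
theorem gen_iff_cat (S : Set ℕ) (hS : Partrec (fun n : ℕ => Part.assert (n ∈ S)
    (fun _ => Part.some ()))) :
    ∃ (A : Type) (_ : DecidableEq A) (_ : Finite A) (Rs : Set (RuleT A)) (_ : Rs.Finite) (c : A)
      (_ : OneCat Rs c) (X0 : Multiset A) (_ : X0.count c ≤ 1), ∀ n, n ∈ S ↔ ∃ T, HC Rs T X0 n := by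
  classical
  obtain ⟨P, hP⟩ := exists_prg S hS
  obtain ⟨K0, hK0⟩ := exists_bound P
  let K := K0 + 1
  have hK : P.all (fun a => a.reg < K) := Prg.all_mono (fun a h => Nat.lt_succ_of_lt h) P hK0
  obtain ⟨σ, hσ, D, hD⟩ := (full K P).lang_regular
  let ι : Reg K ≃ Fin (Fintype.card (Reg K)) := Fintype.equivFin _
  let G := ctl (BA K) D
  have hfin : (PR G ι).Finite := PR_finite G ι
  refine ⟨Sym (Option σ) ((σ × BL K) ⊕ (Option D.accept)) (Reg K) (Fintype.card (Reg K)),
    inferInstance, inferInstance, PR G ι, hfin, Sym.c, PR_oneCat G ι,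
    Sym.c ::ₘ Sym.st (some D.start) ::ₘ ({Reg.d} : Multiset (Reg K)).map
      (sy G (Fintype.card (Reg K)) 0), ?_, ?_⟩
  · rw [Multiset.count_cons_self, Multiset.count_eq_zero_of_notMem (c_not_mem_start G _ _)]
  · intro n
    have hv0 : view ({Reg.d} : Multiset (Reg K)) = v0 K := by
      ext <;> simp [view, v0]
    have hsem : (full K P).sem (vs K) (v0 K, 0) (v0 K, n) ↔ n ∈ S := by
      rw [hP]
      constructor
      · exact full_sound (Nat.succ_pos _) P hK n
      · rintro ⟨t, ht⟩
        exact full_complete (Nat.succ_pos _) P hK n t ht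
    rw [← hsem, Prg.sem_iff]
    constructor
    · rintro ⟨w, hw, hrun⟩
      rw [← hD] at hw
      have hb : brun (BA K) w {Reg.d} {Reg.d} n := by
        rw [brun_iff w _ _ 0 n, wrun_view, hv0, Nat.zero_add]
        exact hrun
      exact dfa_complete (BA K) D ι w D.start {Reg.d} n (by simp [BA]) hw hb
    · rintro ⟨T, hT⟩
      obtain ⟨w, hw, hb⟩ := dfa_sound (BA K) D ι T D.start {Reg.d} n (by simp [BA]) hT
      refine ⟨w, ?_, ?_⟩
      · rw [← hD]
        exact hw
      · have hb' : brun (BA K) w {Reg.d} {Reg.d} n := hb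
        rw [brun_iff w _ _ 0 n, wrun_view, hv0, Nat.zero_add] at hb'
        exact hb'

end Pool.Agent.Helper74
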