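import Pool.Agent.Helper74.CtrMach

/-!
Compilation of partial recursive functions into structured counter programs.
-/

set_option autoImplicit false
set_option linter.unusedSectionVars false
set_option linter.unusedSimpArgs false

namespace Pool.Agent.Helper74.Ctr

open Function SP

/-- clear a register -/
def clr (r : ℕ) : SP := whl r skip

lemma big_clr (r : ℕ) (s : ℕ → ℕ) : Big (clr r) s (update s r 0) := by
  have := big_whl r SP.skip (fun k => update s r (s r - k)) (s r)
    (by intro k hk; simp; omega)
    (by
      intro k hk
      simp only [update_self, update_idem]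
      have : s r - k - 1 = s r - (k + 1) := by omega
      rw [this]
      exact big_skip _)
    (by simp)
  unfold clr
  simpa using this

/-- move the contents of `r` to `q` -/
def mov (r q : ℕ) : SP := whl r (SP.inc q)

lemma big_mov (r q : ℕ) (hrq : r ≠ q) (s : ℕ → ℕ) :
    Big (mov r q) s (update (update s q (s q + s r)) r 0) := by
  have := big_whl r (SP.inc q)
    (fun k => update (update s q (s q + k)) r (s r - k)) (s r)
    (by intro k hk; simp; omega)
    (by
      intro k hk
      refine (big_inc q _).congr ?_
      funext j
      by_cases h1 : j = q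
      · subst h1
        simp [Ne.symm hrq]
        omega
      · by_cases h2 : j = r
        · subst h2
          simp [h1]
          omega
        · simp [h1, h2])
    (by simp)
  unfold mov
  simpa using this

/-- add the contents of `r` to `q`, using the scratch register `u` -/
def cpy (r q u : ℕ) : SP :=
  SP.seq (whl r (SP.seq (SP.inc q) (SP.inc u))) (mov u r)

lemma big_cpy (r q u : ℕ) (hrq : r ≠ q) (hru : r ≠ u) (hqu : q ≠ u) (s : ℕ → ℕ)
    (hu : s u = 0) : Big (cpy r q u) s (update s q (s q + s r)) := by
  have h1 := big_whl r (SP.seq (SP.inc q) (SP.inc u))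
    (fun k => update (update (update s q (s q + k)) u k) r (s r - k)) (s r)
    (by intro k hk; simp; omega)
    (by
      intro k hk
      refine (big_seq (big_inc q _) (big_inc u _)).congr ?_
      funext j
      by_cases h1 : j = q
      · subst h1
        simp [Ne.symm hrq, hqu]
        omega
      · by_cases h2 : j = r
        · subst h2
          simp [h1, hru]
          omega
        · by_cases h3 : j = u
          · subst h3
            simp [Ne.symm hqu, h2]
          · simp [h1, h2, h3])
    (by simp)
  have h1' := h1.congr_left (s' := s) (by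
    funext j
    by_cases h1 : j = q
    · subst h1
      simp [Ne.symm hrq, hqu]
    · by_cases h2 : j = r
      · subst h2
        simp
      · by_cases h3 : j = u
        · subst h3
          simp [h2, hu]
        · simp [h2, h3])
  refine (big_seq h1' (big_mov u r (Ne.symm hru) _)).congr ?_
  funext j
  by_cases h1 : j = q
  · subst h1
    simp [Ne.symm hrq, hqu]
  · by_cases h2 : j = r
    · subst h2
      simp [hrq, hru, Ne.symm hru]
    · by_cases h3 : j = u
      · subst h3
        simp [Ne.symm hqu, hu]
      · simp [h1, h2, h3]

/-- `f` is computed by structured programs, for every choice of input and output registers. -/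
def CompS {n : ℕ} (f : List.Vector ℕ n →. ℕ) : Prop :=
  ∀ (ins : Fin n → ℕ) (out b : ℕ), (∀ i, ins i < b) → out < b → (∀ i, ins i ≠ out) →
    ∃ P : SP, ∀ s : ℕ → ℕ, (∀ j, b ≤ j → s j = 0) →
      ∀ y ∈ f (List.Vector.ofFn (fun i => s (ins i))), Big P s (update s out (s out + y))

lemma compS_total {n : ℕ} {f : List.Vector ℕ n → ℕ} :
    CompS (fun v => Part.some (f v)) ↔
    ∀ (ins : Fin n → ℕ) (out b : ℕ), (∀ i, ins i < b) → out < b → (∀ i, ins i ≠ out) →
    ∃ P : SP, ∀ s : ℕ → ℕ, (∀ j, b ≤ j → s j = 0) →
      Big P s (update s out (s out + f (List.Vector.ofFn (fun i => s (ins i))))) := by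
  unfold CompS
  simp [Part.mem_some_iff]

lemma CompS.of_eq {n : ℕ} {f g : List.Vector ℕ n →. ℕ} (hf : CompS f) (h : ∀ v, f v = g v) :
    CompS g := by
  have : f = g := funext h
  exact this ▸ hf

lemma compS_zero : CompS (fun _ : List.Vector ℕ 0 => Part.some 0) := by
  rw [compS_total]
  intro ins out b _ _ _
  refine ⟨SP.skip, fun s _ => (big_skip s).congr ?_⟩
  simp

lemma compS_succ : CompS (fun v : List.Vector ℕ 1 => Part.some (Nat.succ v.head)) := by
  rw [compS_total]
  intro ins out b hins hout hne
  refine ⟨SP.seq (cpy (ins 0) out b) (SP.inc out), fun s hs => ?_⟩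
  have h0 := hins 0
  refine (big_seq (big_cpy (ins 0) out b (hne 0) (by omega) (by omega) s (hs b le_rfl))
    (big_inc out _)).congr ?_
  funext j
  by_cases h : j = out
  · subst h
    simp [List.Vector.ofFn, List.Vector.head]
    omega
  · simp [h]

lemma compS_get {n : ℕ} (i : Fin n) : CompS (fun v : List.Vector ℕ n => Part.some (v.get i)) := by
  rw [compS_total]
  intro ins out b hins hout hne
  refine ⟨cpy (ins i) out b, fun s hs => ?_⟩
  have h0 := hins i
  refine (big_cpy (ins i) out b (hne i) (by omega) (by omega) s (hs b le_rfl)).congr ?_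
  simp

lemma mem_mOfFn {n : ℕ} (g : Fin n → Part ℕ) (w : List.Vector ℕ n) :
    w ∈ (List.Vector.mOfFn g : Part (List.Vector ℕ n)) ↔ ∀ i, w.get i ∈ g i := by
  induction n with
  | zero =>
    constructor
    · intro _ i
      exact i.elim0
    · intro _
      show w ∈ Part.some _
      rw [Part.mem_some_iff]
      exact Subsingleton.elim _ _
  | succ n ih =>
    unfold List.Vector.mOfFn
    simp only [Part.bind_eq_bind, Part.mem_bind_iff, Part.pure_eq_some, Part.mem_some_iff]
    constructor
    · rintro ⟨a, ha, w', hw', rfl⟩ i
      rw [ih] at hw'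
      refine Fin.cases ?_ ?_ i
      · simpa using ha
      · intro j
        simpa using hw' j
    · intro h
      refine ⟨w.head, by simpa using h 0, w.tail, ?_, by simp⟩
      rw [ih]
      intro j
      simpa using h j.succ

/-- clear `n` consecutive registers -/
lemma clr_range (b n : ℕ) : ∃ P : SP, ∀ s : ℕ → ℕ,
    Big P s (fun j => if b ≤ j ∧ j < b + n then 0 else s j) := by
  induction n with
  | zero =>
    refine ⟨SP.skip, fun s => (big_skip s).congr ?_⟩
    funext j
    rw [if_neg (by omega)]
  | succ n ih =>
    obtain ⟨P, hP⟩ := ih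
    refine ⟨SP.seq P (clr (b + n)), fun s => (big_seq (hP s) (big_clr (b + n) _)).congr ?_⟩
    funext j
    by_cases h1 : j = b + n
    · subst h1
      simp
    · rw [update_of_ne h1]
      by_cases h2 : b ≤ j ∧ j < b + n
      · rw [if_pos h2, if_pos (by omega)]
      · rw [if_neg h2, if_neg (by omega)]

/-- evaluate `n` functions into consecutive registers -/
lemma eval_range {m n : ℕ} (g : Fin n → (List.Vector ℕ m →. ℕ)) (hg : ∀ i, CompS (g i))
    (ins : Fin m → ℕ) (b : ℕ) (hins : ∀ i, ins i < b) (k : ℕ) (hk : k ≤ n) :
    ∃ P : SP, ∀ s : ℕ → ℕ, (∀ j, b ≤ j → s j = 0) → ∀ ys : ℕ → ℕ, (∀ i (hi : i < n), i < k →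
          ys i ∈ g ⟨i, hi⟩ (List.Vector.ofFn (fun i => s (ins i)))) →
        Big P s (fun j => if b ≤ j ∧ j < b + k then ys (j - b) else s j) := by
  induction k with
  | zero =>
    refine ⟨SP.skip, fun s _ ys _ => (big_skip s).congr ?_⟩
    funext j
    rw [if_neg (by omega)]
  | succ k ih =>
    obtain ⟨P, hP⟩ := ih (by omega)
    obtain ⟨Q, hQ⟩ := hg ⟨k, by omega⟩ ins (b + k) (b + n) (fun i => by have := hins i; omega)
      (by omega) (fun i => by have := hins i; omega)
    refine ⟨SP.seq P Q, fun s hs ys hys => ?_⟩
    have hv : List.Vector.ofFn (fun i =>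
        (fun j => if b ≤ j ∧ j < b + k then ys (j - b) else s j) (ins i)) =
        List.Vector.ofFn (fun i => s (ins i)) := by
      congr 1
      funext i
      have := hins i
      simp only
      rw [if_neg (by omega)]
    have hz : ∀ j, b + n ≤ j →
        (fun j => if b ≤ j ∧ j < b + k then ys (j - b) else s j) j = 0 := by
      intro j hj
      simp only
      rw [if_neg (by omega)]
      exact hs j (by omega)
    have h1 := hP s hs ys (fun i hi hik => hys i hi (by omega))
    have h2 := hQ (fun j => if b ≤ j ∧ j < b + k then ys (j - b) else s j) hz (ys k)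
      (by rw [hv]; exact hys k (by omega) (by omega))
    refine (big_seq h1 h2).congr ?_
    funext j
    by_cases h1 : j = b + k
    · subst h1
      rw [update_self, if_neg (by omega), if_pos (by omega), hs _ (by omega)]
      simp
    · rw [update_of_ne h1]
      by_cases h2 : b ≤ j ∧ j < b + k
      · rw [if_pos h2, if_pos (by omega)]
      · rw [if_neg h2, if_neg (by omega)]

lemma compS_comp {m n : ℕ} {f : List.Vector ℕ n →. ℕ} (hf : CompS f)
    (g : Fin n → (List.Vector ℕ m →. ℕ)) (hg : ∀ i, CompS (g i)) :
    CompS (fun v => (List.Vector.mOfFn fun i => g i v) >>= f) := by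
  intro ins out b hins hout hne
  obtain ⟨P, hP⟩ := eval_range g hg ins b hins n le_rfl
  obtain ⟨Q, hQ⟩ := hf (fun i => b + i.val) out (b + n) (fun i => by omega) (by omega)
    (fun i => by omega)
  obtain ⟨C, hC⟩ := clr_range b n
  refine ⟨SP.seq P (SP.seq Q C), fun s hs y hy => ?_⟩
  obtain ⟨w, hw, hy⟩ := Part.mem_bind_iff.1 hy
  rw [mem_mOfFn] at hw
  let ys : ℕ → ℕ := fun i => if h : i < n then w.get ⟨i, h⟩ else 0
  have hw' : List.Vector.ofFn (fun i : Fin n => ys i.val) = w := by
    apply List.Vector.ext
    intro i
    simp [ys]
  have hz : ∀ j, b + n ≤ j →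
      (fun j => if b ≤ j ∧ j < b + n then ys (j - b) else s j) j = 0 := by
    intro j hj
    simp only
    rw [if_neg (by omega)]
    exact hs j (by omega)
  have hv : List.Vector.ofFn (fun i : Fin n =>
      (fun j => if b ≤ j ∧ j < b + n then ys (j - b) else s j) (b + i.val)) =
      List.Vector.ofFn (fun i : Fin n => ys i.val) := by
    congr 1
    funext i
    have := i.isLt
    simp only
    rw [if_pos (by omega)]
    congr 1
    omega
  have h1 := hP s hs ys (by
    intro i hi _
    have : ys i = w.get ⟨i, hi⟩ := by simp [ys, hi]
    rw [this]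
    exact hw ⟨i, hi⟩)
  have h2 := hQ _ hz y (by rw [hv, hw']; exact hy)
  refine (big_seq h1 (big_seq h2 (hC _))).congr ?_
  funext j
  by_cases h1 : j = out
  · subst h1
    rw [if_neg (by omega), update_self, update_self, if_neg (by omega)]
  · by_cases h2 : b ≤ j ∧ j < b + n
    · rw [if_pos h2, update_of_ne h1, hs j h2.1]
    · rw [if_neg h2, update_of_ne h1, update_of_ne h1, if_neg h2]

lemma compS_prec {n : ℕ} {f : List.Vector ℕ n → ℕ} {g : List.Vector ℕ (n + 2) → ℕ}
    (hf : CompS (fun v => Part.some (f v))) (hg : CompS (fun v => Part.some (g v))) :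
    CompS (fun v : List.Vector ℕ (n + 1) => Part.some
      (v.head.rec (f v.tail) fun y IH => g (y ::ᵥ IH ::ᵥ v.tail) : ℕ)) := by
  rw [compS_total] at hf hg ⊢
  intro ins out b hins hout hne
  -- b : counter, b+1 : accumulator, b+2 : temporary, b+3 : remaining
  obtain ⟨P, hP⟩ := hf (fun i => ins i.succ) (b + 1) (b + 4)
    (fun i => by have := hins i.succ; omega) (by omega) (fun i => by have := hins i.succ; omega)
  obtain ⟨Q, hQ⟩ := hg (fun i => if i.val = 0 then b else if i.val = 1 then b + 1 else
      ins (Fin.ofNat (n + 1) (i.val - 1))) (b + 2) (b + 4)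
    (fun i => by
      have := hins (Fin.ofNat (n + 1) (i.val - 1))
      split_ifs <;> omega) (by omega)
    (fun i => by
      have := hins (Fin.ofNat (n + 1) (i.val - 1))
      split_ifs <;> omega)
  refine ⟨SP.seq (cpy (ins 0) (b + 3) (b + 4)) (SP.seq P (SP.seq
    (whl (b + 3) (SP.seq Q (SP.seq (clr (b + 1)) (SP.seq (mov (b + 2) (b + 1))
      (SP.inc b))))) (SP.seq (mov (b + 1) out) (clr b)))), fun s hs => ?_⟩
  have h0 := hins 0
  set N := s (ins 0) with hN
  set tl := List.Vector.ofFn (fun i => s (ins (Fin.succ i))) with htl
  let F : ℕ → ℕ := fun k => Nat.rec (f tl) (fun y IH => g (y ::ᵥ IH ::ᵥ tl)) k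
  let st : ℕ → (ℕ → ℕ) := fun k j => if j = b then k else if j = b + 1 then F k else
    if j = b + 3 then N - k else s j
  have hF0 : F 0 = f tl := rfl
  have hFs : ∀ k, F (k + 1) = g (k ::ᵥ F k ::ᵥ tl) := fun k => rfl
  have h1 : Big (cpy (ins 0) (b + 3) (b + 4)) s (update s (b + 3) N) := by
    refine (big_cpy (ins 0) (b + 3) (b + 4) (by omega) (by omega) (by omega) s
      (hs _ (by omega))).congr ?_
    rw [hs (b + 3) (by omega), zero_add]
  have h2 : Big P (update s (b + 3) N) (st 0) := by
    refine (hP (update s (b + 3) N) ?_).congr ?_
    · intro j hj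
      rw [update_of_ne (by omega)]
      exact hs j (by omega)
    · have e : List.Vector.ofFn (fun i => update s (b + 3) N (ins (Fin.succ i))) = tl := by
        rw [htl]
        congr 1
        funext i
        have := hins i.succ
        rw [update_of_ne (by omega)]
      rw [e]
      funext j
      simp only [st]
      by_cases hj1 : j = b + 1
      · subst hj1
        rw [update_self, update_of_ne (by omega), hs (b + 1) (by omega), if_neg (by omega),
          if_pos rfl, hF0, zero_add]
      · rw [update_of_ne hj1]
        by_cases hj2 : j = b + 3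
        · subst hj2
          rw [update_self, if_neg (by omega), if_neg (by omega), if_pos rfl, Nat.sub_zero]
        · rw [update_of_ne hj2]
          by_cases hj3 : j = b
          · subst hj3
            rw [if_pos rfl, hs _ le_rfl]
          · rw [if_neg hj3, if_neg hj1, if_neg hj2]
  have hzero : ∀ k j, b + 4 ≤ j → st k j = 0 := by
    intro k j hj
    simp only [st]
    rw [if_neg (by omega), if_neg (by omega), if_neg (by omega)]
    exact hs j (by omega)
  have h3 : Big (whl (b + 3) (SP.seq Q (SP.seq (clr (b + 1)) (SP.seq (mov (b + 2) (b + 1))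
      (SP.inc b))))) (st 0) (st N) := by
    refine big_whl _ _ st N ?_ ?_ ?_
    · intro k hk
      simp only [st]
      rw [if_neg (by omega), if_neg (by omega), if_pos (by trivial)]
      omega
    · intro k hk
      have e1 : st k (b + 3) = N - k := by
        simp only [st]
        rw [if_neg (by omega), if_neg (by omega), if_pos (by trivial)]
      set u := update (st k) (b + 3) (st k (b + 3) - 1) with hu
      have hu1 : ∀ j, j ≠ b + 3 → u j = st k j := fun j hj => by
        rw [hu, update_of_ne hj]
      have hu2 : u (b + 3) = N - (k + 1) := by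
        rw [hu, update_self, e1]
        omega
      have d1 := hQ u (fun j hj => by rw [hu1 j (by omega)]; exact hzero k j hj)
      have e2 : List.Vector.ofFn (fun i : Fin (n + 2) =>
          u (if i.val = 0 then b else if i.val = 1 then b + 1 else
            ins (Fin.ofNat (n + 1) (i.val - 1)))) = k ::ᵥ F k ::ᵥ tl := by
        apply List.Vector.ext
        intro i
        rw [List.Vector.get_ofFn]
        refine Fin.cases ?_ (fun i => ?_) i
        · simp only [Fin.val_zero, if_true, List.Vector.get_zero, List.Vector.head_cons]
          rw [hu1 b (by omega)]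
          simp [st]
        · refine Fin.cases ?_ (fun i => ?_) i
          · simp only [Fin.succ_zero_eq_one, Fin.val_one, one_ne_zero, if_false, if_true]
            rw [hu1 (b + 1) (by omega)]
            have : (k ::ᵥ F k ::ᵥ tl).get 1 = F k := rfl
            rw [this]
            simp [st]
          · have hi1 : (i.succ.succ : Fin (n + 2)).val = i.val + 2 := rfl
            rw [if_neg (by omega), if_neg (by omega)]
            have e3 : Fin.ofNat (n + 1) ((i.succ.succ : Fin (n + 2)).val - 1) = i.succ := by
              apply Fin.ext
              have := i.isLt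
              simp only [Fin.ofNat, hi1, Fin.val_succ]
              rw [Nat.mod_eq_of_lt (by omega)]
              omega
            have hlt := hins i.succ
            rw [e3, hu1 _ (by omega), List.Vector.get_cons_succ, List.Vector.get_cons_succ, htl,
              List.Vector.get_ofFn]
            simp only [st]
            rw [if_neg (by omega), if_neg (by omega), if_neg (by omega)]
      have e4 : u (b + 2) = 0 := by
        rw [hu1 _ (by omega)]
        simp only [st]
        rw [if_neg (by omega), if_neg (by omega), if_neg (by omega)]
        exact hs _ (by omega)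
      have d1' : Big Q u (update u (b + 2) (F (k + 1))) := by
        refine d1.congr ?_
        rw [e2, e4, zero_add, hFs]
      refine (big_seq d1' (big_seq (big_clr (b + 1) _) (big_seq
        (big_mov (b + 2) (b + 1) (by omega) _) (big_inc b _)))).congr ?_
      funext j
      by_cases hj1 : j = b
      · subst hj1
        simp only [update_apply, st]
        simp only [hu1 j (by omega), st]
        simp
      · by_cases hj2 : j = b + 1
        · subst hj2
          simp [update_apply, st]
        · by_cases hj3 : j = b + 2
          · subst hj3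
            simp [update_apply, st]
            exact (hs _ (by omega)).symm
          · by_cases hj4 : j = b + 3
            · subst hj4
              simp [update_apply, st]
              exact hu2
            · simp [update_apply, hj1, hj2, hj3, st, hj4]
              rw [hu1 j hj4]
              simp [st, hj1, hj2, hj4]
    · simp only [st]
      rw [if_neg (by omega), if_neg (by omega), if_pos (by trivial), Nat.sub_self]
  refine (big_seq h1 (big_seq h2 (big_seq h3 (big_seq (big_mov (b + 1) out (by omega) _)
    (big_clr b _))))).congr ?_
  have e5 : (Nat.rec (f (List.Vector.ofFn fun i => s (ins i)).tail)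
      (fun y IH => g (y ::ᵥ IH ::ᵥ (List.Vector.ofFn fun i => s (ins i)).tail))
      (List.Vector.ofFn fun i => s (ins i)).head : ℕ) = F N := by
    have t1 : (List.Vector.ofFn fun i => s (ins i)).tail = tl := by
      rw [htl]
      apply List.Vector.ext
      intro i
      simp
    have t2 : (List.Vector.ofFn fun i => s (ins i)).head = N := by
      rw [hN, ← List.Vector.get_zero, List.Vector.get_ofFn]
    rw [t1, t2]
  rw [e5]
  funext j
  by_cases hj1 : j = out
  · subst hj1
    have a1 : j ≠ b := by omega
    have a2 : j ≠ b + 1 := by omega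
    have a3 : j ≠ b + 3 := by omega
    simp [update_apply, st, a1, a2, a3]
  · by_cases hj2 : j = b
    · subst hj2
      simp [update_apply, hj1]
      exact (hs _ le_rfl).symm
    · by_cases hj3 : j = b + 1
      · subst hj3
        simp [update_apply, hj1]
        exact (hs _ (by omega)).symm
      · by_cases hj4 : j = b + 3
        · subst hj4
          simp [update_apply, hj1, st]
          exact (hs _ (by omega)).symm
        · simp [update_apply, hj1, hj2, hj3, hj4, st]

lemma compS_rfind {n : ℕ} {f : List.Vector ℕ (n + 1) → ℕ}
    (hf : CompS (fun v => Part.some (f v))) :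
    CompS (fun v : List.Vector ℕ n =>
      Nat.rfind fun k => Part.some (decide (f (k ::ᵥ v) = 0))) := by
  rw [compS_total] at hf
  intro ins out b hins hout hne
  obtain ⟨P, hP⟩ := hf (Fin.cons b ins) (b + 1) (b + 2)
    (fun i => by
      refine Fin.cases ?_ (fun i => ?_) i
      · simp
      · have := hins i
        simp; omega)
    (by omega)
    (fun i => by
      refine Fin.cases ?_ (fun i => ?_) i
      · simp
      · have := hins i
        simp; omega)
  let body : SP := SP.seq (clr (b + 1)) (SP.seq (SP.inc b) P)
  refine ⟨SP.seq P (SP.seq (whl (b + 1) body) (mov b out)), fun s hs y hy => ?_⟩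
  set v := List.Vector.ofFn (fun i => s (ins i)) with hv
  obtain ⟨hy1, hy2⟩ := Nat.mem_rfind.1 hy
  have hz : f (y ::ᵥ v) = 0 := by simpa using hy1
  have hnz : ∀ j < y, f (j ::ᵥ v) ≠ 0 := by
    intro j hj
    have := hy2 hj
    simpa using this
  let st0 : ℕ → (ℕ → ℕ) := fun k => update s b k
  let st : ℕ → (ℕ → ℕ) := fun k => update (update s b k) (b + 1) (f (k ::ᵥ v))
  have hP' : ∀ k, Big P (st0 k) (st k) := by
    intro k
    refine (hP (st0 k) ?_).congr ?_
    · intro j hj
      simp only [st0]
      rw [update_of_ne (by omega)]
      exact hs j (by omega)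
    · have e1 : st0 k (b + 1) = 0 := by
        simp only [st0]
        rw [update_of_ne (by omega)]
        exact hs _ (by omega)
      have e2 : List.Vector.ofFn (fun i => st0 k ((Fin.cons b ins : Fin (n + 1) → ℕ) i)) =
          k ::ᵥ v := by
        apply List.Vector.ext
        intro i
        rw [List.Vector.get_ofFn]
        refine Fin.cases ?_ (fun i => ?_) i
        · simp [st0]
        · rw [List.Vector.get_cons_succ, hv, List.Vector.get_ofFn, Fin.cons_succ]
          have := hins i
          simp only [st0]
          rw [update_of_ne (by omega)]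
      rw [e1, e2, zero_add]
  have hst0 : st0 0 = s := by
    simp only [st0]
    funext j
    by_cases h : j = b
    · subst h; rw [update_self, hs _ le_rfl]
    · rw [update_of_ne h]
  have hloop : Big (whl (b + 1) body) (st 0) (st y) := by
    refine big_whl _ _ st y ?_ ?_ ?_
    · intro k hk
      simpa [st] using hnz k hk
    · intro k hk
      refine big_seq (big_clr (b + 1) _) (big_seq (big_inc b _) ((hP' (k + 1)).congr_left ?_))
      funext j
      by_cases h1 : j = b
      · subst h1
        simp [st0, st]
      · by_cases h2 : j = b + 1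
        · subst h2
          simp [st0, st]
          exact hs _ (by omega)
        · simp [st0, st, h1, h2]
    · simpa [st] using hz
  refine (big_seq ((hP' 0).congr_left hst0) (big_seq hloop
    (big_mov b out (by omega) _))).congr ?_
  funext j
  by_cases h1 : j = out
  · subst h1
    have a1 : j ≠ b := by omega
    have a2 : j ≠ b + 1 := by omega
    simp [a1, a2, st]
  · by_cases h2 : j = b
    · subst h2
      simp [h1]
      exact (hs _ le_rfl).symm
    · by_cases h3 : j = b + 1
      · subst h3
        simp [h1, hz, st]
        exact (hs _ (by omega)).symm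
      · simp [h1, h2, h3, st]

lemma compS_primrec {n : ℕ} {f : List.Vector ℕ n → ℕ} (hf : Nat.Primrec' f) :
    CompS (fun v => Part.some (f v)) := by
  induction hf with
  | zero => exact compS_zero
  | succ => exact compS_succ
  | get i => exact compS_get i
  | comp g _ _ ihf ihg =>
    refine (compS_comp ihf (fun i v => Part.some (g i v)) ihg).of_eq ?_
    intro v
    simp [Vector.mOfFn_part_some]
  | prec _ _ ihf ihg => exact compS_prec ihf ihg

lemma compS_partrec {n : ℕ} {f : List.Vector ℕ n →. ℕ} (hf : Nat.Partrec' f) : CompS f := by
  induction hf with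
  | prim h => exact compS_primrec h
  | comp g _ _ ihf ihg => exact compS_comp ihf g ihg
  | rfind _ ih => exact compS_rfind ih

/-- Every computable function on the natural numbers is computed by a structured program: the
argument is in register `0`, the result is put into register `1`. -/
lemma exists_sp (f : ℕ → ℕ) (hf : Computable f) :
    ∃ P : SP, ∀ n, Big P (update (0 : ℕ → ℕ) 0 n) (update (update (0 : ℕ → ℕ) 0 n) 1 (f n)) := by
  have h2 := Nat.Partrec'.part_iff₁.2 hf.partrec
  obtain ⟨P, hP⟩ := compS_partrec h2 (fun _ => 0) 1 2 (by simp) (by simp) (by simp)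
  refine ⟨P, fun n => ?_⟩
  have hz : ∀ j, 2 ≤ j → update (0 : ℕ → ℕ) 0 n j = 0 := by
    intro j hj
    rw [update_of_ne (by omega)]
    rfl
  refine (hP _ hz (f n) ?_).congr ?_
  · have hh : (List.Vector.ofFn (fun _ : Fin 1 => update (0 : ℕ → ℕ) 0 n 0)).head = n := by
      rw [← List.Vector.get_zero, List.Vector.get_ofFn, update_self]
    simp only [hh]
    exact Part.mem_some _
  · simp

end Pool.Agent.Helper74.Ctr
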